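import Mathlib

/-! A smooth logarithmic cutoff function. -/

namespace Pool.Agent.P.MP_56bcbf_an

open Set Metric Filter Topology MeasureTheory Real ContinuousLinearMap
open scoped Convolution

theorem abs_log_sub_le {x y m : ℝ} (hm : 0 < m) (hx : m ≤ x) (hy : m ≤ y) :
    |Real.log x - Real.log y| ≤ |x - y| / m := by
  wlog h : y ≤ x generalizing x y
  · rw [abs_sub_comm, abs_sub_comm x]
    exact this hy hx (by linarith)
  have hy0 : 0 < y := by linarith
  rw [abs_of_nonneg (by linarith [Real.log_le_log hy0 h]), abs_of_nonneg (by linarith),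
    ← Real.log_div (by linarith) hy0.ne']
  calc Real.log (x / y) ≤ x / y - 1 := Real.log_le_sub_one_of_pos (div_pos (by linarith) hy0)
    _ = (x - y) / y := by field_simp
    _ ≤ _ := by gcongr

theorem exists_cutoff {δ : ℂ → ℝ} (hδ : LipschitzWith 1 δ) {a : ℝ} (ha : 0 < a) (ha1 : a < 1) :
    ∃ χ : ℂ → ℝ, ContDiff ℝ 1 χ ∧ (∀ z, |χ z| ≤ 1) ∧ (∀ z, δ z ≤ a ^ 2 / 2 → χ z = 0) ∧
      (∀ z, 2 * a ≤ δ z → χ z = 1) ∧
      ∀ z, 0 < δ z → ‖fderiv ℝ χ z‖ ≤ 2 / (-Real.log a * δ z) := by
  have hL : 0 < -Real.log a := by linarith [Real.log_neg ha ha1]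
  set L := -Real.log a with hLd
  have hδ' : ∀ x y, |δ x - δ y| ≤ ‖x - y‖ := fun x y => by
    simpa [Real.dist_eq, dist_eq_norm] using hδ.dist_le_mul x y
  set h : ℂ → ℝ := fun z => min 1 ((Real.log (max (δ z) (a ^ 2)) - Real.log (a ^ 2)) / L) with hh
  have hc : Continuous h := by
    refine continuous_const.min (Continuous.div_const (Continuous.sub (Continuous.log
      (hδ.continuous.max continuous_const) fun z => ?_) continuous_const) _)
    exact (lt_max_of_lt_right (by positivity)).ne'
  have h0 : ∀ z, δ z ≤ a ^ 2 → h z = 0 := fun z hz => by simp [hh, max_eq_right hz]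
  have h1 : ∀ z, a ≤ δ z → h z = 1 := fun z hz => by
    refine min_eq_left ?_
    rw [one_le_div hL, Real.log_pow]
    have := Real.log_le_log ha (hz.trans (le_max_left (δ z) (a ^ 2)))
    push_cast
    linarith
  have hb : ∀ z, |h z| ≤ 1 := fun z => by
    rw [abs_of_nonneg]
    · exact min_le_left _ _
    · refine le_min zero_le_one (div_nonneg ?_ hL.le)
      linarith [Real.log_le_log (by positivity) (le_max_right (δ z) (a ^ 2))]
  have hlip : ∀ z, 0 < δ z → ∀ x ∈ ball z (a ^ 2 / 2), ∀ y ∈ ball z (a ^ 2 / 2),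
      |h x - h y| ≤ 2 / (L * δ z) * ‖x - y‖ := by
    intro z hz x hx y hy
    have hm : ∀ x ∈ ball z (a ^ 2 / 2), δ z / 2 ≤ max (δ x) (a ^ 2) := by
      intro x hx
      rcases le_or_gt (δ z) (2 * a ^ 2) with h | h
      · exact le_max_of_le_right (by linarith)
      · refine le_max_of_le_left ?_
        have := (abs_le.1 (hδ' x z)).1
        rw [mem_ball, dist_eq_norm] at hx
        nlinarith
    refine (abs_min_sub_min_le_max _ _ _ _).trans ?_
    rw [sub_self, abs_zero, max_eq_right (abs_nonneg _), ← sub_div, sub_sub_sub_cancel_right,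
      abs_div, abs_of_pos hL]
    calc _ ≤ |max (δ x) (a ^ 2) - max (δ y) (a ^ 2)| / (δ z / 2) / L := by
          gcongr
          exact abs_log_sub_le (by positivity) (hm x hx) (hm y hy)
      _ ≤ ‖x - y‖ / (δ z / 2) / L := by
          gcongr
          exact (abs_max_sub_max_le_abs _ _ _).trans (hδ' x y)
      _ = _ := by field_simp
  set φ : ContDiffBump (0 : ℂ) := ⟨a ^ 2 / 8, a ^ 2 / 4, by positivity, by
    linarith [pow_pos ha 2]⟩ with hφ
  have hint : ∀ x, Integrable fun t => φ.normed volume t • h (x - t) := fun x =>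
    (φ.continuous_normed.smul (hc.comp (by fun_prop))).integrable_of_hasCompactSupport
      φ.hasCompactSupport_normed.smul_right
  refine ⟨φ.normed volume ⋆[lsmul ℝ ℝ, volume] h,
    φ.hasCompactSupport_normed.contDiff_convolution_left _ φ.contDiff_normed hc.locallyIntegrable,
    fun z => ?_, fun z hz => ?_, fun z hz => ?_, fun z hz => ?_⟩
  · rw [convolution_lsmul, ← Real.norm_eq_abs, ← φ.integral_normed (μ := volume)]
    refine norm_integral_le_of_norm_le φ.integrable_normed (.of_forall fun t => ?_)
    rw [norm_smul, Real.norm_of_nonneg (φ.nonneg_normed t)]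
    exact mul_le_of_le_one_right (φ.nonneg_normed t) (hb _)
  · rw [φ.normed_convolution_eq_right fun x hx => ?_, h0 z (by linarith [pow_pos ha 2])]
    rw [h0 z (by linarith [pow_pos ha 2]), h0 x]
    have := (abs_le.1 (hδ' x z)).2
    rw [mem_ball, dist_eq_norm] at hx
    simp only [hφ] at hx
    linarith [pow_pos ha 2]
  · rw [φ.normed_convolution_eq_right fun x hx => ?_, h1 z (by linarith)]
    rw [h1 z (by linarith), h1 x]
    have := (abs_le.1 (hδ' x z)).1
    rw [mem_ball, dist_eq_norm] at hx
    simp only [hφ] at hx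
    nlinarith
  · refine norm_fderiv_le_of_lip' ℝ (by positivity) ?_
    filter_upwards [ball_mem_nhds z (show 0 < a ^ 2 / 4 by positivity)] with x hx
    rw [convolution_lsmul, convolution_lsmul, ← integral_sub (hint x) (hint z),
      ← one_mul (2 / (L * δ z) * ‖x - z‖), ← φ.integral_normed (μ := volume), ← integral_mul_const]
    refine norm_integral_le_of_norm_le (φ.integrable_normed.mul_const _) (.of_forall fun t => ?_)
    rw [← smul_sub, norm_smul, Real.norm_of_nonneg (φ.nonneg_normed t)]
    by_cases ht : t ∈ Function.support (φ.normed volume)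
    · refine mul_le_mul_of_nonneg_left ?_ (φ.nonneg_normed t)
      rw [φ.support_normed_eq, mem_ball_zero_iff] at ht
      simp only [hφ] at ht
      have := hlip z hz (x - t) ?_ (z - t) ?_
      · rwa [sub_sub_sub_cancel_right] at this
      · rw [mem_ball, dist_eq_norm] at hx ⊢
        have := norm_sub_le (x - z) t
        rw [sub_right_comm] at this
        linarith
      · rw [mem_ball, dist_eq_norm, sub_sub_cancel_left, norm_neg]
        linarith [pow_pos ha 2]
    · rw [Function.notMem_support.1 ht]
      simp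

end Pool.Agent.P.MP_56bcbf_an
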