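import Pool.Agent.P.MP_56bcbf_an.Kernel

/-! The Cauchy-Pompeiu formula for compactly supported functions. -/

namespace Pool.Agent.P.MP_56bcbf_an

open Set Metric Filter Topology Complex MeasureTheory Real
open scoped ENNReal

theorem pompeiu {φ : ℂ → ℂ} (hφ : ContDiff ℝ 1 φ) (hc : HasCompactSupport φ) (w : ℂ) :
    ∫ z, (fderiv ℝ φ z 1 + I * fderiv ℝ φ z I) / (z - w) = -(2 * π) * φ w := by
  have hd : Differentiable ℝ φ := hφ.differentiable one_ne_zero
  have hL : Continuous (fderiv ℝ φ) := hφ.continuous_fderiv one_ne_zero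
  obtain ⟨ρ, hρ0, hρ⟩ : ∃ ρ > 0, ∀ y : ℂ, ρ < ‖y‖ → fderiv ℝ φ (w + y) = 0 := by
    obtain ⟨ρ, hρ0, hρ⟩ := (hc.fderiv (𝕜 := ℝ)).isBounded.exists_pos_norm_le
    refine ⟨ρ + ‖w‖, by positivity, fun y hy => ?_⟩
    by_contra h
    have h1 := hρ _ (subset_tsupport _ h)
    have h2 := norm_sub_le (w + y) w
    rw [add_sub_cancel_left] at h2
    linarith
  set H1 : ℝ × ℝ → ℂ := fun p => fderiv ℝ φ (w + circleMap 0 p.1 p.2) (cexp (p.2 * I)) with hH1
  set H2 : ℝ × ℝ → ℂ := fun p => fderiv ℝ φ (w + circleMap 0 p.1 p.2) (I * cexp (p.2 * I))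
    with hH2
  have hcm : Continuous fun p : ℝ × ℝ => w + circleMap 0 p.1 p.2 := by
    unfold circleMap
    fun_prop
  have hint : ∀ H : ℝ × ℝ → ℂ, Continuous H → (∀ p : ℝ × ℝ, ρ < p.1 → H p = 0) →
      Integrable H ((volume.restrict (Ioi 0)).prod (volume.restrict (Ioo (-π) π))) := by
    intro H hH h0
    rw [Measure.prod_restrict]
    refine IntegrableOn.of_forall_sdiff_eq_zero (s := Icc 0 ρ ×ˢ Icc (-π) π)
      (hH.continuousOn.integrableOn_compact (isCompact_Icc.prod isCompact_Icc))
      (measurableSet_Ioi.prod measurableSet_Ioo) fun p hp => h0 p ?_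
    by_contra h
    exact hp.2 ⟨⟨le_of_lt hp.1.1, not_lt.1 h⟩, Ioo_subset_Icc_self hp.1.2⟩
  have hn : ∀ p : ℝ × ℝ, ρ < p.1 → ρ < ‖circleMap 0 p.1 p.2‖ := fun p hp => by
    rw [norm_circleMap_zero]
    exact hp.trans_le (le_abs_self _)
  have c1 : Continuous H1 := (hL.comp hcm).clm_apply (by fun_prop)
  have c2 : Continuous H2 := (hL.comp hcm).clm_apply (by fun_prop)
  have i1 := hint H1 c1
    (fun p hp => by simp only [hH1, hρ _ (hn p hp), zero_apply])
  have i2 := hint H2 c2
    (fun p hp => by simp only [hH2, hρ _ (hn p hp), zero_apply])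
  rw [← integral_add_left_eq_self _ w, ← Complex.integral_comp_polarCoord_symm, polarCoord_target,
    setIntegral_congr_fun (measurableSet_Ioi.prod measurableSet_Ioo)
      (g := fun p => H1 p + I * H2 p), Measure.volume_eq_prod, ← Measure.prod_restrict,
    integral_add i1 (i2.const_mul _), integral_const_mul, integral_prod_symm _ i1,
    integral_prod _ i2]
  · have e1 : ∀ θ : ℝ, ∫ t in Ioi (0 : ℝ), H1 (t, θ) = -φ w := by
      intro θ
      have hder : ∀ t : ℝ, HasDerivAt (fun t : ℝ => φ (w + circleMap 0 t θ)) (H1 (t, θ)) t := by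
        intro t
        have h1 : HasDerivAt (fun s : ℝ => w + circleMap 0 s θ) (cexp (θ * I)) t := by
          simpa [circleMap] using
            ((hasDerivAt_id t).ofReal_comp.mul_const (cexp (θ * I))).const_add w
        exact (hd _).hasFDerivAt.comp_hasDerivAt t h1
      rw [integral_Ioi_of_hasDerivAt_of_tendsto' (m := 0) (fun t _ => hder t)]
      · simp
      · refine IntegrableOn.of_forall_sdiff_eq_zero (s := Icc 0 ρ) ?_ measurableSet_Ioi
          fun t ht => ?_
        · refine Continuous.integrableOn_Icc ?_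
          exact c1.comp (Continuous.prodMk_left θ)
        · have : ρ < t := by
            by_contra h
            exact ht.2 ⟨le_of_lt ht.1, not_lt.1 h⟩
          simp only [hH1, hρ _ (hn (t, θ) this), zero_apply]
      · obtain ⟨r, hr0, hr⟩ := hc.isBounded.exists_pos_norm_le
        refine tendsto_const_nhds.congr' ?_
        filter_upwards [eventually_gt_atTop (r + ‖w‖)] with t ht
        by_contra h
        have h1 := hr _ (subset_tsupport _ (Ne.symm h))
        have h2 := norm_sub_le (w + circleMap 0 t θ) w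
        rw [add_sub_cancel_left, norm_circleMap_zero] at h2
        linarith [le_abs_self t]
    have e2 : ∀ t ∈ Ioi (0 : ℝ), ∫ θ in Ioo (-π) π, H2 (t, θ) = 0 := by
      intro t ht
      have ht0 : (t : ℂ) ≠ 0 := ofReal_ne_zero.2 (ne_of_gt ht)
      have hder : ∀ θ : ℝ, HasDerivAt (fun θ : ℝ => (t : ℂ)⁻¹ * φ (w + circleMap 0 t θ))
          (H2 (t, θ)) θ := by
        intro θ
        have h1 := ((hd _).hasFDerivAt.comp_hasDerivAt θ
          ((hasDerivAt_circleMap 0 t θ).const_add w)).const_mul (t : ℂ)⁻¹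
        convert! h1 using 1
        rw [show circleMap 0 t θ * I = t • (I * cexp (θ * I)) by simp [circleMap]; ring, map_smul]
        simp only [hH2, real_smul]
        field_simp
      rw [← integral_Ioc_eq_integral_Ioo, ← intervalIntegral.integral_of_le (by linarith [pi_pos]),
        intervalIntegral.integral_eq_sub_of_hasDerivAt (fun θ _ => hder θ)]
      · have := periodic_circleMap 0 t (-π)
        rw [show -π + 2 * π = π by ring] at this
        rw [this, sub_self]
      · refine Continuous.intervalIntegrable ?_ _ _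
        exact c2.comp (Continuous.prodMk_right t)
    simp_rw [e1]
    rw [setIntegral_congr_fun measurableSet_Ioi e2, setIntegral_const,
      Real.volume_real_Ioo_of_le (by linarith [pi_pos])]
    simp only [integral_zero, mul_zero, add_zero, real_smul]
    push_cast
    ring
  · rintro ⟨t, θ⟩ ⟨ht, -⟩
    have ht0 : (t : ℂ) ≠ 0 := ofReal_ne_zero.2 (ne_of_gt ht)
    simp only [polar_symm_eq, add_sub_cancel_left, hH1, hH2, real_smul]
    set L := fderiv ℝ φ (w + circleMap 0 t θ)
    have a1 : L (cexp (θ * I)) = Real.cos θ * L 1 + Real.sin θ * L I := by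
      rw [show cexp (θ * I) = Real.cos θ • (1 : ℂ) + Real.sin θ • I by simp [exp_mul_I], map_add,
        map_smul, map_smul]
      simp
    have a2 : L (I * cexp (θ * I)) = -Real.sin θ * L 1 + Real.cos θ * L I := by
      rw [show I * cexp (θ * I) = (-Real.sin θ) • (1 : ℂ) + Real.cos θ • I by
        simp only [exp_mul_I, real_smul]
        push_cast
        linear_combination Complex.sin θ * I_mul_I, map_add, map_smul, map_smul]
      simp
    rw [a1, a2, circleMap, zero_add, exp_mul_I]
    have a3 : (Complex.cos θ + Complex.sin θ * I) ≠ 0 := by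
      rw [← exp_mul_I]
      exact exp_ne_zero _
    have a4 := Complex.cos_sq_add_sin_sq (θ : ℂ)
    push_cast
    rw [← mul_div_assoc, mul_div_mul_left _ _ ht0, div_eq_iff a3]
    linear_combination (-(L 1) - I * L I) * a4 +
      (L 1 * Complex.sin θ ^ 2 - L I * Complex.cos θ * Complex.sin θ) * I_mul_I

end Pool.Agent.P.MP_56bcbf_an
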