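import Pool.Agent.P.MP_56bcbf_an.Young
import Pool.Agent.P.MP_56bcbf_an.Pompeiu
import Pool.Agent.P.MP_56bcbf_an.Cutoff

/-! A density whose Cauchy transform vanishes on thick sets annihilates the Bergman space. -/

namespace Pool.Agent.P.MP_56bcbf_an

open Set Metric Filter Topology Complex MeasureTheory Real
open scoped ENNReal

theorem pairing_eq {k : ℂ → ℂ} (hm : Measurable k) (hk : Integrable k) {φ : ℂ → ℂ}
    (hφ : ContDiff ℝ 1 φ) (hc : HasCompactSupport φ) :
    2 * π * ∫ w, φ w * k w = ∫ z, (fderiv ℝ φ z 1 + I * fderiv ℝ φ z I) * cauchy k z := by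
  set B : ℂ → ℂ := fun z => fderiv ℝ φ z 1 + I * fderiv ℝ φ z I with hB
  have hL : Continuous (fderiv ℝ φ) := hφ.continuous_fderiv one_ne_zero
  have hBc : Continuous B :=
    (hL.clm_apply continuous_const).add (continuous_const.mul (hL.clm_apply continuous_const))
  have hBs : HasCompactSupport B := by
    refine (hc.fderiv (𝕜 := ℝ)).mono fun z hz h => hz ?_
    simp [hB, h]
  obtain ⟨M, hM⟩ := hBc.bounded_above_of_compact_support hBs
  obtain ⟨ρ, hρ0, hρ⟩ := hBs.isBounded.exists_pos_norm_lt
  have hM0 : 0 ≤ M := (norm_nonneg _).trans (hM 0)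
  have hBm := hBc.measurable
  have hint : Integrable (Function.uncurry fun w z => B z / (z - w) * k w) (volume.prod volume) := by
    have hme : Measurable (Function.uncurry fun w z => B z / (z - w) * k w) := by
      unfold Function.uncurry
      fun_prop
    refine ⟨hme.aestronglyMeasurable, ?_⟩
    rw [HasFiniteIntegral, lintegral_prod _ hme.enorm.aemeasurable]
    have hin : ∀ w, ∫⁻ z, ‖B z / (z - w) * k w‖ₑ ≤ (ENNReal.ofReal M *
        (ENNReal.ofReal (2 * π / (2 - 1) * 1 ^ (2 - 1 : ℝ)) + volume (ball (0 : ℂ) ρ))) *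
        ‖k w‖ₑ := by
      intro w
      simp_rw [enorm_mul]
      rw [lintegral_mul_const _ (by fun_prop)]
      gcongr
      rw [← lintegral_pow_kernel (by norm_num) one_pos w, ← lintegral_indicator measurableSet_ball,
        ← lintegral_indicator_one measurableSet_ball,
        ← lintegral_add_left (Measurable.indicator (by fun_prop) measurableSet_ball),
        ← lintegral_const_mul' _ _ ENNReal.ofReal_ne_top]
      refine lintegral_mono fun z => ?_
      by_cases hz : B z = 0
      · simp [hz]
      rw [indicator_of_mem (mem_ball_zero_iff.2 (hρ z (subset_tsupport _ hz))), ← ofReal_norm,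
        norm_div, div_eq_mul_inv, ENNReal.ofReal_mul (norm_nonneg _)]
      gcongr
      · exact hM z
      by_cases hzw : z ∈ ball w 1
      · rw [indicator_of_mem hzw, rpow_neg_one]
        exact le_self_add
      · rw [mem_ball, dist_eq_norm, not_lt] at hzw
        refine le_trans ?_ le_add_self
        simpa using inv_le_one_of_one_le₀ hzw
    refine (lintegral_mono hin).trans_lt ?_
    rw [lintegral_const_mul _ hm.enorm]
    exact ENNReal.mul_lt_top (ENNReal.mul_lt_top ENNReal.ofReal_lt_top
      (ENNReal.add_lt_top.2 ⟨ENNReal.ofReal_lt_top, measure_ball_lt_top⟩)) hk.2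
  have h1 := integral_integral_swap hint
  simp_rw [integral_mul_const, hB, pompeiu hφ hc] at h1
  rw [← neg_inj, ← neg_mul, ← integral_const_mul, ← integral_neg]
  simp_rw [← mul_assoc]
  rw [h1]
  congr 1
  funext z
  rw [cauchy, ← integral_const_mul, ← integral_neg]
  congr 1
  funext w
  rw [← neg_sub w z, div_neg]
  ring

theorem annihilate {k g : ℂ → ℂ} {Ω : Set ℂ} (hΩ : IsOpen Ω) {R : ℝ} (hR : Ω ⊆ ball 0 R)
    (hR0 : 0 < R) {p q : ℝ≥0∞} [p.HolderConjugate q] (hp : p ≠ ∞) (hm : Measurable k)
    (hk : Integrable k) (hkq : MemLp k q volume) (h0 : ∀ w ∉ Ω, k w = 0) (hgm : Measurable g)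
    (hg0 : ∀ w ∉ Ω, g w = 0) (hgd : DifferentiableOn ℂ g Ω) (hgp : MemLp g p volume) {d0 : ℝ}
    (hd0 : 0 < d0) (hthick : ∀ z ∈ Ω, infDist z Ωᶜ < d0 → ∃ V : Set ℂ, IsPreconnected V ∧
      V ⊆ (closure Ω)ᶜ ∧ (∀ e ∈ V, cauchy k e = 0) ∧ (∃ e ∈ V, ‖e - z‖ ≤ 2 * infDist z Ωᶜ) ∧
      ∃ e ∈ V, 3 * infDist z Ωᶜ ≤ ‖e - z‖) :
    ∫ w, g w * k w = 0 := by
  have hvol : volume Ω ≠ ∞ := ((measure_mono hR).trans_lt measure_ball_lt_top).ne
  obtain ⟨p0, q0, hpq0, -, hY⟩ := young_pow hp hm hkq hvol
  obtain ⟨C, hC, hb⟩ := cauchy_boundary hm hk h0 hR hpq0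
  set δ : ℂ → ℝ := fun z => infDist z Ωᶜ with hδ
  have hout : (R : ℂ) ∈ Ωᶜ := fun h => by simpa [abs_of_pos hR0] using hR h
  have hδ0 : ∀ z ∈ Ω, 0 < δ z := fun z hz =>
    (hΩ.isClosed_compl.notMem_iff_infDist_pos ⟨_, hout⟩).1 (fun h => h hz)
  have hδz : ∀ z ∉ Ω, δ z = 0 := fun z hz => infDist_zero_of_mem hz
  have hδc : Continuous δ := continuous_infDist_pt _
  have hgk : Integrable fun w => g w * k w := by
    refine ⟨(hgm.mul hm).aestronglyMeasurable, ?_⟩
    rw [HasFiniteIntegral]
    simp_rw [enorm_mul]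
    exact (holder_enorm (p := p) (q := q) hgm.aestronglyMeasurable
      hm.aestronglyMeasurable).trans_lt (ENNReal.mul_lt_top hgp.2 hkq.2)
  set N := eLpNorm k q volume with hN
  set c := 2 * π * (Real.log (1 + 2 * R) / Real.log 2 + 2) with hc
  have hl2 : 0 < Real.log 2 := Real.log_pos (by norm_num)
  have hlR : 0 ≤ Real.log (1 + 2 * R) := Real.log_nonneg (by linarith)
  have hc0 : 0 < c := by positivity
  set S : ℝ → Set ℂ := fun a => Ω ∩ {z | δ z ≤ 2 * a} with hS
  have hSm : ∀ a, MeasurableSet (S a) := fun a =>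
    hΩ.measurableSet.inter (isClosed_le hδc continuous_const).measurableSet
  have main : ∀ a : ℝ, 0 < a → a ≤ 1 / 2 → 2 * a < d0 → ‖∫ w, g w * k w‖ₑ ≤
      eLpNorm ((S a).indicator g) p volume *
        (N * ENNReal.ofReal (2 + 4 * C * (2 * c + 1 / Real.log 2))) := by
    intro a ha ha1 had
    obtain ⟨χ, hχ, hχ1, hχ0, hχe, hχd⟩ := exists_cutoff (lipschitz_infDist_pt Ωᶜ) ha (by linarith)
    set L := -Real.log a with hL
    have hL2 : Real.log 2 ≤ L := by
      have := Real.log_le_log ha ha1
      rw [one_div, Real.log_inv] at this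
      linarith
    have hL0 : 0 < L := by linarith
    set ga := (S a).indicator g with hga
    have hgam : Measurable ga := hgm.indicator (hSm a)
    set φ : ℂ → ℂ := fun z => χ z * g z with hφ
    have hev : ∀ z, δ z < a ^ 2 / 2 → χ =ᶠ[𝓝 z] fun _ => 0 := fun z hz => by
      filter_upwards [(isOpen_lt hδc continuous_const).mem_nhds hz] with x hx using hχ0 x hx.le
    have hφev : ∀ z, δ z < a ^ 2 / 2 → φ =ᶠ[𝓝 z] fun _ => 0 := fun z hz => by
      filter_upwards [hev z hz] with x hx
      simp [hφ, hx]
    have hφd : ContDiff ℝ 1 φ := by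
      rw [contDiff_iff_contDiffAt]
      intro z
      by_cases hz : z ∈ Ω
      · exact (ofRealCLM.contDiff.comp hχ).contDiffAt.mul
          ((hgd.analyticOnNhd hΩ z hz).contDiffAt.restrict_scalars ℝ)
      · exact contDiffAt_const.congr_of_eventuallyEq (hφev z (by rw [hδz z hz]; positivity))
    have hφc : HasCompactSupport φ := by
      refine HasCompactSupport.intro (isCompact_closedBall 0 R) fun z hz => ?_
      simp [hφ, hg0 z fun h => hz (ball_subset_closedBall (hR h))]
    have hB : ∀ z, ‖(fderiv ℝ φ z 1 + I * fderiv ℝ φ z I) * cauchy k z‖ₑ ≤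
        ENNReal.ofReal (4 * C / L) * (‖ga z‖ₑ * (∫⁻ w, ‖k w‖ₑ * logK (a ^ 2) R (w - z)) +
          ‖ga z‖ₑ * (∫⁻ w, ‖k w‖ₑ ^ q0 * logK (a ^ 2) R (w - z)) ^ (1 / q0)) := by
      intro z
      rcases lt_or_ge (δ z) (a ^ 2 / 2) with h1 | h1
      · rw [(hφev z h1).fderiv_eq]
        simp
      have hz : z ∈ Ω := by
        by_contra h
        rw [hδz z h] at h1
        linarith [pow_pos ha 2]
      have hfd : fderiv ℝ φ z 1 + I * fderiv ℝ φ z I =
          g z * (fderiv ℝ χ z 1 + I * fderiv ℝ χ z I) := by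
        have a1 : HasFDerivAt (fun z => (χ z : ℂ)) (ofRealCLM.comp (fderiv ℝ χ z)) z :=
          ofRealCLM.hasFDerivAt.comp z (hχ.differentiable one_ne_zero z).hasFDerivAt
        have a2 := ((hgd.differentiableAt (hΩ.mem_nhds hz)).hasDerivAt.hasFDerivAt.restrictScalars
          ℝ)
        have a3 : HasFDerivAt φ _ z := a1.mul a2
        rw [a3.fderiv]
        simp
        linear_combination (χ z * deriv g z) * I_mul_I
      rcases lt_or_ge (2 * a) (δ z) with h2 | h2
      · have : χ =ᶠ[𝓝 z] fun _ => 1 := by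
          filter_upwards [(isOpen_lt continuous_const hδc).mem_nhds h2] with x hx using hχe x hx.le
        rw [hfd, this.fderiv_eq]
        simp
      obtain ⟨V, hV, hVΩ, hV0, he0, he1⟩ := hthick z hz (lt_of_le_of_lt h2 had)
      have hd := hδ0 z hz
      have h3 := hb z hz (a ^ 2) (δ z) (by positivity) hd (by linarith) V hV hVΩ hV0 he0 he1
      have h4 : ‖(fderiv ℝ χ z 1 : ℂ) + I * fderiv ℝ χ z I‖ ≤ 4 / (L * δ z) := by
        refine (norm_add_le _ _).trans ?_
        have b1 := (fderiv ℝ χ z).le_opNorm 1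
        have b2 := (fderiv ℝ χ z).le_opNorm I
        have b3 : ‖fderiv ℝ χ z‖ ≤ 2 / (L * δ z) := hχd z hd
        rw [norm_mul, Complex.norm_real, Complex.norm_real, norm_I, one_mul]
        rw [norm_one, mul_one] at b1
        rw [norm_I, mul_one] at b2
        have : 4 / (L * δ z) = 2 / (L * δ z) + 2 / (L * δ z) := by ring
        linarith
      rw [hfd, hga, indicator_of_mem (show z ∈ S a from ⟨hz, h2⟩), enorm_mul, enorm_mul, ← mul_add,
        mul_left_comm, mul_assoc]
      refine mul_le_mul' le_rfl ?_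
      rw [← ofReal_norm]
      refine (mul_le_mul' (ENNReal.ofReal_le_ofReal h4) h3).trans (le_of_eq ?_)
      rw [← mul_assoc, ← ENNReal.ofReal_mul (by positivity)]
      congr 2
      field_simp
    have hK : ∫⁻ y, logK (a ^ 2) R y ≤ ENNReal.ofReal (c * L) := by
      rw [lintegral_logK (by positivity) hR0]
      refine ENNReal.ofReal_le_ofReal ?_
      rw [hc, mul_assoc (2 * π)]
      gcongr
      have ha2 : a ^ 2 ≤ 1 := by nlinarith
      calc Real.log (1 + 2 * R / a ^ 2) ≤ Real.log ((1 + 2 * R) / a ^ 2) := by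
            gcongr
            rw [add_div]
            gcongr
            rwa [one_le_div (by positivity)]
        _ = Real.log (1 + 2 * R) + 2 * L := by
            rw [Real.log_div (by positivity) (by positivity), Real.log_pow, hL]
            push_cast
            ring
        _ ≤ _ := by
            rw [add_mul]
            gcongr
            rw [div_mul_eq_mul_div, le_div_iff₀ hl2]
            gcongr
    have hK' : (∫⁻ y, logK (a ^ 2) R y) ^ (1 / q0) ≤ ENNReal.ofReal ((c + 1 / Real.log 2) * L) := by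
      refine (ENNReal.rpow_le_rpow hK hpq0.one_div_nonneg).trans ?_
      rw [ENNReal.ofReal_rpow_of_nonneg (by positivity) hpq0.one_div_nonneg]
      refine ENNReal.ofReal_le_ofReal ?_
      have e1 : 1 ≤ 1 / Real.log 2 * L := by
        rw [one_div, inv_mul_eq_div, one_le_div hl2]
        exact hL2
      rw [add_mul]
      rcases le_or_gt (c * L) 1 with h | h
      · have := rpow_le_one (by positivity) h hpq0.one_div_nonneg
        have : 0 ≤ c * L := by positivity
        linarith
      · have : (c * L) ^ (1 / q0) ≤ (c * L) ^ (1 : ℝ) :=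
          rpow_le_rpow_of_exponent_le h.le (by rw [div_le_one hpq0.pos]; exact hpq0.lt.le)
        rw [rpow_one] at this
        linarith
    have h1 : ‖∫ w, φ w * k w‖ₑ ≤ eLpNorm ga p volume *
        (N * ENNReal.ofReal (4 * C * (2 * c + 1 / Real.log 2))) := by
      have h2 : ‖∫ w, φ w * k w‖ₑ ≤ ‖(2 * π : ℂ) * ∫ w, φ w * k w‖ₑ := by
        rw [enorm_mul]
        refine le_mul_of_one_le_left' ?_
        rw [← ofReal_norm, ENNReal.one_le_ofReal]
        simp only [Complex.norm_mul, Complex.norm_ofNat, Complex.norm_real, Real.norm_eq_abs,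
          abs_of_pos pi_pos]
        linarith [two_le_pi]
      rw [pairing_eq hm hk hφd hφc] at h2
      refine h2.trans ((enorm_integral_le_lintegral_enorm _).trans ((lintegral_mono hB).trans ?_))
      have hmK := measurable_logK (a ^ 2) R
      have hme : Measurable fun z => ‖ga z‖ₑ * ∫⁻ w, ‖k w‖ₑ * logK (a ^ 2) R (w - z) :=
        hgam.enorm.mul (Measurable.lintegral_prod_right
          (f := fun z w => ‖k w‖ₑ * logK (a ^ 2) R (w - z)) (by
            unfold Function.uncurry
            fun_prop))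
      rw [lintegral_const_mul' _ _ ENNReal.ofReal_ne_top, lintegral_add_left hme]
      calc _ ≤ ENNReal.ofReal (4 * C / L) *
            (eLpNorm ga p volume * (N * ENNReal.ofReal (c * L)) +
              eLpNorm ga p volume * (N * ENNReal.ofReal ((c + 1 / Real.log 2) * L))) := by
            gcongr
            · refine (young_bilin (p := p) (q := q) hgam hm hmK).trans ?_
              gcongr
            · refine (hY ga hgam _ hmK).trans ?_
              gcongr
        _ = _ := by
            rw [← mul_add, ← mul_add, ← ENNReal.ofReal_add (by positivity) (by positivity),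
              mul_left_comm, mul_left_comm _ N, ← ENNReal.ofReal_mul (by positivity)]
            congr 3
            field_simp
            ring
    have hφk : Integrable fun w => φ w * k w := by
      refine Integrable.mono hgk (hφd.continuous.measurable.mul hm).aestronglyMeasurable
        (.of_forall fun w => ?_)
      simp only [hφ, norm_mul, Complex.norm_real, Real.norm_eq_abs, mul_assoc]
      exact mul_le_of_le_one_left (by positivity) (hχ1 w)
    have h3 : ‖∫ w, (g w * k w - φ w * k w)‖ₑ ≤ eLpNorm ga p volume * (N * ENNReal.ofReal 2) := by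
      refine (enorm_integral_le_lintegral_enorm _).trans ?_
      calc _ ≤ ∫⁻ w, ‖ga w‖ₑ * ‖k w‖ₑ * ENNReal.ofReal 2 := by
            refine lintegral_mono fun w => ?_
            by_cases hw : w ∈ S a
            · rw [hga, indicator_of_mem hw,
                show g w * k w - φ w * k w = g w * k w * ((1 - χ w : ℝ) : ℂ) by
                  simp only [hφ]; push_cast; ring, enorm_mul, enorm_mul]
              gcongr
              rw [← ofReal_norm, Complex.norm_real, Real.norm_eq_abs]
              refine ENNReal.ofReal_le_ofReal ?_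
              have := abs_le.1 (hχ1 w)
              rw [abs_le]
              constructor <;> linarith
            · by_cases hwΩ : w ∈ Ω
              · have : χ w = 1 := hχe w (le_of_lt (not_le.1 fun h => hw ⟨hwΩ, h⟩))
                simp [hφ, this]
              · simp [h0 w hwΩ]
        _ ≤ _ := by
            rw [lintegral_mul_const' _ _ ENNReal.ofReal_ne_top, ← mul_assoc]
            gcongr
            exact holder_enorm hgam.aestronglyMeasurable hm.aestronglyMeasurable
    rw [integral_sub hgk hφk] at h3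
    rw [← sub_add_cancel (∫ w, g w * k w) (∫ w, φ w * k w),
      ENNReal.ofReal_add (by norm_num) (by positivity), mul_add, mul_add]
    exact (enorm_add_le _ _).trans (add_le_add h3 h1)
  set T := N * ENNReal.ofReal (2 + 4 * C * (2 * c + 1 / Real.log 2)) with hT
  have hTf : T ≠ ∞ := ENNReal.mul_ne_top hkq.2.ne ENNReal.ofReal_ne_top
  have hanti : Tendsto (fun n : ℕ => volume (S (1 / ((n : ℝ) + 1)))) atTop (𝓝 0) := by
    have := tendsto_measure_iInter_atTop (μ := volume) (s := fun n : ℕ => S (1 / ((n : ℝ) + 1)))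
      (fun n => (hSm _).nullMeasurableSet) (fun m n hmn z hz => ⟨hz.1, by
        have h1 : δ z ≤ 2 * (1 / ((n : ℝ) + 1)) := hz.2
        have h2 : (m : ℝ) ≤ n := by exact_mod_cast hmn
        show δ z ≤ 2 * (1 / ((m : ℝ) + 1))
        refine h1.trans ?_
        gcongr⟩)
      ⟨0, ne_top_of_le_ne_top hvol (measure_mono inter_subset_left)⟩
    have he : ⋂ n : ℕ, S (1 / ((n : ℝ) + 1)) = ∅ := by
      rw [eq_empty_iff_forall_notMem]
      intro z hz
      rw [mem_iInter] at hz
      obtain ⟨n, hn⟩ := exists_nat_one_div_lt (half_pos (hδ0 z (hz 0).1))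
      have : δ z ≤ 2 * (1 / ((n : ℝ) + 1)) := (hz n).2
      linarith
    rwa [he, measure_empty] at this
  have hfin : ∀ ε : ℝ, 0 < ε → ‖∫ w, g w * k w‖ₑ ≤ ENNReal.ofReal ε * T := by
    intro ε hε
    obtain ⟨η, hη, hsm⟩ := hgp.eLpNorm_indicator_le (ENNReal.HolderConjugate.one_le p q) hp hε
    obtain ⟨n, h1, h2, h3⟩ := ((hanti.eventually (ge_mem_nhds (ENNReal.ofReal_pos.2 hη))).and
      (((tendsto_one_div_add_atTop_nhds_zero_nat (𝕜 := ℝ)).eventually
        (ge_mem_nhds (show (0 : ℝ) < 1 / 2 by norm_num))).and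
      ((tendsto_one_div_add_atTop_nhds_zero_nat (𝕜 := ℝ)).eventually
        (gt_mem_nhds (half_pos hd0))))).exists
    refine (main _ (by positivity) h2 (by linarith)).trans ?_
    gcongr
    exact hsm _ (hSm _) h1
  have hlim : Tendsto (fun ε : ℝ => ENNReal.ofReal ε * T) (𝓝[>] 0) (𝓝 0) := by
    have := ENNReal.Tendsto.mul_const (f := 𝓝[>] (0 : ℝ)) (b := T)
      ((ENNReal.continuous_ofReal.tendsto 0).mono_left nhdsWithin_le_nhds) (Or.inr hTf)
    simpa using this
  have := ge_of_tendsto hlim (by
    filter_upwards [self_mem_nhdsWithin] with ε hε using hfin ε hε)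
  simpa using this

end Pool.Agent.P.MP_56bcbf_an
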