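import Mathlib

/-! The boundary of a Jordan domain is approached from the unbounded complementary component. -/

namespace Pool.Agent.P.MP_56bcbf_an

open Set Metric Filter Topology Complex Real

theorem no_log {E : Set ℂ} {a : ℂ} (ha : a ∉ closure E) {R : ℝ} (hR : 0 < R)
    (hs : sphere a R ⊆ E) {H : ℂ → ℂ} (hH : Continuous H)
    (hf : ∀ z ∈ frontier E, cexp (H z) = z - a) : False := by
  classical
  set Φ : ℂ → ℂ := E.piecewise (fun z => z - a) fun z => cexp (H z) with hΦ
  have hΦc : Continuous Φ :=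
    Continuous.piecewise (fun z hz => (hf z hz).symm) (by fun_prop) (by fun_prop)
  have hΦ0 : (0 : ℂ) ∉ Φ '' univ := by
    rintro ⟨z, -, hz⟩
    by_cases h : z ∈ E
    · rw [hΦ, piecewise_eq_of_mem _ _ _ h, sub_eq_zero] at hz
      exact ha (subset_closure (hz ▸ h))
    · rw [hΦ, piecewise_eq_of_notMem _ _ _ h] at hz
      exact exp_ne_zero _ hz
  have hsc : IsSimplyConnected (univ : Set ℂ) := by
    have := (convex_univ (𝕜 := ℝ) (E := ℂ)).contractibleSpace univ_nonempty
    exact (inferInstance : SimplyConnectedSpace (univ : Set ℂ))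
  obtain ⟨L, hL, hLe⟩ := exists_continuousOn_eqOn_exp_comp hsc isOpen_univ hΦc.continuousOn hΦ0
  rw [continuousOn_univ] at hL
  have key := isCoveringMap_exp.const_of_comp (g := fun t : ℝ => L (circleMap a R t) - t * I)
    (by fun_prop) (fun s t => by
      have h : ∀ t : ℝ, cexp (L (circleMap a R t) - t * I) = R := fun t => by
        have h1 : cexp (L (circleMap a R t)) = _ := hLe (mem_univ (circleMap a R t))
        rw [hΦ, piecewise_eq_of_mem _ _ _ (hs (circleMap_mem_sphere a hR.le t))] at h1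
        rw [Complex.exp_sub, h1, circleMap]
        field_simp
        ring
      simp only [h]) 0 (2 * π)
  have h2 : circleMap a R (2 * π) = circleMap a R 0 := by
    simpa using periodic_circleMap a R 0
  simp only [h2, ofReal_zero, zero_mul, sub_zero] at key
  have := congrArg Complex.im (sub_eq_self.1 key.symm)
  simp [pi_ne_zero] at this

theorem exists_outer {D : Set ℂ} (hD : IsOpen D) (hne : D.Nonempty)
    (hb : Bornology.IsBounded D) {γ : Circle → ℂ} (hγ : Continuous γ) (hi : Function.Injective γ)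
    (hf : frontier D = range γ) :
    ∃ E : Set ℂ, IsPreconnected E ∧ E ⊆ (closure D)ᶜ ∧ (∀ r : ℝ, ∃ e ∈ E, r ≤ ‖e‖) ∧
      frontier D ⊆ closure E := by
  obtain ⟨a, ha⟩ := hne
  obtain ⟨R, hR0, hR⟩ := hb.closure.subset_ball_lt 0 a
  have hJ : IsClosed (frontier D) := isClosed_frontier
  set E := connectedComponentIn (frontier D)ᶜ (a + R) with hE
  have hout : ∀ z, R ≤ ‖z - a‖ → z ∉ closure D := fun z hz h => by
    have := hR h
    rw [mem_ball, dist_eq_norm] at this
    linarith
  have hout' : ∀ z, R ≤ ‖z - a‖ → z ∈ (frontier D)ᶜ := fun z hz h =>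
    hout z hz (frontier_subset_closure h)
  have hb0 : R ≤ ‖a + R - a‖ := by simp [abs_of_pos hR0]
  have hEo : IsOpen E := hJ.isOpen_compl.connectedComponentIn
  have hEc : IsPreconnected E := isPreconnected_connectedComponentIn
  have hEJ : E ⊆ (frontier D)ᶜ := connectedComponentIn_subset _ _
  have hED : E ⊆ (closure D)ᶜ := by
    refine hEc.subset_right_of_subset_union hD isClosed_closure.isOpen_compl
      (disjoint_compl_right_iff_subset.2 subset_closure) (fun z hz => ?_)
      ⟨_, mem_connectedComponentIn (hout' _ hb0), hout _ hb0⟩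
    by_cases h : z ∈ closure D
    · left
      by_contra h'
      exact hEJ hz (by rw [hD.frontier_eq]; exact ⟨h, h'⟩)
    · exact Or.inr h
  refine ⟨E, hEc, hED, fun r => ?_, fun x hx => ?_⟩
  · have hray : (fun t : ℝ => a + t) '' Ici R ⊆ E := by
      refine (isPreconnected_Ici.image _ (by fun_prop)).subset_connectedComponentIn
        ⟨R, self_mem_Ici, rfl⟩ ?_
      rintro _ ⟨t, ht, rfl⟩
      refine hout' _ ?_
      simpa using le_trans ht (le_abs_self t)
    refine ⟨_, hray ⟨max R (r + ‖a‖), mem_Ici.2 (le_max_left _ _), rfl⟩, ?_⟩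
    have h1 := norm_sub_le (a + (max R (r + ‖a‖) : ℝ)) a
    rw [add_sub_cancel_left, Complex.norm_real, Real.norm_eq_abs] at h1
    have := le_abs_self (max R (r + ‖a‖))
    have := le_max_right R (r + ‖a‖)
    linarith
  by_contra hxE
  rw [hf] at hx
  obtain ⟨s, rfl⟩ := hx
  have haE : a ∉ closure E := fun h => by
    obtain ⟨z, hz, hz'⟩ := mem_closure_iff.1 h D hD ha
    exact hED hz' (subset_closure hz)
  have hsph : sphere a R ⊆ E := by
    refine (isPreconnected_sphere (by simp) a R).subset_connectedComponentIn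
      (by simp [abs_of_pos hR0]) fun z hz => hout' z ?_
    rw [mem_sphere, dist_eq_norm] at hz
    exact hz.ge
  have hfE : frontier E ⊆ range γ := by
    intro z hz
    rw [← hf]
    by_contra h
    rw [hEo.frontier_eq] at hz
    have h1 : IsOpen (connectedComponentIn (frontier D)ᶜ z) := hJ.isOpen_compl.connectedComponentIn
    obtain ⟨w, hw, hw'⟩ := mem_closure_iff.1 hz.1 _ h1 (mem_connectedComponentIn h)
    apply hz.2
    rw [hE, connectedComponentIn_eq hw', ← connectedComponentIn_eq hw]
    exact mem_connectedComponentIn h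
  set c : ℝ → ℂ := fun t => γ (s * Circle.exp t) with hc
  have hcc : Continuous c := by fun_prop
  have hsc : IsSimplyConnected (univ : Set ℝ) := by
    have := (convex_univ (𝕜 := ℝ) (E := ℝ)).contractibleSpace univ_nonempty
    exact (inferInstance : SimplyConnectedSpace (univ : Set ℝ))
  obtain ⟨l, hl, hle⟩ := exists_continuousOn_eqOn_exp_comp hsc isOpen_univ
    (g := fun t => c t - a) (by fun_prop) (by
      rintro ⟨t, -, ht⟩
      have h1 : c t ∈ frontier D := by rw [hf]; exact mem_range_self _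
      rw [sub_eq_zero] at ht
      rw [ht, hD.frontier_eq] at h1
      exact h1.2 ha)
  rw [continuousOn_univ] at hl
  set T : Set ℝ := Icc 0 (2 * π) ∩ c ⁻¹' closure E with hT
  have hTc : IsCompact T := isCompact_Icc.inter_right (isClosed_closure.preimage hcc)
  have hTI : T ⊆ Ico 0 (2 * π) := fun t ht => ⟨ht.1.1, lt_of_le_of_ne ht.1.2 fun h => hxE (by
    have h1 : c t ∈ closure E := ht.2
    simpa [hc, h] using h1)⟩
  have := isCompact_iff_compactSpace.1 hTc
  have he : IsClosedEmbedding fun t : T => c t := by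
    refine (hcc.comp continuous_subtype_val).isClosedEmbedding fun t u h => Subtype.ext ?_
    exact Circle.exp_injOn_Ico (by simp) (hTI t.2) (hTI u.2) (mul_left_cancel (hi h))
  obtain ⟨H, hH⟩ := ContinuousMap.exists_extension' he ⟨fun t : T => l t, by fun_prop⟩
  refine no_log haE hR0 hsph H.continuous fun z hz => ?_
  obtain ⟨u, rfl⟩ := hfE hz
  obtain ⟨t, ht, htu⟩ : ∃ t ∈ Icc 0 (2 * π), Circle.exp t = s⁻¹ * u := by
    obtain ⟨t, ht⟩ := Circle.exp_surjective (s⁻¹ * u)
    refine ⟨toIcoMod two_pi_pos 0 t, Ico_subset_Icc_self ?_, ?_⟩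
    · simpa using toIcoMod_mem_Ico two_pi_pos 0 t
    · rw [← ht, toIcoMod, Circle.periodic_exp.sub_zsmul_eq]
  have h1 : c t = γ u := by simp [hc, htu]
  have h2 : H (c t) = l t := congrFun hH ⟨t, ht, by
    show c t ∈ closure E
    rw [h1]
    exact frontier_subset_closure hz⟩
  rw [← h1, h2]
  exact hle (mem_univ t)

theorem exists_near {D E : Set ℂ} (hD : IsOpen D) (hne : Dᶜ.Nonempty) {z : ℂ} (hz : z ∈ D) :
    ∃ x ∈ frontier D, ‖x - z‖ = infDist z Dᶜ ∧
      (x ∈ closure E → ∃ e ∈ E, ‖e - z‖ ≤ 2 * infDist z Dᶜ) := by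
  obtain ⟨x, hx, hxd⟩ := hD.isClosed_compl.exists_infDist_eq_dist hne z
  have hd : 0 < infDist z Dᶜ := (hD.isClosed_compl.notMem_iff_infDist_pos hne).1 (fun h => h hz)
  have h1 : ‖x - z‖ = infDist z Dᶜ := by rw [hxd, dist_comm, dist_eq_norm]
  refine ⟨x, ?_, h1, fun h => ?_⟩
  · rw [hD.frontier_eq]
    refine ⟨closure_mono (ball_infDist_compl_subset (x := z) (s := D)) ?_, hx⟩
    rw [closure_ball _ hd.ne', mem_closedBall, dist_eq_norm, h1]
  · obtain ⟨e, he, hed⟩ := Metric.mem_closure_iff.1 h _ hd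
    refine ⟨e, he, ?_⟩
    rw [dist_comm, dist_eq_norm] at hed
    have := norm_sub_le_norm_sub_add_norm_sub e x z
    linarith

end Pool.Agent.P.MP_56bcbf_an
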