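import Pool.Agent.P.MP_56bcbf_an.Kernel

/-! Choosing a good point of a connected set at a prescribed scale. -/

namespace Pool.Agent.P.MP_56bcbf_an

open Set Metric Filter Topology Complex MeasureTheory Real
open scoped ENNReal

theorem lintegral_abs_rpow {β ρ : ℝ} (hβ : β < 1) (hρ : 0 < ρ) (t : ℝ) :
    ∫⁻ s in Icc (t - ρ) (t + ρ), ENNReal.ofReal (|t - s| ^ (-β)) =
      ENNReal.ofReal (2 * (ρ ^ (1 - β) / (1 - β))) := by
  have h0 : ∫⁻ u in Ioo 0 ρ, ENNReal.ofReal (u ^ (-β)) =
      ENNReal.ofReal (ρ ^ (1 - β) / (1 - β)) := by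
    rw [← ofReal_integral_eq_lintegral_ofReal, ← integral_Ioc_eq_integral_Ioo,
      ← intervalIntegral.integral_of_le hρ.le, integral_rpow (Or.inl (by linarith))]
    · rw [zero_rpow (by linarith), show -β + 1 = 1 - β by ring, sub_zero]
    · exact (intervalIntegral.integrableOn_Ioo_rpow_iff hρ).2 (by linarith)
    · filter_upwards [ae_restrict_mem measurableSet_Ioo] with t ht using rpow_nonneg ht.1.le _
  have h1 : ∫⁻ s in Ioo t (t + ρ), ENNReal.ofReal (|t - s| ^ (-β)) =
      ∫⁻ u in Ioo 0 ρ, ENNReal.ofReal (u ^ (-β)) := by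
    rw [← lintegral_indicator measurableSet_Ioo, ← lintegral_indicator measurableSet_Ioo,
      ← lintegral_add_left_eq_self _ t]
    congr 1
    funext u
    by_cases hu : u ∈ Ioo 0 ρ
    · rw [indicator_of_mem hu, indicator_of_mem (by simpa using hu), sub_add_cancel_left, abs_neg,
        abs_of_pos hu.1]
    · rw [indicator_of_notMem hu, indicator_of_notMem (by simpa using hu)]
  have h2 : ∫⁻ s in Ioo (t - ρ) t, ENNReal.ofReal (|t - s| ^ (-β)) =
      ∫⁻ u in Ioo 0 ρ, ENNReal.ofReal (u ^ (-β)) := by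
    rw [← lintegral_indicator measurableSet_Ioo, ← lintegral_indicator measurableSet_Ioo,
      ← lintegral_sub_left_eq_self _ t]
    congr 1
    funext u
    by_cases hu : u ∈ Ioo 0 ρ
    · rw [indicator_of_mem hu, indicator_of_mem (show t - u ∈ Ioo (t - ρ) t from
        ⟨by linarith [hu.2], by linarith [hu.1]⟩), sub_sub_cancel, abs_of_pos hu.1]
    · rw [indicator_of_notMem hu, indicator_of_notMem]
      exact fun h => hu ⟨by linarith [h.2], by linarith [h.1]⟩
  rw [← Ico_union_Icc_eq_Icc (b := t) (by linarith) (by linarith),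
    lintegral_union measurableSet_Icc (by
      rw [Set.disjoint_left]
      exact fun x h1 h2 => absurd h1.2 (not_lt.2 h2.1)),
    ← setLIntegral_congr Ioo_ae_eq_Ico, ← setLIntegral_congr Ioo_ae_eq_Icc, h1, h2, h0,
    ← ENNReal.ofReal_add (by have : 0 < 1 - β := by linarith
                             positivity) (by have : 0 < 1 - β := by linarith
                                             positivity), two_mul]

theorem lintegral_shell {β d : ℝ} (hβ0 : 0 < β) (hβ : β < 1) (hd : 0 < d) {t : ℝ} (ht : 0 ≤ t) :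
    ∫⁻ s in Icc (2 * d) (3 * d), ENNReal.ofReal |t - s| ^ (-β) ≤
      ENNReal.ofReal (12 / (1 - β) * (max t (6 * d)) ^ (-β)) * ENNReal.ofReal d := by
  have h1β : 0 < 1 - β := by linarith
  have hae : ∫⁻ s in Icc (2 * d) (3 * d), ENNReal.ofReal |t - s| ^ (-β) =
      ∫⁻ s in Icc (2 * d) (3 * d), ENNReal.ofReal (|t - s| ^ (-β)) := by
    refine lintegral_congr_ae (ae_restrict_of_ae ?_)
    filter_upwards [compl_mem_ae_iff.2 (measure_singleton t)] with s hs
    exact ENNReal.ofReal_rpow_of_pos (abs_pos.2 (sub_ne_zero.2 (Ne.symm hs)))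
  rw [hae, ← ENNReal.ofReal_mul (by positivity)]
  rcases le_or_gt (6 * d) t with h | h
  · rw [max_eq_left h]
    have ht0 : 0 < t := by linarith
    calc _ ≤ ∫⁻ _ in Icc (2 * d) (3 * d), ENNReal.ofReal (12 / (1 - β) * t ^ (-β)) := by
          refine setLIntegral_mono' measurableSet_Icc fun s hs => ENNReal.ofReal_le_ofReal ?_
          have h2 : t / 2 ≤ |t - s| := le_trans (by linarith [hs.2]) (le_abs_self _)
          have h3 : (2 : ℝ) ^ β ≤ 2 := by
            conv_rhs => rw [← rpow_one 2]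
            exact rpow_le_rpow_of_exponent_le (by norm_num) hβ.le
          have h4 : 2 ≤ 12 / (1 - β) := by
            rw [le_div_iff₀ h1β]
            linarith
          calc |t - s| ^ (-β) ≤ (t / 2) ^ (-β) :=
                rpow_le_rpow_of_nonpos (by positivity) h2 (by linarith)
            _ = 2 ^ β * t ^ (-β) := by
                rw [div_rpow ht (by norm_num), rpow_neg (x := 2) (by norm_num)]
                field_simp
            _ ≤ _ := by
                gcongr
                linarith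
      _ = _ := by
          rw [setLIntegral_const, Real.volume_Icc, ← ENNReal.ofReal_mul (by positivity)]
          congr 2
          ring
  · rw [max_eq_right h.le]
    calc _ ≤ ∫⁻ s in Icc (t - 6 * d) (t + 6 * d), ENNReal.ofReal (|t - s| ^ (-β)) :=
          lintegral_mono_set (Icc_subset_Icc (by linarith) (by linarith))
      _ = _ := by
          rw [lintegral_abs_rpow hβ (by positivity), sub_eq_add_neg 1 β,
            rpow_add (by positivity), rpow_one]
          congr 1
          field_simp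
          ring

theorem exists_good_point {V : Set ℂ} (hV : IsPreconnected V) {z e0 e1 : ℂ} {d β : ℝ}
    (hβ0 : 0 < β) (hβ : β < 1) (hd : 0 < d) (h0 : e0 ∈ V) (h1 : e1 ∈ V) (h0d : ‖e0 - z‖ ≤ 2 * d)
    (h1d : 3 * d ≤ ‖e1 - z‖) (ν : Measure ℂ) [SFinite ν] {m : ℂ → ℝ≥0∞} (hm : Measurable m) :
    ∃ e ∈ V, 2 * d ≤ ‖e - z‖ ∧ ‖e - z‖ ≤ 3 * d ∧
      ∫⁻ w, m w * ENNReal.ofReal (‖w - e‖ ^ (-β)) ∂ν ≤
        ENNReal.ofReal (12 / (1 - β)) *
          ∫⁻ w, m w * ENNReal.ofReal ((max ‖w - z‖ (6 * d)) ^ (-β)) ∂ν := by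
  have h1β : 0 < 1 - β := by linarith
  have hmeas : Measurable fun p : ℝ × ℂ => m p.2 * ENNReal.ofReal |‖p.2 - z‖ - p.1| ^ (-β) := by
    fun_prop
  have hvol : volume (Icc (2 * d) (3 * d)) = ENNReal.ofReal d := by
    rw [Real.volume_Icc]
    congr 1
    ring
  obtain ⟨s, hs, hle⟩ := exists_le_setLAverage (μ := volume) (s := Icc (2 * d) (3 * d))
    (f := fun s => ∫⁻ w, m w * ENNReal.ofReal |‖w - z‖ - s| ^ (-β) ∂ν)
    (by rw [hvol]; simpa using hd) (by rw [hvol]; exact ENNReal.ofReal_ne_top)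
    (hmeas.lintegral_prod_right').aemeasurable
  obtain ⟨e, he, hes⟩ := hV.intermediate_value h0 h1 (f := fun x => ‖x - z‖) (by fun_prop)
    (show s ∈ Icc ‖e0 - z‖ ‖e1 - z‖ from ⟨h0d.trans hs.1, hs.2.trans h1d⟩)
  simp only at hes
  refine ⟨e, he, hes ▸ hs.1, hes ▸ hs.2, le_trans (lintegral_mono fun w => ?_) (hle.trans ?_)⟩
  · gcongr
    rcases eq_or_lt_of_le (abs_nonneg (‖w - z‖ - s)) with h | h
    · rw [← h, ENNReal.ofReal_zero, ENNReal.zero_rpow_of_neg (by linarith)]
      exact le_top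
    · rw [ENNReal.ofReal_rpow_of_pos h]
      refine ENNReal.ofReal_le_ofReal (rpow_le_rpow_of_nonpos h ?_ (by linarith))
      rw [← hes]
      have := abs_norm_sub_norm_le (w - z) (e - z)
      rwa [sub_sub_sub_cancel_right] at this
  · rw [setLAverage_eq, hvol, lintegral_lintegral_swap hmeas.aemeasurable]
    refine ENNReal.div_le_of_le_mul ?_
    rw [← lintegral_const_mul' _ _ ENNReal.ofReal_ne_top,
      ← lintegral_mul_const' _ _ ENNReal.ofReal_ne_top]
    refine lintegral_mono fun w => ?_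
    rw [lintegral_const_mul _ (by fun_prop)]
    refine (mul_le_mul_right (lintegral_shell hβ0 hβ hd (norm_nonneg _)) _).trans (le_of_eq ?_)
    rw [ENNReal.ofReal_mul (by positivity)]
    ring

theorem holder_kernel {p q : ℝ} (hpq : q.HolderConjugate p) (ν : Measure ℂ) [NullSingletonClass ν]
    {κ : ℂ → ℝ≥0∞} (hκ : Measurable κ) (x : ℂ) (a β : ℝ) :
    ∫⁻ w, κ w * ENNReal.ofReal (‖w - x‖ ^ (-a)) ∂ν ≤
      (∫⁻ w, κ w ^ q * ENNReal.ofReal (‖w - x‖ ^ (-β)) ∂ν) ^ (1 / q) *
        (∫⁻ w, ENNReal.ofReal (‖w - x‖ ^ (-((a - β / q) * p))) ∂ν) ^ (1 / p) := by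
  have hq := hpq.pos
  have := ENNReal.lintegral_mul_le_Lp_mul_Lq ν hpq
    (f := fun w => κ w * ENNReal.ofReal (‖w - x‖ ^ (-(β / q))))
    (g := fun w => ENNReal.ofReal (‖w - x‖ ^ (-(a - β / q)))) (by fun_prop) (by fun_prop)
  convert this using 1
  · refine lintegral_congr_ae ?_
    filter_upwards [compl_mem_ae_iff.2 (measure_singleton x)] with w hw
    have h0 : 0 < ‖w - x‖ := norm_pos_iff.2 (sub_ne_zero.2 hw)
    rw [Pi.mul_apply, mul_assoc, ← ENNReal.ofReal_mul (by positivity), ← rpow_add h0]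
    congr 3
    ring
  · congr 3
    · funext w
      rw [ENNReal.mul_rpow_of_nonneg _ _ hq.le,
        ENNReal.ofReal_rpow_of_nonneg (by positivity) hq.le, ← rpow_mul (norm_nonneg _)]
      congr 3
      field_simp
    · funext w
      rw [ENNReal.ofReal_rpow_of_nonneg (by positivity) hpq.symm.pos.le,
        ← rpow_mul (norm_nonneg _)]
      congr 2
      ring

end Pool.Agent.P.MP_56bcbf_an
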