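import Mathlib

/-! Polar coordinates and integrals of radial kernels. -/

namespace Pool.Agent.P.MP_56bcbf_an

open Set Metric Filter Topology Complex MeasureTheory Real
open scoped ENNReal

theorem polar_symm_eq (p : ℝ × ℝ) : Complex.polarCoord.symm p = circleMap 0 p.1 p.2 := by
  simp [circleMap, exp_mul_I]

theorem measurable_circleMap' : Measurable fun p : ℝ × ℝ => circleMap 0 p.1 p.2 := by
  unfold circleMap
  fun_prop

theorem lintegral_polar {F : ℂ → ℝ≥0∞} (hF : Measurable F) :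
    ∫⁻ z, F z = ∫⁻ θ in Ioo (-π) π, ∫⁻ t in Ioi 0, ENNReal.ofReal t * F (circleMap 0 t θ) := by
  rw [← Complex.lintegral_comp_polarCoord_symm, polarCoord_target, Measure.volume_eq_prod,
    ← Measure.prod_restrict, lintegral_prod_symm]
  · simp only [polar_symm_eq, smul_eq_mul]
  · simp only [polar_symm_eq, smul_eq_mul]
    exact (measurable_fst.ennreal_ofReal.mul (hF.comp measurable_circleMap')).aemeasurable

theorem lintegral_radial {f : ℝ → ℝ≥0∞} (hf : Measurable f) (w : ℂ) (ρ : ℝ) :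
    ∫⁻ x in ball w ρ, f ‖x - w‖ =
      ENNReal.ofReal (2 * π) * ∫⁻ t in Ioo 0 ρ, ENNReal.ofReal t * f t := by
  have h1 : ∫⁻ x in ball w ρ, f ‖x - w‖ = ∫⁻ x : ℂ, (Iio ρ).indicator f ‖x - w‖ := by
    rw [← lintegral_indicator measurableSet_ball]
    congr 1
    funext x
    simp [indicator, dist_eq_norm]
  have hm : Measurable fun x : ℂ => (Iio ρ).indicator f ‖x‖ :=
    (hf.indicator measurableSet_Iio).comp measurable_norm
  rw [h1, lintegral_sub_right_eq_self (fun x : ℂ => (Iio ρ).indicator f ‖x‖) w, lintegral_polar hm]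
  have h2 : ∀ θ : ℝ, ∫⁻ t in Ioi (0 : ℝ), ENNReal.ofReal t * (Iio ρ).indicator f ‖circleMap 0 t θ‖ =
      ∫⁻ t in Ioo 0 ρ, ENNReal.ofReal t * f t := by
    intro θ
    rw [← Ioi_inter_Iio, inter_comm, ← Measure.restrict_restrict measurableSet_Iio,
      ← lintegral_indicator measurableSet_Iio]
    refine setLIntegral_congr_fun measurableSet_Ioi fun t ht => ?_
    have : ‖circleMap 0 t θ‖ = t := by rw [norm_circleMap_zero, abs_of_pos ht]
    rw [this]
    by_cases h : t < ρ <;> simp [indicator, h]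
  simp_rw [h2]
  rw [setLIntegral_const, Real.volume_Ioo, mul_comm]
  congr 2
  ring

theorem lintegral_pow_kernel {a ρ : ℝ} (ha : a < 2) (hρ : 0 < ρ) (w : ℂ) :
    ∫⁻ x in ball w ρ, ENNReal.ofReal (‖x - w‖ ^ (-a)) =
      ENNReal.ofReal (2 * π / (2 - a) * ρ ^ (2 - a)) := by
  rw [lintegral_radial (f := fun t => ENNReal.ofReal (t ^ (-a))) (by fun_prop)]
  have h1 : ∫⁻ t in Ioo 0 ρ, ENNReal.ofReal t * ENNReal.ofReal (t ^ (-a)) =
      ∫⁻ t in Ioo 0 ρ, ENNReal.ofReal (t ^ (1 - a)) := by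
    refine setLIntegral_congr_fun measurableSet_Ioo fun t ht => ?_
    rw [← ENNReal.ofReal_mul ht.1.le, sub_eq_add_neg, rpow_add ht.1, rpow_one]
  rw [h1, ← ofReal_integral_eq_lintegral_ofReal, ← ENNReal.ofReal_mul (by positivity),
    ← integral_Ioc_eq_integral_Ioo, ← intervalIntegral.integral_of_le hρ.le,
    integral_rpow (Or.inl (by linarith))]
  · rw [zero_rpow (by linarith), show 1 - a + 1 = 2 - a by ring]
    congr 1
    ring
  · exact (intervalIntegral.integrableOn_Ioo_rpow_iff hρ).2 (by linarith)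
  · filter_upwards [ae_restrict_mem measurableSet_Ioo] with t ht using rpow_nonneg ht.1.le _

theorem lintegral_log_kernel {a ρ : ℝ} (ha : 0 < a) (hρ : 0 < ρ) (w : ℂ) :
    ∫⁻ x in ball w ρ, ENNReal.ofReal (1 / (‖x - w‖ * (a + ‖x - w‖))) =
      ENNReal.ofReal (2 * π * Real.log (1 + ρ / a)) := by
  rw [lintegral_radial (f := fun t => ENNReal.ofReal (1 / (t * (a + t)))) (by fun_prop)]
  have h1 : ∫⁻ t in Ioo 0 ρ, ENNReal.ofReal t * ENNReal.ofReal (1 / (t * (a + t))) =
      ∫⁻ t in Ioo 0 ρ, ENNReal.ofReal ((a + t)⁻¹) := by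
    refine setLIntegral_congr_fun measurableSet_Ioo fun t ht => ?_
    rw [← ENNReal.ofReal_mul ht.1.le]
    congr 1
    have := ht.1.ne'
    field_simp
  have hc : ContinuousOn (fun t : ℝ => (a + t)⁻¹) (Icc 0 ρ) :=
    ContinuousOn.inv₀ (by fun_prop) fun t ht => by linarith [ht.1]
  rw [h1, ← ofReal_integral_eq_lintegral_ofReal, ← ENNReal.ofReal_mul (by positivity),
    ← integral_Ioc_eq_integral_Ioo, ← intervalIntegral.integral_of_le hρ.le,
    intervalIntegral.integral_comp_add_left (fun t => t⁻¹), integral_inv_of_pos (by linarith)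
      (by linarith)]
  · congr 3
    field_simp
    ring
  · exact hc.integrableOn_Icc.mono_set Ioo_subset_Icc_self
  · filter_upwards [ae_restrict_mem measurableSet_Ioo] with t ht
    have := ht.1
    positivity

/-- Area formula for injective holomorphic maps. -/
theorem lintegral_image_holo {ψ : ℂ → ℂ} {V : Set ℂ} (hV : IsOpen V)
    (hd : DifferentiableOn ℂ ψ V) (hi : InjOn ψ V) (g : ℂ → ℝ≥0∞) :
    ∫⁻ x in ψ '' V, g x = ∫⁻ z in V, ENNReal.ofReal (‖deriv ψ z‖ ^ 2) * g (ψ z) := by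
  rw [lintegral_image_eq_lintegral_abs_det_fderiv_mul volume hV.measurableSet
    (f' := fun z => (ContinuousLinearMap.toSpanSingleton ℂ (deriv ψ z)).restrictScalars ℝ)
    (fun z hz => ((hd.differentiableAt (hV.mem_nhds hz)).hasDerivAt.hasFDerivAt.restrictScalars
      ℝ).hasFDerivWithinAt) hi]
  congr 1
  funext z
  simp [ContinuousLinearMap.det, LinearMap.det_restrictScalars, Algebra.norm_complex_eq,
    Complex.normSq_eq_norm_sq]

end Pool.Agent.P.MP_56bcbf_an
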