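import Pool.Agent.P.MP_56bcbf_an.Kernel

/-! Mean limits of entire functions are analytic. -/

namespace Pool.Agent.P.MP_56bcbf_an

open Set Metric Filter Topology Complex MeasureTheory Real
open scoped ENNReal

theorem area_mean {h : ℂ → ℂ} (hd : Differentiable ℂ h) (z : ℂ) {r : ℝ} (hr : 0 < r) :
    ENNReal.ofReal (π * r ^ 2) * ‖h z‖ₑ ≤ ∫⁻ w in ball z r, ‖h w‖ₑ := by
  have hc := hd.continuous
  have hm : Measurable fun x : ℂ => (ball (0 : ℂ) r).indicator (fun x => ‖h (z + x)‖ₑ) x :=
    Measurable.indicator (hc.comp (by fun_prop)).measurable.enorm measurableSet_ball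
  have h1 : ∫⁻ w in ball z r, ‖h w‖ₑ =
      ∫⁻ x, (ball (0 : ℂ) r).indicator (fun x => ‖h (z + x)‖ₑ) x := by
    rw [← lintegral_indicator measurableSet_ball,
      ← lintegral_add_left_eq_self (fun x => (ball z r).indicator (fun w => ‖h w‖ₑ) x) z]
    congr 1
    funext x
    simp [indicator, dist_eq_norm]
  rw [h1, lintegral_polar hm, lintegral_lintegral_swap ((measurable_snd.ennreal_ofReal.mul
    (hm.comp (measurable_circleMap'.comp measurable_swap))).aemeasurable)]
  have h2 : ∀ t ∈ Ioo (0 : ℝ) r, ENNReal.ofReal (2 * π * t) * ‖h z‖ₑ ≤ ∫⁻ θ in Ioo (-π) π,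
      ENNReal.ofReal t * (ball (0 : ℂ) r).indicator (fun x => ‖h (z + x)‖ₑ) (circleMap 0 t θ) := by
    intro t ht
    have h3 : ∀ θ, (ball (0 : ℂ) r).indicator (fun x => ‖h (z + x)‖ₑ) (circleMap 0 t θ) =
        ‖h (circleMap z t θ)‖ₑ := fun θ => by
      rw [indicator_of_mem (by simpa [abs_of_pos ht.1] using ht.2)]
      simp [circleMap]
    simp_rw [h3]
    rw [lintegral_const_mul' _ _ ENNReal.ofReal_ne_top, mul_comm (2 * π),
      ENNReal.ofReal_mul ht.1.le, mul_assoc]
    refine mul_le_mul' le_rfl (le_trans (le_of_eq ?_) (enorm_integral_le_lintegral_enorm _))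
    have h4 := hd.diffContOnCl.circleAverage (c := z) (R := t)
    rw [circleAverage_eq_integral_add (-π),
      intervalIntegral.integral_comp_add_right (fun θ => h (circleMap z t θ)),
      intervalIntegral.integral_of_le (by linarith [pi_pos]), integral_Ioc_eq_integral_Ioo,
      show 0 + -π = -π by ring, show 2 * π + -π = π by ring] at h4
    rw [← h4, enorm_smul, ← mul_assoc, Real.enorm_of_nonneg (by positivity),
      ← ENNReal.ofReal_mul (by positivity), mul_inv_cancel₀ (by positivity), ENNReal.ofReal_one,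
      one_mul]
  calc _ = ∫⁻ t in Ioo 0 r, ENNReal.ofReal (2 * π * t) * ‖h z‖ₑ := by
        rw [lintegral_mul_const _ (by fun_prop), ← ofReal_integral_eq_lintegral_ofReal,
          ← integral_Ioc_eq_integral_Ioo, ← intervalIntegral.integral_of_le hr.le,
          intervalIntegral.integral_const_mul, integral_id]
        · congr 2
          ring
        · exact (Continuous.integrableOn_Icc (by fun_prop)).mono_set Ioo_subset_Icc_self
        · filter_upwards [ae_restrict_mem measurableSet_Ioo] with t ht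
          have := ht.1
          positivity
    _ ≤ _ := (setLIntegral_mono' measurableSet_Ioo h2).trans
        (lintegral_mono_set Ioo_subset_Ioi_self)

theorem analytic_of_limit {Ω : Set ℂ} (hΩ : IsOpen Ω) (hvol : volume Ω ≠ ∞) {p : ℝ≥0∞}
    (hp : 1 ≤ p) {f : ℂ → ℂ} (hf : AEStronglyMeasurable f (volume.restrict Ω))
    (h : ∀ ε > 0, ∃ P : ℂ → ℂ, Differentiable ℂ P ∧
      eLpNorm (fun z => f z - P z) p (volume.restrict Ω) < ε) :
    ∃ g : ℂ → ℂ, DifferentiableOn ℂ g Ω ∧ f =ᵐ[volume.restrict Ω] g := by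
  have : IsFiniteMeasure (volume.restrict Ω) := ⟨by simpa using hvol.lt_top⟩
  choose P hPd hP using fun n : ℕ => h ((n : ℝ≥0∞) + 1)⁻¹ (by simp)
  set μ := volume.restrict Ω with hμ
  have hPm : ∀ n, AEStronglyMeasurable (P n) μ := fun n => (hPd n).continuous.aestronglyMeasurable
  have hm' : ∀ n, AEMeasurable (fun z => ‖f z - P n z‖ₑ) μ := fun n => (hf.sub (hPm n)).enorm
  have h1 : Tendsto (fun n => eLpNorm (fun z => f z - P n z) p μ) atTop (𝓝 0) := by
    refine tendsto_of_tendsto_of_tendsto_of_le_of_le tendsto_const_nhds ?_ (fun _ => bot_le)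
      fun n => (hP n).le
    simpa [Function.comp_def] using
      ENNReal.tendsto_inv_nat_nhds_zero.comp (tendsto_add_atTop_nat 1)
  have h2 : Tendsto (fun n => ∫⁻ z, ‖f z - P n z‖ₑ ∂μ) atTop (𝓝 0) := by
    have h3 := ENNReal.Tendsto.mul_const (b := μ univ ^ (1 / (1 : ℝ≥0∞).toReal - 1 / p.toReal)) h1
      (Or.inr (ENNReal.rpow_ne_top_of_nonneg (by
        rw [ENNReal.toReal_one, div_one, sub_nonneg]
        by_cases hp' : p = ∞
        · simp [hp']
        · exact div_le_one_of_le₀ (by simpa using ENNReal.toReal_mono hp' hp) ENNReal.toReal_nonneg)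
        (measure_ne_top _ _)))
    rw [zero_mul] at h3
    refine tendsto_of_tendsto_of_tendsto_of_le_of_le tendsto_const_nhds h3 (fun _ => bot_le)
      fun n => ?_
    rw [← eLpNorm_one_eq_lintegral_enorm]
    exact eLpNorm_le_eLpNorm_mul_rpow_measure_univ hp (hf.sub (hPm n))
  have hU : ∀ z ∈ Ω, ∃ r > 0, UniformCauchySeqOn P atTop (ball z r) := by
    intro z hz
    obtain ⟨ρ, hρ, hb⟩ := Metric.isOpen_iff.1 hΩ z hz
    refine ⟨ρ / 2, half_pos hρ, Metric.uniformCauchySeqOn_iff.2 fun ε hε => ?_⟩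
    have hc : 0 < ENNReal.ofReal (π * (ρ / 2) ^ 2 * ε / 2) := ENNReal.ofReal_pos.2 (by positivity)
    obtain ⟨N, hN⟩ := eventually_atTop.1 (h2.eventually (gt_mem_nhds hc))
    refine ⟨N, fun m hm n hn x hx => ?_⟩
    have h3 := area_mean ((hPd m).sub (hPd n)) x (half_pos hρ)
    have h4 : ∫⁻ w in ball x (ρ / 2), ‖(P m - P n) w‖ₑ ≤
        ∫⁻ z, ‖f z - P n z‖ₑ ∂μ + ∫⁻ z, ‖f z - P m z‖ₑ ∂μ := by
      rw [← lintegral_add_left' (hm' n)]
      refine (lintegral_mono_set ((ball_subset_ball' ?_).trans hb)).trans (lintegral_mono fun w => ?_)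
      · linarith [mem_ball.1 hx]
      · rw [show (P m - P n) w = (f w - P n w) - (f w - P m w) by simp]
        exact enorm_sub_le
    have h5 := (h3.trans h4).trans_lt (ENNReal.add_lt_add (hN n hn) (hN m hm))
    rw [← ENNReal.ofReal_add (by positivity) (by positivity), add_halves, ← ofReal_norm,
      ← ENNReal.ofReal_mul (by positivity), ENNReal.ofReal_lt_ofReal_iff (by positivity),
      mul_lt_mul_iff_right₀ (by positivity)] at h5
    rwa [dist_eq_norm]
  set g : ℂ → ℂ := fun z => limUnder atTop fun n => P n z with hg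
  have hpt : ∀ z ∈ Ω, Tendsto (fun n => P n z) atTop (𝓝 (g z)) := fun z hz => by
    obtain ⟨r, hr, h⟩ := hU z hz
    exact (h.cauchySeq (mem_ball_self hr)).tendsto_limUnder
  refine ⟨g, fun z hz => ?_, ?_⟩
  · obtain ⟨r, hr, h⟩ := hU z hz
    have h3 := ((h.mono (inter_subset_left (t := Ω))).tendstoUniformlyOn_of_tendsto
      fun x hx => hpt x hx.2).tendstoLocallyUniformlyOn.differentiableOn
      (.of_forall fun n => (hPd n).differentiableOn) (isOpen_ball.inter hΩ)
    exact (h3.differentiableAt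
      ((isOpen_ball.inter hΩ).mem_nhds ⟨mem_ball_self hr, hz⟩)).differentiableWithinAt
  · have h3 := lintegral_liminf_le' (μ := μ) (u := atTop) hm'
    have h4 : ∀ᵐ z ∂μ, Tendsto (fun n => ‖f z - P n z‖ₑ) atTop (𝓝 ‖f z - g z‖ₑ) := by
      filter_upwards [ae_restrict_mem hΩ.measurableSet] with z hz
      exact (tendsto_const_nhds.sub (hpt z hz)).enorm
    rw [h2.liminf_eq, nonpos_iff_eq_zero, lintegral_congr_ae (h4.mono fun z hz => hz.liminf_eq),
      lintegral_eq_zero_iff' (aemeasurable_of_tendsto_metrizable_ae atTop hm' h4)] at h3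
    filter_upwards [h3] with z hz
    simpa [sub_eq_zero] using hz

end Pool.Agent.P.MP_56bcbf_an
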