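import Pool.Agent.P.MP_56bcbf_an.Means

/-! An integrable majorant for the radial growth of a Bloch function. -/

namespace Pool.Agent.P.MP_56bcbf_an

open Set Metric Filter Topology Complex MeasureTheory Real
open scoped ENNReal

theorem integral_Ioo_eq (h : ℂ → ℝ) (r : ℝ) :
    ∫ θ in Ioo (-π) π, h (circleMap 0 r θ) = 2 * π * circleAverage h 0 r := by
  rw [circleAverage_eq_integral_add (-π),
    intervalIntegral.integral_comp_add_right (fun θ => h (circleMap 0 r θ)),
    intervalIntegral.integral_of_le (by linarith [pi_pos]), integral_Ioc_eq_integral_Ioo,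
    smul_eq_mul, ← mul_assoc, mul_inv_cancel₀ (by positivity), one_mul]
  congr 3 <;> ring

theorem circleMap_mem {t : ℝ} (ht0 : 0 ≤ t) (ht : t < 1) (θ : ℝ) :
    circleMap 0 t θ ∈ ball (0 : ℂ) 1 := by
  simpa [abs_of_nonneg ht0] using ht

theorem hasDerivAt_radial {g : ℂ → ℂ} (hg : DifferentiableOn ℂ g (ball 0 1)) (θ : ℝ) {t : ℝ}
    (ht0 : 0 ≤ t) (ht : t < 1) :
    HasDerivAt (fun s : ℝ => g (circleMap 0 s θ))
      (deriv g (circleMap 0 t θ) * cexp (θ * I)) t := by
  have h1 : HasDerivAt (fun s : ℝ => circleMap 0 s θ) (cexp (θ * I)) t := by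
    simpa [circleMap] using (hasDerivAt_id t).ofReal_comp.mul_const (cexp (θ * I))
  exact ((hg.differentiableAt (isOpen_ball.mem_nhds (circleMap_mem ht0 ht θ))).hasDerivAt.comp_of_eq
    t h1 rfl)

theorem bloch_radial {b : ℂ → ℂ} {K : ℝ} (hb : DifferentiableOn ℂ b (ball 0 1))
    (hB : ∀ z ∈ ball (0 : ℂ) 1, ‖deriv b z‖ * (1 - ‖z‖) ≤ K) (θ : ℝ) {t r : ℝ} (ht : 0 ≤ t)
    (htr : t ≤ r) (hr : r < 1) (h : r - t ≤ 1 - r) :
    ‖b (circleMap 0 r θ) - b (circleMap 0 t θ)‖ ≤ K := by
  have h1r : 0 < 1 - r := by linarith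
  have hK : 0 ≤ K := le_trans (by simp) (hB 0 (by simp))
  have := norm_image_sub_le_of_norm_deriv_le_segment' (a := t) (b := r) (C := K / (1 - r))
    (f := fun s : ℝ => b (circleMap 0 s θ))
    (f' := fun s => deriv b (circleMap 0 s θ) * cexp (θ * I))
    (fun s hs => (hasDerivAt_radial hb θ (ht.trans hs.1) (hs.2.trans_lt hr)).hasDerivWithinAt)
    (fun s hs => ?_) r ⟨htr, le_rfl⟩
  · refine this.trans ?_
    rw [div_mul_eq_mul_div, div_le_iff₀ h1r]
    gcongr
  · have hs0 := ht.trans hs.1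
    have := hB _ (circleMap_mem hs0 (hs.2.trans hr) θ)
    rw [norm_circleMap_zero, abs_of_nonneg hs0] at this
    rw [norm_mul, norm_exp_ofReal_mul_I, mul_one, le_div_iff₀ h1r]
    refine le_trans ?_ this
    gcongr
    exact hs.2.le

theorem exists_majorant {b : ℂ → ℂ} {K : ℝ} (hK : 0 < K) (hb : DifferentiableOn ℂ b (ball 0 1))
    (hB : ∀ z ∈ ball (0 : ℂ) 1, ‖deriv b z‖ * (1 - ‖z‖) ≤ K) {ε : ℝ} (hε : 0 < ε) :
    ∃ Λ : ℝ → ℝ, Measurable Λ ∧ (∀ θ, 0 ≤ Λ θ) ∧ IntegrableOn Λ (Ioo (-π) π) ∧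
      ∀ᵐ θ ∂(volume.restrict (Ioo (-π) π)), ∀ t ∈ Ico (0 : ℝ) 1,
        |(b (circleMap 0 t θ)).re| ≤ Λ θ - ε * Real.log (1 - t) := by
  set τ := ε / (4 * K ^ 2) with hτ
  have hτ0 : 0 < τ := by positivity
  set ρ : ℕ → ℝ := fun n => 1 - (1 / 2) ^ (n + 1) with hρ
  have hρm : ∀ n, ρ n ∈ Ioo (0 : ℝ) 1 := fun n => by
    have h1 : ((1 : ℝ) / 2) ^ (n + 1) < 1 := pow_lt_one₀ (by norm_num) (by norm_num) (by omega)
    have h2 : 0 < ((1 : ℝ) / 2) ^ (n + 1) := by positivity
    constructor <;> simp only [hρ] <;> linarith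
  set u : ℕ → ℂ → ℝ := fun n z => Real.exp (-(n * ε * τ * Real.log 2)) *
    (Real.exp (τ * (b z).re) + Real.exp (-τ * (b z).re)) with hu
  have hu0 : ∀ n z, 0 ≤ u n z := fun n z => by positivity
  have hbc : ∀ n, Continuous fun θ => b (circleMap 0 (ρ n) θ) := fun n =>
    hb.continuousOn.comp_continuous (continuous_circleMap _ _)
      fun θ => circleMap_mem (hρm n).1.le (hρm n).2 θ
  have huc : ∀ n, Continuous fun θ => u n (circleMap 0 (ρ n) θ) := fun n => by
    have h := continuous_re.comp (hbc n)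
    exact continuous_const.mul (((continuous_const.mul h).rexp).add (continuous_const.mul h).rexp)
  set C := 2 * π * (2 * Real.exp (τ * (b 0).re) + 2 * Real.exp (-τ * (b 0).re)) *
    Real.exp (ε * τ * Real.log 2 / 2) with hC
  set x := Real.exp (-(ε * τ * Real.log 2 / 2)) with hx
  have hx1 : x < 1 := by
    rw [hx, ← Real.exp_zero, Real.exp_lt_exp]
    have := Real.log_pos (show (1 : ℝ) < 2 by norm_num)
    have : 0 < ε * τ * Real.log 2 / 2 := by positivity
    linarith
  have hint : ∀ n, ∫ θ in Ioo (-π) π, u n (circleMap 0 (ρ n) θ) ≤ C * x ^ n := by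
    intro n
    have hsub : sphere (0 : ℂ) |ρ n| ⊆ ball 0 1 := by
      rw [abs_of_pos (hρm n).1]
      exact sphere_subset_ball (hρm n).2
    have hc := hb.continuousOn.mono hsub
    have i1 : CircleIntegrable (fun z => Real.exp (τ * (b z).re)) 0 (ρ n) :=
      ContinuousOn.circleIntegrable' (by fun_prop)
    have i2 : CircleIntegrable (fun z => Real.exp (-τ * (b z).re)) 0 (ρ n) :=
      ContinuousOn.circleIntegrable' (by fun_prop)
    rw [integral_Ioo_eq (u n)]
    simp only [hu, ← smul_eq_mul (Real.exp (-(n * ε * τ * Real.log 2)))]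
    rw [circleAverage_fun_smul, circleAverage_fun_add i1 i2, smul_eq_mul]
    have m1 := means_le hK hb hB hτ0.ne' (hρm n)
    have m2 := means_le hK hb hB (neg_ne_zero.2 hτ0.ne') (hρm n)
    have e : ∀ s : ℝ, s ^ 2 = τ ^ 2 → (1 - ρ n) ^ (-(2 * s ^ 2 * K ^ 2)) =
        Real.exp ((n + 1) * (ε * τ * Real.log 2 / 2)) := by
      intro s hs
      rw [rpow_def_of_pos (by linarith [(hρm n).2]), hs]
      congr 1
      simp only [hρ, sub_sub_cancel, Real.log_pow, one_div, Real.log_inv]
      rw [hτ]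
      push_cast
      field_simp
      ring
    rw [e τ rfl] at m1
    rw [e (-τ) (by ring)] at m2
    have e2 : C * x ^ n = 2 * π * (Real.exp (-(n * ε * τ * Real.log 2)) *
        (2 * Real.exp (τ * (b 0).re) * Real.exp ((n + 1) * (ε * τ * Real.log 2 / 2)) +
        2 * Real.exp (-τ * (b 0).re) * Real.exp ((n + 1) * (ε * τ * Real.log 2 / 2)))) := by
      have : Real.exp (ε * τ * Real.log 2 / 2) * x ^ n =
          Real.exp (-(n * ε * τ * Real.log 2)) * Real.exp ((n + 1) * (ε * τ * Real.log 2 / 2)) := by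
        rw [hx, ← Real.exp_nat_mul, ← Real.exp_add, ← Real.exp_add]
        congr 1
        ring
      rw [hC, mul_assoc, this]
      ring
    rw [e2]
    gcongr
  set Y : ℝ → ℝ≥0∞ := fun θ => ∑' n, ENNReal.ofReal (u n (circleMap 0 (ρ n) θ)) with hY
  have hYm : Measurable Y :=
    Measurable.tsum fun n => (huc n).measurable.ennreal_ofReal
  have hYi : ∫⁻ θ in Ioo (-π) π, Y θ ≠ ∞ := by
    rw [hY, lintegral_tsum fun n => (huc n).measurable.ennreal_ofReal.aemeasurable]
    refine ne_top_of_le_ne_top (b := ∑' n, ENNReal.ofReal (C * x ^ n)) ?_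
      (ENNReal.tsum_le_tsum fun n => ?_)
    · rw [← ENNReal.ofReal_tsum_of_nonneg (fun n => by positivity)
        ((summable_geometric_of_lt_one (by positivity) hx1).mul_left C)]
      exact ENNReal.ofReal_ne_top
    · rw [← ofReal_integral_eq_lintegral_ofReal
        (((huc n).integrableOn_Icc).mono_set Ioo_subset_Icc_self) (.of_forall fun θ => hu0 _ _)]
      exact ENNReal.ofReal_le_ofReal (hint n)
  refine ⟨fun θ => K + (Y θ).toReal / τ, by fun_prop, fun θ => by positivity, ?_, ?_⟩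
  · refine Integrable.add (integrable_const _) (Integrable.div_const ?_ _)
    exact integrable_toReal_of_lintegral_ne_top hYm.aemeasurable hYi
  · filter_upwards [ae_lt_top hYm hYi] with θ hθ t ht
    obtain ⟨n, hn1, hn2⟩ := exists_nat_pow_near_of_lt_one (x := 1 - t) (y := (1 / 2 : ℝ))
      (by linarith [ht.2]) (by linarith [ht.1]) (by norm_num) (by norm_num)
    have h1 := bloch_radial hb hB θ (r := ρ n) ht.1 (by simp only [hρ]; linarith) (hρm n).2
      (by simp only [hρ]; rw [pow_succ] at hn1 ⊢; linarith)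
    have h2 : u n (circleMap 0 (ρ n) θ) ≤ (Y θ).toReal := by
      rw [← ENNReal.ofReal_le_iff_le_toReal hθ.ne]
      exact ENNReal.le_tsum (f := fun n => ENNReal.ofReal (u n (circleMap 0 (ρ n) θ))) n
    set y := (b (circleMap 0 (ρ n) θ)).re with hy
    have h3 : τ * |y| - n * ε * τ * Real.log 2 ≤ u n (circleMap 0 (ρ n) θ) := by
      have h4 : Real.exp (τ * |y|) ≤ Real.exp (τ * y) + Real.exp (-τ * y) := by
        rcases abs_cases y with h | h
        · rw [h.1]
          linarith [Real.exp_pos (-τ * y)]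
        · rw [h.1, show τ * -y = -τ * y by ring]
          linarith [Real.exp_pos (τ * y)]
      calc τ * |y| - n * ε * τ * Real.log 2
          ≤ Real.exp (-(n * ε * τ * Real.log 2) + τ * |y|) := by
            linarith [Real.add_one_le_exp (-(n * ε * τ * Real.log 2) + τ * |y|)]
        _ ≤ _ := by
            rw [Real.exp_add]
            simp only [hu]
            gcongr
    have h5 : Real.log (1 - t) ≤ -(n * Real.log 2) := by
      have := Real.log_le_log (by linarith [ht.2]) hn2
      simpa [Real.log_pow] using this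
    have h6 : |(b (circleMap 0 t θ)).re| ≤ |y| + K := by
      have h7 := (abs_re_le_norm _).trans h1
      rw [sub_re] at h7
      have := abs_sub_abs_le_abs_sub (b (circleMap 0 t θ)).re y
      rw [abs_sub_comm] at this
      linarith
    have h8 : |y| - n * ε * Real.log 2 ≤ (Y θ).toReal / τ := by
      rw [le_div_iff₀ hτ0]
      linarith
    nlinarith

end Pool.Agent.P.MP_56bcbf_an
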