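import Mathlib

/-! Continuous functionals on `L^p` of a finite measure are given by `L^q` densities. -/

namespace Pool.Agent.P.MP_56bcbf_an

open Set Filter Topology MeasureTheory
open scoped ENNReal symmDiff

variable {α : Type*} [MeasurableSpace α] {μ : Measure α} [IsFiniteMeasure μ] {p : ℝ≥0∞}
  [Fact (1 ≤ p)]

theorem hasSum_ind (hp : p ≠ ∞) {f : ℕ → Set α} (hf : ∀ i, MeasurableSet (f i))
    (hd : Pairwise (Function.onFun Disjoint f)) :
    HasSum (fun i => indicatorConstLp p (hf i) (measure_ne_top μ _) (1 : ℂ))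
      (indicatorConstLp p (MeasurableSet.iUnion hf) (measure_ne_top μ _) 1) := by
  classical
  have h1 : ∀ s : Finset ℕ, ∑ i ∈ s, indicatorConstLp p (hf i) (measure_ne_top μ _) (1 : ℂ) =
      indicatorConstLp p (s.measurableSet_biUnion fun i _ => hf i) (measure_ne_top μ _) 1 := by
    intro s
    induction s using Finset.induction_on with
    | empty => simp
    | insert a s ha ih =>
      rw [Finset.sum_insert ha, ih, ← indicatorConstLp_disjoint_union]
      · congr 1
        simp
      · simp only [disjoint_iUnion_right]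
        exact fun i hi => hd fun h => ha (h ▸ hi)
  unfold HasSum
  simp only [h1, SummationFilter.unconditional_filter]
  refine tendsto_indicatorConstLp_set hp ?_
  refine tendsto_of_tendsto_of_tendsto_of_le_of_le tendsto_const_nhds
    (ENNReal.tendsto_tsum_compl_atTop_zero (f := fun i => μ (f i)) ?_) (fun _ => bot_le) fun s => ?_
  · rw [← measure_iUnion hd hf]
    exact measure_ne_top _ _
  · refine le_trans (measure_mono ?_) (measure_iUnion_le fun i : {x // x ∉ s} => f i)
    intro x hx
    simp only [mem_symmDiff, mem_iUnion, not_exists] at hx ⊢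
    rcases hx with ⟨⟨i, -, hi⟩, h⟩ | ⟨⟨i, hi⟩, h⟩
    · exact (h i hi).elim
    · exact ⟨⟨i, fun his => h i his hi⟩, hi⟩

theorem exists_real_density (hp : p ≠ ∞) (Λ : Lp ℂ p μ →L[ℝ] ℝ) :
    ∃ k : α → ℝ, Measurable k ∧ Integrable k μ ∧ ∀ A (hA : MeasurableSet A),
      Λ (indicatorConstLp p hA (measure_ne_top μ _) 1) = ∫ x in A, k x ∂μ := by
  classical
  set s : SignedMeasure α :=
    { measureOf' := fun A => if hA : MeasurableSet A then
        Λ (indicatorConstLp p hA (measure_ne_top μ _) 1) else 0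
      empty' := by simp
      not_measurable' := fun A hA => dif_neg hA
      m_iUnion' := fun f hf hd => by
        simp only [dif_pos (hf _), dif_pos (MeasurableSet.iUnion hf)]
        exact (hasSum_ind hp hf hd).mapL Λ } with hs
  have hsA : ∀ A (hA : MeasurableSet A), s A = Λ (indicatorConstLp p hA (measure_ne_top μ _) 1) :=
    fun A hA => dif_pos hA
  have hac : s ≪ᵥ μ.toENNRealVectorMeasure := by
    refine VectorMeasure.AbsolutelyContinuous.mk fun A hA h => ?_
    rw [Measure.toENNRealVectorMeasure_apply_measurable hA] at h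
    have : indicatorConstLp p hA (measure_ne_top μ _) (1 : ℂ) = 0 := by
      rw [← indicatorConstLp_empty (c := (1 : ℂ)), indicatorConstLp_inj _ _ _ _ one_ne_zero]
      exact ae_eq_empty.2 h
    rw [hsA A hA, this, map_zero]
  refine ⟨s.rnDeriv μ, s.measurable_rnDeriv μ, s.integrable_rnDeriv μ, fun A hA => ?_⟩
  rw [← hsA A hA, ← withDensityᵥ_apply (s.integrable_rnDeriv μ) hA,
    SignedMeasure.withDensityᵥ_rnDeriv_eq s μ hac]

theorem ext_ind (hp : p ≠ ∞) {S T : Lp ℂ p μ →L[ℂ] ℂ} (h : ∀ A (hA : MeasurableSet A),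
    S (indicatorConstLp p hA (measure_ne_top μ _) 1) =
      T (indicatorConstLp p hA (measure_ne_top μ _) 1)) : S = T := by
  ext f
  induction f using Lp.induction hp with
  | indicatorConst c hs hμ =>
    have : indicatorConstLp p hs hμ.ne c = c • indicatorConstLp p hs hμ.ne (1 : ℂ) := by
      ext1
      filter_upwards [indicatorConstLp_coeFn (p := p) (hs := hs) (hμs := hμ.ne) (c := c),
        indicatorConstLp_coeFn (p := p) (hs := hs) (hμs := hμ.ne) (c := (1 : ℂ)),
        Lp.coeFn_smul c (indicatorConstLp p hs hμ.ne (1 : ℂ))] with x h1 h2 h3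
      rw [h1, h3, Pi.smul_apply, h2]
      simp [indicator]
    rw [Lp.simpleFunc.coe_indicatorConst, this, map_smul, map_smul, h _ hs]
  | add hf hg _ h1 h2 => rw [map_add, map_add, h1, h2]
  | isClosed => exact isClosed_eq S.continuous T.continuous

omit [IsFiniteMeasure μ] in
theorem pairing_ind {q : ℝ≥0∞} [Fact (1 ≤ q)] [p.HolderConjugate q] {k : α → ℂ}
    (hk : MemLp k q μ) (f : Lp ℂ p μ) :
    ((ContinuousLinearMap.mul ℂ ℂ).lpPairing μ p q).flip (hk.toLp k) f = ∫ x, f x * k x ∂μ := by
  rw [ContinuousLinearMap.flip_apply, ContinuousLinearMap.lpPairing_eq_integral]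
  refine integral_congr_ae ?_
  filter_upwards [hk.coeFn_toLp] with x hx
  simp [hx]

theorem exists_density {q : ℝ≥0∞} [hpq : p.HolderConjugate q] (hp : p ≠ ∞)
    (Λ : Lp ℂ p μ →L[ℂ] ℂ) :
    ∃ k : α → ℂ, Measurable k ∧ MemLp k q μ ∧ ∀ f : Lp ℂ p μ, Λ f = ∫ x, f x * k x ∂μ := by
  have : Fact (1 ≤ q) := ⟨ENNReal.HolderConjugate.one_le q p⟩
  obtain ⟨k1, m1, i1, e1⟩ := exists_real_density hp (Complex.reCLM.comp (Λ.restrictScalars ℝ))
  obtain ⟨k2, m2, i2, e2⟩ := exists_real_density hp (Complex.imCLM.comp (Λ.restrictScalars ℝ))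
  set k : α → ℂ := fun x => k1 x + k2 x * Complex.I with hk
  have hm : Measurable k := by fun_prop
  have hA : ∀ A (hA : MeasurableSet A),
      Λ (indicatorConstLp p hA (measure_ne_top μ _) 1) = ∫ x in A, k x ∂μ := by
    intro A hA
    have j1 : Integrable (fun x => (k1 x : ℂ)) (μ.restrict A) := i1.ofReal.restrict
    have j2 : Integrable (fun x => (k2 x : ℂ) * Complex.I) (μ.restrict A) :=
      (i2.ofReal.mul_const _).restrict
    rw [integral_add j1 j2,
      integral_mul_const, integral_complex_ofReal, integral_complex_ofReal, ← e1 A hA, ← e2 A hA]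
    simp
  have hind : ∀ {k' : α → ℂ} (A) (hA : MeasurableSet A),
      ∫ x, indicatorConstLp p hA (measure_ne_top μ _) (1 : ℂ) x * k' x ∂μ = ∫ x in A, k' x ∂μ := by
    intro k' A hA
    rw [← integral_indicator hA]
    refine integral_congr_ae ?_
    filter_upwards [indicatorConstLp_coeFn (p := p) (hs := hA) (hμs := measure_ne_top μ _)
      (c := (1 : ℂ))] with x hx
    rw [hx]
    by_cases h : x ∈ A <;> simp [h]
  set B : ℕ → Set α := fun n => {x | ‖k x‖ ≤ n} with hB
  have hBm : ∀ n, MeasurableSet (B n) := fun n => measurableSet_le hm.norm measurable_const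
  have hφ : ∀ (n : ℕ) (φ : α → ℂ), MemLp φ p μ → (∀ x ∉ B n, φ x = 0) →
      ‖∫ x, φ x * k x ∂μ‖ₑ ≤ ‖Λ‖ₑ * eLpNorm φ p μ := by
    intro n φ hφ hφ0
    have hkn : MemLp ((B n).indicator k) q μ :=
      MemLp.of_bound (hm.indicator (hBm n)).aestronglyMeasurable n (.of_forall fun x => by
        by_cases h : x ∈ B n
        · rwa [indicator_of_mem h]
        · simp [h])
    set J : Lp ℂ ∞ μ := indicatorConstLp ∞ (hBm n) (measure_ne_top μ _) 1 with hJ
    have hJe : ∀ f : Lp ℂ p μ, (ContinuousLinearMap.mul ℂ ℂ).holder p f J =ᵐ[μ]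
        (B n).indicator f := fun f => by
      filter_upwards [(ContinuousLinearMap.mul ℂ ℂ).coeFn_holder (r := p) f J,
        indicatorConstLp_coeFn (p := ∞) (hs := hBm n) (hμs := measure_ne_top μ _)
          (c := (1 : ℂ))] with x h1 h2
      rw [h1, hJ, h2]
      by_cases h : x ∈ B n <;> simp [h]
    have key : Λ.comp (((ContinuousLinearMap.mul ℂ ℂ).holderL μ p ∞ p).flip J) =
        ((ContinuousLinearMap.mul ℂ ℂ).lpPairing μ p q).flip (hkn.toLp _) := by
      refine ext_ind hp fun A hA' => ?_
      rw [pairing_ind, hind, setIntegral_indicator (hBm n), ← hA _ (hA'.inter (hBm n))]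
      simp only [ContinuousLinearMap.comp_apply, ContinuousLinearMap.flip_apply,
        ContinuousLinearMap.holderL_apply_apply]
      congr 1
      ext1
      filter_upwards [hJe (indicatorConstLp p hA' (measure_ne_top μ _) 1),
        indicatorConstLp_coeFn (p := p) (hs := hA') (hμs := measure_ne_top μ _) (c := (1 : ℂ)),
        indicatorConstLp_coeFn (p := p) (hs := hA'.inter (hBm n)) (hμs := measure_ne_top μ _)
          (c := (1 : ℂ))] with x h1 h2 h3
      rw [h1, h3]
      by_cases h : x ∈ B n <;> by_cases h' : x ∈ A <;> simp [h, h', h2]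
    have h1 := DFunLike.congr_fun key (hφ.toLp φ)
    rw [pairing_ind] at h1
    simp only [ContinuousLinearMap.comp_apply, ContinuousLinearMap.flip_apply,
      ContinuousLinearMap.holderL_apply_apply] at h1
    have h2 : (ContinuousLinearMap.mul ℂ ℂ).holder p (hφ.toLp φ) J = hφ.toLp φ := by
      ext1
      filter_upwards [hJe (hφ.toLp φ), hφ.coeFn_toLp] with x h1 h2
      rw [h1]
      by_cases h : x ∈ B n <;> simp [h, h2, hφ0]
    have h3 : ∫ x, φ x * k x ∂μ = Λ (hφ.toLp φ) := by
      rw [← h2, h1]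
      refine integral_congr_ae ?_
      filter_upwards [hφ.coeFn_toLp] with x hx
      rw [hx]
      by_cases h : x ∈ B n <;> simp [h, hφ0]
    rw [h3, ← Lp.enorm_toLp hφ]
    exact Λ.le_opENorm _
  have htest : ∀ (n : ℕ) (w : α → ℝ), Measurable w → (∀ x, 0 ≤ w x) → (∀ x ∉ B n, w x = 0) →
      ∀ M : ℝ, (∀ x, w x ≤ M) →
      ∫⁻ x, ENNReal.ofReal (w x * ‖k x‖) ∂μ ≤ ‖Λ‖ₑ * eLpNorm w p μ := by
    intro n w hw hw0 hwB M hM
    have hb : ∀ x, ‖(w x : ℂ) * ((‖k x‖ : ℂ) / k x)‖ ≤ ‖w x‖ := fun x => by
      rw [norm_mul, Complex.norm_real, norm_div, Complex.norm_real, norm_norm]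
      exact mul_le_of_le_one_right (norm_nonneg _) (div_self_le_one _)
    have hwp : MemLp w p μ := MemLp.of_bound hw.aestronglyMeasurable M (.of_forall fun x => by
      rw [Real.norm_of_nonneg (hw0 x)]
      exact hM x)
    have hme : Measurable fun x => (w x : ℂ) * ((‖k x‖ : ℂ) / k x) := by fun_prop
    have h1 := hφ n _ (hwp.of_le hme.aestronglyMeasurable (.of_forall hb)) fun x hx => by
      simp [hwB x hx]
    have h2 : ∀ x, (w x : ℂ) * ((‖k x‖ : ℂ) / k x) * k x = ((w x * ‖k x‖ : ℝ) : ℂ) := fun x => by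
      by_cases h : k x = 0
      · simp [h]
      · push_cast
        field_simp
    simp_rw [h2] at h1
    have hi : Integrable (fun x => w x * ‖k x‖) μ :=
      Integrable.bdd_mul (c := M) (i1.ofReal.add (i2.ofReal.mul_const _)).norm
        hw.aestronglyMeasurable (.of_forall fun x => by
          rw [Real.norm_of_nonneg (hw0 x)]
          exact hM x)
    have h0 : ∀ x, 0 ≤ w x * ‖k x‖ := fun x => mul_nonneg (hw0 x) (norm_nonneg _)
    rw [integral_complex_ofReal, ← ofReal_norm, Complex.norm_real,
      Real.norm_of_nonneg (integral_nonneg h0),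
      ofReal_integral_eq_lintegral_ofReal hi (.of_forall h0)] at h1
    exact h1.trans (mul_le_mul' le_rfl (eLpNorm_mono hb))
  have hkq : MemLp k q μ := by
    by_cases hq : q = ∞
    · subst hq
      obtain rfl : p = 1 := (ENNReal.HolderConjugate.eq_top_iff_eq_one ∞ p).1 rfl
      refine memLp_top_of_bound hm.aestronglyMeasurable (‖Λ‖ + 1) ?_
      have : ∀ n : ℕ, μ (B n ∩ {x | ‖Λ‖ + 1 < ‖k x‖}) = 0 := fun n => by
        set S := B n ∩ {x | ‖Λ‖ + 1 < ‖k x‖} with hS
        have hSm : MeasurableSet S := (hBm n).inter (measurableSet_lt measurable_const hm.norm)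
        have h1 := htest n (S.indicator fun _ => 1) (measurable_const.indicator hSm)
          (fun x => indicator_nonneg (by simp) x)
          (fun x hx => indicator_of_notMem (fun h => hx h.1) _) 1
          (fun x => indicator_le_self' (by simp) x)
        rw [eLpNorm_indicator_const hSm one_ne_zero ENNReal.one_ne_top] at h1
        have h2 : ENNReal.ofReal (‖Λ‖ + 1) * μ S ≤
            ∫⁻ x, ENNReal.ofReal (S.indicator (fun _ => 1) x * ‖k x‖) ∂μ := by
          rw [← lintegral_indicator_const hSm]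
          refine lintegral_mono fun x => ?_
          by_cases h : x ∈ S
          · simp only [indicator_of_mem h, one_mul]
            exact ENNReal.ofReal_le_ofReal (le_of_lt h.2)
          · simp [h]
        have h3 := h2.trans h1
        rw [ENNReal.ofReal_add (norm_nonneg _) zero_le_one, ofReal_norm, add_mul] at h3
        simp only [ENNReal.ofReal_one, one_mul, enorm_one, ENNReal.toReal_one, div_one,
          ENNReal.rpow_one] at h3
        have h4 := (ENNReal.add_le_add_iff_left (ENNReal.mul_ne_top enorm_ne_top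
          (measure_ne_top μ S))).1 (h3.trans_eq (add_zero _).symm)
        simpa using h4
      refine measure_mono_null (fun x hx => ?_) (measure_iUnion_null this)
      obtain ⟨n, hn⟩ := exists_nat_ge ‖k x‖
      exact mem_iUnion.2 ⟨n, hn, not_le.1 (show ¬ ‖k x‖ ≤ ‖Λ‖ + 1 from hx)⟩
    have hPQ : p.toReal.HolderConjugate q.toReal :=
      ENNReal.HolderConjugate.toReal (by
        rw [← ENNReal.toReal_one, ENNReal.toReal_lt_toReal ENNReal.one_ne_top hp]
        exact (ENNReal.HolderConjugate.lt_top_iff_one_lt q p).1 (lt_top_iff_ne_top.2 hq))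
    set P := p.toReal with hP
    set Q := q.toReal with hQ
    have hQ1 := hPQ.symm.lt
    have hn : ∀ n : ℕ, ∫⁻ x, (B n).indicator (fun x => ‖k x‖ₑ ^ Q) x ∂μ ≤ ‖Λ‖ₑ ^ Q := fun n => by
      have h1 := htest n ((B n).indicator fun x => ‖k x‖ ^ (Q - 1))
        (Measurable.indicator (by fun_prop) (hBm n))
        (fun x => indicator_nonneg (fun _ _ => by positivity) x)
        (fun x hx => indicator_of_notMem hx _) (n ^ (Q - 1)) (fun x => by
          by_cases h : x ∈ B n
          · rw [indicator_of_mem h]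
            exact Real.rpow_le_rpow (norm_nonneg _) h (by linarith)
          · rw [indicator_of_notMem h]
            positivity)
      rw [eLpNorm_eq_lintegral_rpow_enorm_toReal (ENNReal.HolderConjugate.ne_zero p q) hp] at h1
      have a1 : ∀ x, ENNReal.ofReal ((B n).indicator (fun x => ‖k x‖ ^ (Q - 1)) x * ‖k x‖) =
          (B n).indicator (fun x => ‖k x‖ₑ ^ Q) x := fun x => by
        by_cases h : x ∈ B n
        · simp only [indicator_of_mem h]
          rw [← Real.rpow_add_one' (norm_nonneg _) (by linarith), sub_add_cancel, ← ofReal_norm,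
            ENNReal.ofReal_rpow_of_nonneg (norm_nonneg _) (by linarith)]
        · simp [h]
      have a2 : ∀ x, ‖(B n).indicator (fun x => ‖k x‖ ^ (Q - 1)) x‖ₑ ^ p.toReal =
          (B n).indicator (fun x => ‖k x‖ₑ ^ Q) x := fun x => by
        by_cases h : x ∈ B n
        · simp only [indicator_of_mem h]
          rw [← ofReal_norm, Real.norm_of_nonneg (by positivity),
            ENNReal.ofReal_rpow_of_nonneg (by positivity) hPQ.nonneg,
            ← Real.rpow_mul (norm_nonneg _), hPQ.symm.sub_one_mul_conj, ← ofReal_norm,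
            ENNReal.ofReal_rpow_of_nonneg (norm_nonneg _) (by linarith)]
        · simp [h, ← hP, hPQ.pos]
      simp_rw [a1, a2] at h1
      set J := ∫⁻ x, (B n).indicator (fun x => ‖k x‖ₑ ^ Q) x ∂μ with hJ
      have hJf : J ≠ ∞ := by
        refine ne_top_of_le_ne_top (b := ∫⁻ _, (n : ℝ≥0∞) ^ Q ∂μ) ?_ (lintegral_mono fun x => ?_)
        · rw [lintegral_const]
          exact ENNReal.mul_ne_top (ENNReal.rpow_ne_top_of_nonneg (by linarith) (by simp))
            (measure_ne_top _ _)
        · by_cases h : x ∈ B n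
          · rw [indicator_of_mem h]
            refine ENNReal.rpow_le_rpow ?_ (by linarith)
            rw [← ofReal_norm, ← ENNReal.ofReal_natCast]
            exact ENNReal.ofReal_le_ofReal h
          · simp [h]
      by_cases hJ0 : J = 0
      · simp [hJ0]
      have h2 : J ^ (1 / Q) * J ^ (1 / P) ≤ ‖Λ‖ₑ * J ^ (1 / P) := by
        rw [← ENNReal.rpow_add _ _ hJ0 hJf, one_div, one_div, hPQ.symm.inv_add_inv_eq_one,
          ENNReal.rpow_one, ← one_div]
        exact h1
      rw [ENNReal.mul_le_mul_iff_left (by simp [hJ0, hJf]) (by simp [hJ0, hJf])] at h2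
      have h3 := ENNReal.rpow_le_rpow h2 hPQ.symm.nonneg
      rwa [← ENNReal.rpow_mul, one_div_mul_cancel hPQ.symm.ne_zero, ENNReal.rpow_one] at h3
    refine ⟨hm.aestronglyMeasurable, ?_⟩
    rw [eLpNorm_lt_top_iff_lintegral_rpow_enorm_lt_top (ENNReal.HolderConjugate.ne_zero q p) hq]
    refine lt_of_le_of_lt (b := ‖Λ‖ₑ ^ Q) ?_
      (ENNReal.rpow_lt_top_of_nonneg (by linarith) enorm_ne_top)
    refine le_trans ?_ (iSup_le hn)
    rw [← lintegral_iSup (fun n => Measurable.indicator (by fun_prop) (hBm n))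
      fun m n hmn => indicator_le_indicator_of_subset
        (fun x (hx : ‖k x‖ ≤ m) => hx.trans (by exact_mod_cast hmn)) (fun _ => bot_le)]
    refine lintegral_mono fun x => ?_
    obtain ⟨n, hn⟩ := exists_nat_ge ‖k x‖
    exact le_iSup_of_le n (by rw [indicator_of_mem (show x ∈ B n from hn)])
  refine ⟨k, hm, hkq, fun f => ?_⟩
  have : Λ = ((ContinuousLinearMap.mul ℂ ℂ).lpPairing μ p q).flip (hkq.toLp k) :=
    ext_ind hp fun A hA' => by rw [pairing_ind, hind, hA]
  rw [← pairing_ind hkq, ← this]

end Pool.Agent.P.MP_56bcbf_an
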