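import Pool.Agent.P.MP_56bcbf_an.Vanish
import Pool.Agent.P.MP_56bcbf_an.Annihilate
import Pool.Agent.P.MP_56bcbf_an.Arc
import Pool.Agent.P.MP_56bcbf_an.Duality
import Pool.Agent.P.MP_56bcbf_an.Closed

/-! Polynomial approximation in the mean on thin crescents. -/

namespace Pool.Agent.P.MP_56bcbf_an

open Set Metric Filter Topology Complex MeasureTheory Real
open scoped ENNReal

theorem memLp_eval {Ω : Set ℂ} (hΩ : MeasurableSet Ω) (hb : Bornology.IsBounded Ω) (p : ℝ≥0∞)
    {h : ℂ → ℂ} (hc : Continuous h) : MemLp h p (volume.restrict Ω) := by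
  have : IsFiniteMeasure (volume.restrict Ω) := ⟨by simpa using hb.measure_lt_top⟩
  obtain ⟨M, hM⟩ := hb.isCompact_closure.exists_bound_of_continuousOn hc.continuousOn
  refine MemLp.of_bound hc.aestronglyMeasurable M ?_
  filter_upwards [ae_restrict_mem hΩ] with z hz using hM z (subset_closure hz)

theorem approx_of_annihilate {Ω : Set ℂ} (hΩ : MeasurableSet Ω) (hb : Bornology.IsBounded Ω)
    {p q : ℝ≥0∞} [p.HolderConjugate q] (hp : p ≠ ∞) {f : ℂ → ℂ}
    (hf : MemLp f p (volume.restrict Ω))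
    (h : ∀ k : ℂ → ℂ, Measurable k → Integrable k → MemLp k q volume → (∀ w ∉ Ω, k w = 0) →
      (∀ n : ℕ, ∫ w, w ^ n * k w = 0) → ∫ w, f w * k w = 0) {ε : ℝ≥0∞} (hε : 0 < ε) :
    ∃ P : Polynomial ℂ, eLpNorm (fun z => f z - P.eval z) p (volume.restrict Ω) < ε := by
  have : Fact (1 ≤ p) := ⟨ENNReal.HolderConjugate.one_le p q⟩
  have : IsFiniteMeasure (volume.restrict Ω) := ⟨by simpa using hb.measure_lt_top⟩
  set μ := volume.restrict Ω with hμ
  have hmon : ∀ n : ℕ, MemLp (fun z : ℂ => z ^ n) p μ := fun n => memLp_eval hΩ hb p (by fun_prop)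
  set S : Submodule ℂ (Lp ℂ p μ) := Submodule.span ℂ (range fun n => (hmon n).toLp _) with hS
  have hSP : ∀ F ∈ S, ∃ P : Polynomial ℂ, F =ᵐ[μ] fun z => P.eval z := by
    intro F hF
    induction hF using Submodule.span_induction with
    | mem x hx =>
      obtain ⟨n, rfl⟩ := hx
      exact ⟨Polynomial.X ^ n, by simpa using (hmon n).coeFn_toLp⟩
    | zero => exact ⟨0, (Lp.coeFn_zero ℂ p μ).trans (.of_forall fun z => by simp)⟩
    | add x y _ _ hx hy =>
      obtain ⟨P, hP⟩ := hx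
      obtain ⟨Q, hQ⟩ := hy
      refine ⟨P + Q, ?_⟩
      filter_upwards [Lp.coeFn_add x y, hP, hQ] with z h1 h2 h3
      rw [h1, Pi.add_apply, h2, h3, Polynomial.eval_add]
    | smul a x _ hx =>
      obtain ⟨P, hP⟩ := hx
      refine ⟨a • P, ?_⟩
      filter_upwards [Lp.coeFn_smul a x, hP] with z h1 h2
      simp [h1, h2]
  have hmem : hf.toLp f ∈ closure (S : Set (Lp ℂ p μ)) := by
    by_contra hn
    obtain ⟨Λ, u, h1, h2⟩ := RCLike.geometric_hahn_banach_point_closed (𝕜 := ℂ)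
      (S.restrictScalars ℝ).convex.closure isClosed_closure hn
    have h3 : ∀ F ∈ S, Λ F = 0 := fun F hF => by
      by_contra h0
      have := h2 _ (subset_closure (S.smul_mem (u / Λ F) hF))
      simp [div_mul_cancel₀ _ h0] at this
    obtain ⟨k, hm, hk, hΛ⟩ := exists_density (q := q) hp Λ
    have h4 : ∀ {φ : ℂ → ℂ} (hφ : MemLp φ p μ), Λ (hφ.toLp φ) = ∫ w, φ w * Ω.indicator k w := by
      intro φ hφ
      simp_rw [← indicator_mul_right]
      rw [hΛ, integral_indicator hΩ]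
      refine integral_congr_ae ?_
      filter_upwards [hφ.coeFn_toLp] with z hz
      rw [hz]
    have h5 := h (Ω.indicator k) (hm.indicator hΩ)
      ((integrable_indicator_iff hΩ).2 (hk.integrable (ENNReal.HolderConjugate.one_le q p)))
      ((memLp_indicator_iff_restrict hΩ).2 hk) (fun w hw => indicator_of_notMem hw _)
      fun n => by rw [← h4 (hmon n)]; exact h3 _ (Submodule.subset_span ⟨n, rfl⟩)
    have h6 := h2 0 (subset_closure S.zero_mem)
    rw [h4 hf, h5] at h1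
    simp only [map_zero] at h1 h6
    linarith
  obtain ⟨F, hF, hd⟩ := EMetric.mem_closure_iff.1 hmem ε hε
  obtain ⟨P, hP⟩ := hSP F hF
  refine ⟨P, lt_of_eq_of_lt ?_ hd⟩
  rw [Lp.edist_def]
  refine eLpNorm_congr_ae ?_
  filter_upwards [hf.coeFn_toLp, hP] with z h1 h2
  simp [h1, h2]

theorem core {D : Set ℂ} (hD : IsOpen D) (hb : Bornology.IsBounded D) {γ : Circle → ℂ}
    (hγ : Continuous γ) (hγi : Function.Injective γ) (hfr : frontier D = range γ) {ψ : ℂ → ℂ}
    (hd : DifferentiableOn ℂ ψ (ball 0 1)) (hi : InjOn ψ (ball 0 1)) {U : Set ℂ}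
    (hU : ψ '' ball 0 1 = U) (hUD : U ⊆ D)
    (hthin : ∀ M : ℝ, ∃ r ∈ Ico (1 / 2 : ℝ) 1, ENNReal.ofReal M < ∫⁻ t in Ioo (-π) π,
      (-ENNReal.log (ENNReal.ofReal (infDist (ψ (circleMap 0 r t)) Dᶜ))).toENNReal)
    {p : ℝ≥0∞} (hp1 : 1 ≤ p) (hp : p ≠ ∞) {f g : ℂ → ℂ}
    (hf : MemLp f p (volume.restrict (interior (D \ U))))
    (hg : DifferentiableOn ℂ g (interior (D \ U)))
    (hfg : f =ᵐ[volume.restrict (interior (D \ U))] g) {ε : ℝ≥0∞} (hε : 0 < ε) :
    ∃ P : Polynomial ℂ,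
      eLpNorm (fun z => f z - P.eval z) p (volume.restrict (interior (D \ U))) < ε := by
  classical
  set Ω := interior (D \ U) with hΩd
  have hΩ : IsOpen Ω := isOpen_interior
  have hΩm := hΩ.measurableSet
  have hΩD : Ω ⊆ D := interior_subset.trans sdiff_subset
  have := ENNReal.HolderConjugate.conjExponent hp1
  refine approx_of_annihilate (q := p.conjExponent) hΩm (hb.subset hΩD) hp hf
    (fun k hm hk hkq h0 hP => ?_) hε
  obtain ⟨R, hR0, hR⟩ := hb.subset_ball_lt 0 0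
  have hUo : IsOpen U := hU ▸ isOpen_image isOpen_ball hd hi isOpen_ball subset_rfl
  have hUc : IsPreconnected U := hU ▸ (convex_ball 0 1).isPreconnected.image _ hd.continuousOn
  have h00 : ψ 0 ∈ U := hU ▸ mem_image_of_mem ψ (by simp)
  have h01 : ψ (1 / 2) ∈ U := hU ▸ mem_image_of_mem ψ (by norm_num)
  have hne : ψ (1 / 2) ≠ ψ 0 := fun h => by simpa using hi (by norm_num) (by simp) h
  obtain ⟨E, hE, hED, hEu, hfE⟩ := exists_outer hD ⟨_, hUD h00⟩ hb hγ hγi hfr
  have hEΩ : E ⊆ (closure Ω)ᶜ := hED.trans (compl_subset_compl.2 (closure_mono hΩD))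
  have hUΩ : U ⊆ (closure Ω)ᶜ := fun z hz h => by
    obtain ⟨w, hw, hw'⟩ := mem_closure_iff.1 h U hUo hz
    exact (interior_subset hw').2 hw
  have hout : (R : ℂ) ∈ Dᶜ := fun h => by simpa [abs_of_pos hR0] using hR h
  obtain ⟨e, he, heR⟩ := hEu (R + 1)
  have hE0 := cauchy_eq_zero hm hk h0 (hΩD.trans hR) hR0 hP hE hEΩ he (by linarith)
  have hvol : volume Ω ≠ ∞ := (hb.subset hΩD).measure_lt_top.ne
  obtain ⟨p0, q0, hpq0, hkq0, -⟩ := young_pow hp hm hkq hvol
  set ψ' := (ball (0 : ℂ) 1).piecewise ψ 0 with hψ'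
  have hψe : EqOn ψ' ψ (ball 0 1) := piecewise_eqOn _ _ _
  have hU0 : ∀ u ∈ U, cauchy k u = 0 := by
    have := vanish hΩm hm hk h0 hR0 hpq0 hkq0 hE hEΩ hE0 hEu hD hR hΩD
      (fun z hz => by
        obtain ⟨x, hx, -, h⟩ := exists_near (E := E) hD ⟨_, hout⟩ hz
        exact h (hfE hx)) (ψ := ψ')
      (hd.continuousOn.measurable_piecewise continuousOn_const measurableSet_ball)
      (hd.congr hψe) (hi.congr hψe.symm) (by rw [hψe.image_eq, hU]; exact hUD)
      (by rw [hψe.image_eq, hU]; exact hUΩ) fun M => by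
        obtain ⟨r, hr, h⟩ := hthin M
        refine ⟨r, hr, ?_⟩
        simp_rw [fun t => hψe (circleMap_mem (by linarith [hr.1]) hr.2 t)]
        exact h
    rw [← hU]
    rintro _ ⟨u, hu, rfl⟩
    rw [← hψe hu]
    exact this u hu
  set g' := Ω.piecewise g 0 with hg'
  have hge : EqOn g' g Ω := piecewise_eqOn _ _ _
  have hfg' : f =ᵐ[volume.restrict Ω] g' := by
    filter_upwards [hfg, ae_restrict_mem hΩm] with z h1 h2
    rw [h1, hge h2]
  have hg0 : ∀ w ∉ Ω, g' w = 0 := fun w hw => piecewise_eq_of_notMem _ _ _ hw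
  have key := annihilate hΩ (hΩD.trans hR) hR0 hp hm hk hkq h0 (g := g')
    (hg.continuousOn.measurable_piecewise continuousOn_const hΩm) hg0 (hg.congr hge)
    (by
      rw [← indicator_eq_self.2 (show Function.support g' ⊆ Ω from fun w hw => by
        by_contra h
        exact hw (hg0 w h)), memLp_indicator_iff_restrict hΩm]
      exact hf.ae_eq hfg')
    (d0 := ‖ψ (1 / 2) - ψ 0‖ / 6) (by have := norm_pos_iff.2 (sub_ne_zero.2 hne); positivity)
    fun z hz hzd => by
      have hne' : Ωᶜ.Nonempty := ⟨_, fun h => hout (hΩD h)⟩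
      obtain ⟨x, hx, hxz, h1⟩ := exists_near (E := U) hΩ hne' hz
      by_cases hxU : x ∈ closure U
      · refine ⟨U, hUc, hUΩ, hU0, h1 hxU, ?_⟩
        by_contra! hc
        have := norm_sub_le_norm_sub_add_norm_sub (ψ (1 / 2)) z (ψ 0)
        rw [norm_sub_rev z] at this
        linarith [hc _ h00, hc _ h01]
      have hxE : x ∈ closure E := by
        rw [hΩ.frontier_eq] at hx
        refine hfE ?_
        rw [hD.frontier_eq]
        refine ⟨closure_mono hΩD hx.1, fun hxD => hx.2 ?_⟩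
        exact interior_maximal (s := D \ U) (t := D \ closure U)
          (fun y hy => ⟨hy.1, fun h => hy.2 (subset_closure h)⟩)
          (hD.sdiff isClosed_closure) ⟨hxD, hxU⟩
      obtain ⟨e1, he1, hed⟩ := Metric.mem_closure_iff.1 hxE _
        ((hΩ.isClosed_compl.notMem_iff_infDist_pos hne').1 (fun h => h hz))
      obtain ⟨e2, he2, hfar⟩ := hEu (‖z‖ + 3 * infDist z Ωᶜ)
      refine ⟨E, hE, hEΩ, hE0, ⟨e1, he1, ?_⟩, e2, he2, ?_⟩
      · rw [dist_comm, dist_eq_norm] at hed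
        linarith [norm_sub_le_norm_sub_add_norm_sub e1 x z]
      · linarith [norm_sub_norm_le e2 z]
  rw [← key, ← setIntegral_eq_integral_of_forall_compl_eq_zero (s := Ω) fun w hw => by
    simp [h0 w hw], ← setIntegral_eq_integral_of_forall_compl_eq_zero (s := Ω)
      (f := fun w => g' w * k w) fun w hw => by simp [h0 w hw]]
  refine integral_congr_ae ?_
  filter_upwards [hfg'] with z hz
  rw [hz]

end Pool.Agent.P.MP_56bcbf_an
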