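import Pool.Agent.P.MP_56bcbf_an.Average

/-! The Cauchy transform of an area density. -/

namespace Pool.Agent.P.MP_56bcbf_an

open Set Metric Filter Topology Complex MeasureTheory Real
open scoped ENNReal

/-- The Cauchy transform. -/
noncomputable def cauchy (k : ℂ → ℂ) (z : ℂ) : ℂ := ∫ w, k w / (w - z)

variable {k : ℂ → ℂ} {Ω : Set ℂ}

theorem exists_sep {z : ℂ} (hz : z ∉ closure Ω) :
    ∃ ρ > 0, ∀ x ∈ ball z ρ, ∀ w ∈ Ω, ρ ≤ ‖w - x‖ := by
  obtain ⟨r, hr0, hr⟩ := Metric.isOpen_iff.1 isClosed_closure.isOpen_compl z hz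
  refine ⟨r / 2, by positivity, fun x hx w hw => ?_⟩
  by_contra h
  push Not at h
  refine hr (show w ∈ ball z r from ?_) (subset_closure hw)
  rw [← dist_eq_norm] at h
  rw [mem_ball]
  linarith [mem_ball.1 hx, dist_triangle w x z]

theorem integrable_div (hm : Measurable k) (hk : Integrable k) (h0 : ∀ w ∉ Ω, k w = 0) {z : ℂ}
    (hz : z ∉ closure Ω) : Integrable fun w => k w / (w - z) := by
  obtain ⟨ρ, hρ, h⟩ := exists_sep hz
  refine Integrable.mono' (hk.norm.div_const ρ) (Measurable.aestronglyMeasurable (by fun_prop))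
    (.of_forall fun w => ?_)
  by_cases hw : w ∈ Ω
  · rw [norm_div]
    gcongr
    exact h z (mem_ball_self hρ) w hw
  · simp [h0 w hw]

theorem differentiableOn_cauchy (hm : Measurable k) (hk : Integrable k)
    (h0 : ∀ w ∉ Ω, k w = 0) : DifferentiableOn ℂ (cauchy k) (closure Ω)ᶜ := by
  intro z hz
  obtain ⟨ρ, hρ, h⟩ := exists_sep hz
  refine (hasDerivAt_integral_of_dominated_loc_of_deriv_le (F := fun x w => k w / (w - x))
    (F' := fun x w => k w / (w - x) ^ 2) (bound := fun w => ‖k w‖ / ρ ^ 2) (ball_mem_nhds z hρ)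
    (.of_forall fun x => Measurable.aestronglyMeasurable (by fun_prop))
    (integrable_div hm hk h0 hz) (Measurable.aestronglyMeasurable (by fun_prop))
    (.of_forall fun w x hx => ?_) (hk.norm.div_const _)
    (.of_forall fun w x hx => ?_)).2.differentiableAt.differentiableWithinAt
  · by_cases hw : w ∈ Ω
    · rw [norm_div, norm_pow]
      gcongr
      exact h x hx w hw
    · simp [h0 w hw]
  · by_cases hw : w ∈ Ω
    · have hne : w - x ≠ 0 := norm_pos_iff.1 (hρ.trans_le (h x hx w hw))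
      have := (hasDerivAt_const x (k w)).div ((hasDerivAt_id x).const_sub w) hne
      convert! this using 1
      simp
    · simpa [h0 w hw] using hasDerivAt_const x (0 : ℂ)

theorem cauchy_far (hm : Measurable k) (hk : Integrable k) (h0 : ∀ w ∉ Ω, k w = 0) {R : ℝ}
    (hR : Ω ⊆ ball 0 R) (hP : ∀ n : ℕ, ∫ w, w ^ n * k w = 0) {z : ℂ} (hR0 : 0 < R)
    (hz : R < ‖z‖) : cauchy k z = 0 := by
  have hz0 : 0 < ‖z‖ := hR0.trans hz
  have hb : ∀ (n : ℕ) w, ‖-(z⁻¹ ^ (n + 1)) * (w ^ n * k w)‖ ≤ ‖z‖⁻¹ * (R / ‖z‖) ^ n * ‖k w‖ := by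
    intro n w
    by_cases hw : w ∈ Ω
    · have := (mem_ball_zero_iff.1 (hR hw)).le
      rw [norm_mul, norm_neg, norm_mul, norm_pow, norm_pow, norm_inv, div_eq_mul_inv, mul_pow]
      calc ‖z‖⁻¹ ^ (n + 1) * (‖w‖ ^ n * ‖k w‖) ≤ ‖z‖⁻¹ ^ (n + 1) * (R ^ n * ‖k w‖) := by gcongr
        _ = _ := by ring
    · simp [h0 w hw]
  have hi : ∀ n : ℕ, Integrable fun w => -(z⁻¹ ^ (n + 1)) * (w ^ n * k w) := fun n =>
    Integrable.mono' (hk.norm.const_mul _) (Measurable.aestronglyMeasurable (by fun_prop))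
      (.of_forall (hb n))
  have hs := hasSum_integral_of_summable_integral_norm hi (Summable.of_nonneg_of_le
    (fun n => integral_nonneg fun w => norm_nonneg _)
    (fun n => integral_mono (hi n).norm (hk.norm.const_mul _) (hb n)) (by
      simp_rw [integral_const_mul]
      exact ((summable_geometric_of_lt_one (by positivity)
        ((div_lt_one hz0).2 hz)).mul_left _).mul_right _))
  simp_rw [integral_const_mul, hP, mul_zero] at hs
  rw [cauchy, ← hasSum_zero.unique hs |>.symm]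
  congr 1
  funext w
  by_cases hw : w ∈ Ω
  · have hwz : ‖w‖ < ‖z‖ := (mem_ball_zero_iff.1 (hR hw)).trans hz
    have hzne : z ≠ 0 := norm_pos_iff.1 hz0
    have h1 : ‖w / z‖ < 1 := by rwa [norm_div, div_lt_one hz0]
    have h2 := (hasSum_geometric_of_norm_lt_one h1).mul_left (-(z⁻¹ * k w))
    have h3 : w - z ≠ 0 := sub_ne_zero.2 fun h => by simp [h] at hwz
    have h4 : z - w ≠ 0 := sub_ne_zero.2 fun h => by simp [h] at hwz
    symm
    refine HasSum.tsum_eq ?_
    convert! h2 using 1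
    · funext n
      rw [div_eq_mul_inv]
      ring
    · field_simp
      ring
  · simp [h0 w hw]

theorem cauchy_eq_zero (hm : Measurable k) (hk : Integrable k) (h0 : ∀ w ∉ Ω, k w = 0) {R : ℝ}
    (hR : Ω ⊆ ball 0 R) (hR0 : 0 < R) (hP : ∀ n : ℕ, ∫ w, w ^ n * k w = 0) {E : Set ℂ}
    (hE : IsPreconnected E) (hEΩ : E ⊆ (closure Ω)ᶜ) {e : ℂ} (he : e ∈ E) (heR : R < ‖e‖) :
    ∀ z ∈ E, cauchy k z = 0 := by
  have ha := ((differentiableOn_cauchy hm hk h0).analyticOnNhd
    isClosed_closure.isOpen_compl).mono hEΩ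
  refine ha.eqOn_zero_of_preconnected_of_eventuallyEq_zero hE he ?_
  filter_upwards [(isOpen_lt continuous_const continuous_norm).mem_nhds heR] with z hz
  exact cauchy_far hm hk h0 hR hP hR0 hz

theorem enorm_cauchy_le {z e : ℂ} (he : Integrable fun w => k w / (w - e))
    (he0 : cauchy k e = 0) {K : ℂ → ℝ≥0∞}
    (hK : ∀ w, w ≠ z → w ≠ e → ENNReal.ofReal (‖e - z‖ / (‖w - z‖ * ‖w - e‖)) ≤ K w) :
    ‖cauchy k z‖ₑ ≤ ∫⁻ w, ‖k w‖ₑ * K w := by
  by_cases hz : Integrable fun w => k w / (w - z)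
  · rw [← sub_zero (cauchy k z), ← he0, cauchy, cauchy, ← integral_sub hz he]
    refine (enorm_integral_le_lintegral_enorm _).trans (lintegral_mono_ae ?_)
    filter_upwards [compl_mem_ae_iff.2 (measure_singleton z),
      compl_mem_ae_iff.2 (measure_singleton e)] with w h1 h2
    refine le_trans (le_of_eq ?_) (mul_le_mul_right (hK w h1 h2) _)
    have a1 : w - z ≠ 0 := sub_ne_zero.2 h1
    have a2 : w - e ≠ 0 := sub_ne_zero.2 h2
    rw [show k w / (w - z) - k w / (w - e) = k w * ((z - e) / ((w - z) * (w - e))) by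
      field_simp; ring, enorm_mul, ← ofReal_norm ((z - e) / _), norm_div, norm_mul,
      norm_sub_rev z e]
  · rw [cauchy, integral_undef hz]
    simp

end Pool.Agent.P.MP_56bcbf_an
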