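import Mathlib

/-! Definitions for polynomial density on crescents. -/

namespace Pool.Agent.P.MP_56bcbf_an

open MeasureTheory

/-- A bounded domain whose boundary is a Jordan curve. -/
def IsJordanDomain (D : Set ℂ) : Prop :=
  IsOpen D ∧ IsConnected D ∧ Bornology.IsBounded D ∧
    ∃ γ : Circle → ℂ, Continuous γ ∧ Function.Injective γ ∧ frontier D = Set.range γ

/-- Harmonic measure of a Jordan domain at `a`: the image of normalised arc length under the
boundary values of the Riemann map sending `0` to `a`. -/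
def IsHarmonicMeasure (U : Set ℂ) (a : ℂ) (ω : Measure ℂ) : Prop :=
  ∃ ψ : ℂ → ℂ, ContinuousOn ψ (Metric.closedBall 0 1) ∧ Set.InjOn ψ (Metric.closedBall 0 1) ∧
    DifferentiableOn ℂ ψ (Metric.ball 0 1) ∧ ψ '' Metric.ball 0 1 = U ∧ ψ 0 = a ∧
    ω = Measure.map (fun t : ℝ => ψ (Complex.exp (t * Complex.I)))
      ((ENNReal.ofReal (2 * Real.pi))⁻¹ • volume.restrict (Set.Ioo (-Real.pi) Real.pi))

/-- The negative part of `log dist(z, ℂ \ D)` has infinite integral for harmonic measure. -/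
def Thin (D U : Set ℂ) : Prop :=
  ∃ a ∈ U, ∃ ω : Measure ℂ, IsHarmonicMeasure U a ω ∧
    ∫⁻ z, (-ENNReal.log (ENNReal.ofReal (Metric.infDist z (D)ᶜ))).toENNReal ∂ω = ⊤

/-- The `L^p` closure of the polynomials. -/
def Hp (p : ENNReal) (Ω : Set ℂ) : Set (ℂ → ℂ) :=
  {f | MemLp f p (volume.restrict Ω) ∧ ∀ ε : ENNReal, 0 < ε →
    ∃ P : Polynomial ℂ, eLpNorm (fun z => f z - P.eval z) p (volume.restrict Ω) < ε}

/-- The `L^p` functions that are analytic up to a null set. -/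
def Lpa (p : ENNReal) (Ω : Set ℂ) : Set (ℂ → ℂ) :=
  {f | MemLp f p (volume.restrict Ω) ∧
    ∃ g : ℂ → ℂ, DifferentiableOn ℂ g Ω ∧ ∀ᵐ z ∂(volume.restrict Ω), f z = g z}

/-- The statement `(C_p)`. -/
def Cp (p : ENNReal) : Prop :=
  ∀ D U : Set ℂ, IsJordanDomain D → IsJordanDomain U → U ⊆ D → Thin D U →
    Hp p (interior (D \ U)) = Lpa p (interior (D \ U))

/-- The critical exponent `p*`. -/
noncomputable def pStar : ENNReal :=
  sSup {q : ENNReal | 1 ≤ q ∧ q ≠ ⊤ ∧ ∀ p : ENNReal, 1 ≤ p → p < q → Cp p}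

end Pool.Agent.P.MP_56bcbf_an
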