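import Mathlib

/-! Inverse of an injective holomorphic map, holomorphic logarithms, a crude Koebe estimate. -/

namespace Pool.Agent.P.MP_56bcbf_an

open Set Metric Filter Topology Complex

theorem nhds_le_map {ψ : ℂ → ℂ} {V : Set ℂ} (hV : IsOpen V) (hd : DifferentiableOn ℂ ψ V)
    (hi : InjOn ψ V) {z : ℂ} (hz : z ∈ V) : 𝓝 (ψ z) ≤ map ψ (𝓝 z) := by
  have ha : AnalyticAt ℂ ψ z := hd.analyticOnNhd hV z hz
  rcases ha.eventually_constant_or_nhds_le_map_nhds with h | h
  · exfalso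
    have h2 : ∀ᶠ w in 𝓝[≠] z, False := by
      filter_upwards [nhdsWithin_le_nhds h, nhdsWithin_le_nhds (hV.mem_nhds hz),
        self_mem_nhdsWithin] with w h1 h2 h3
      exact h3 (hi h2 hz h1)
    exact (h2.exists).elim fun _ h => h
  · exact h

theorem isOpen_image {ψ : ℂ → ℂ} {V : Set ℂ} (hV : IsOpen V) (hd : DifferentiableOn ℂ ψ V)
    (hi : InjOn ψ V) {W : Set ℂ} (hW : IsOpen W) (hWV : W ⊆ V) : IsOpen (ψ '' W) := by
  rw [isOpen_iff_mem_nhds]
  rintro _ ⟨z, hz, rfl⟩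
  exact nhds_le_map hV hd hi (hWV hz) (image_mem_map (hW.mem_nhds hz))

theorem exists_inverse {ψ : ℂ → ℂ} {V : Set ℂ} (hV : IsOpen V) (hd : DifferentiableOn ℂ ψ V)
    (hi : InjOn ψ V) : ∃ g : ℂ → ℂ, DifferentiableOn ℂ g (ψ '' V) ∧ ∀ z ∈ V, g (ψ z) = z := by
  classical
  set g : ℂ → ℂ := Function.invFunOn ψ V with hg
  have hl : ∀ z ∈ V, g (ψ z) = z := fun z hz => hi.leftInvOn_invFunOn hz
  have hc : ∀ z ∈ V, ContinuousAt g (ψ z) := by
    intro z hz
    rw [ContinuousAt, hl z hz]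
    refine (tendsto_map' ?_).mono_left (nhds_le_map hV hd hi hz)
    refine tendsto_id.congr' ?_
    filter_upwards [hV.mem_nhds hz] with w hw
    exact (hl w hw).symm
  have hO := isOpen_image hV hd hi hV subset_rfl
  have hr : ∀ y ∈ ψ '' V, ψ (g y) = y := by
    rintro _ ⟨z, hz, rfl⟩
    rw [hl z hz]
  have hdd : ∀ z ∈ V, deriv ψ z ≠ 0 → DifferentiableAt ℂ g (ψ z) := by
    intro z hz h0
    have h1 : HasDerivAt ψ (deriv ψ z) (g (ψ z)) := by
      rw [hl z hz]
      exact (hd.differentiableAt (hV.mem_nhds hz)).hasDerivAt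
    refine (HasDerivAt.of_local_left_inverse (hc z hz) h1 h0 ?_).differentiableAt
    filter_upwards [hO.mem_nhds (mem_image_of_mem ψ hz)] with y hy using hr y hy
  refine ⟨g, ?_, hl⟩
  rintro _ ⟨z, hz, rfl⟩
  refine (analyticAt_of_differentiable_on_punctured_nhds_of_continuousAt ?_
    (hc z hz)).differentiableAt.differentiableWithinAt
  have ha : AnalyticAt ℂ (deriv ψ) z := (hd.analyticOnNhd hV z hz).deriv
  rcases ha.eventually_eq_zero_or_eventually_ne_zero with h | h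
  · exfalso
    obtain ⟨r, hr0, hr⟩ := Metric.eventually_nhds_iff_ball.1 (h.and (hV.mem_nhds hz))
    have hcst : ∀ w ∈ ball z r, ψ w = ψ z := by
      intro w hw
      refine IsOpen.is_const_of_deriv_eq_zero isOpen_ball (convex_ball z r).isPreconnected
        (hd.mono fun x hx => (hr x hx).2) (fun x hx => (hr x hx).1) hw (mem_ball_self hr0)
    have h2 : ∀ᶠ w in 𝓝[≠] z, False := by
      filter_upwards [nhdsWithin_le_nhds (ball_mem_nhds z hr0), self_mem_nhdsWithin] with w h1 h3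
      exact h3 (hi (hr w h1).2 hz (hcst w h1))
    exact (h2.exists).elim fun _ h => h
  · rw [eventually_nhdsWithin_iff] at h ⊢
    have h3 : ∀ᶠ w in 𝓝 z, ψ w ∈ ({ψ z} : Set ℂ)ᶜ → DifferentiableAt ℂ g (ψ w) := by
      filter_upwards [h, hV.mem_nhds hz] with w h1 h2 h4
      refine hdd w h2 (h1 ?_)
      rintro rfl
      exact h4 rfl
    exact nhds_le_map hV hd hi hz h3

theorem deriv_mul_inverse {ψ g : ℂ → ℂ} {V : Set ℂ} (hV : IsOpen V)
    (hd : DifferentiableOn ℂ ψ V) (hi : InjOn ψ V) (hg : DifferentiableOn ℂ g (ψ '' V))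
    (hl : ∀ z ∈ V, g (ψ z) = z) {z : ℂ} (hz : z ∈ V) : deriv g (ψ z) * deriv ψ z = 1 := by
  have hO := isOpen_image hV hd hi hV subset_rfl
  have h1 := (hg.differentiableAt (hO.mem_nhds (mem_image_of_mem ψ hz))).hasDerivAt.comp z
    (hd.differentiableAt (hV.mem_nhds hz)).hasDerivAt
  have h2 : HasDerivAt (g ∘ ψ) 1 z := by
    refine (hasDerivAt_id z).congr_of_eventuallyEq ?_
    filter_upwards [hV.mem_nhds hz] with w hw using hl w hw
  exact h1.unique h2

theorem deriv_ne_zero {ψ : ℂ → ℂ} {V : Set ℂ} (hV : IsOpen V)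
    (hd : DifferentiableOn ℂ ψ V) (hi : InjOn ψ V) {z : ℂ} (hz : z ∈ V) : deriv ψ z ≠ 0 := by
  obtain ⟨g, hg, hl⟩ := exists_inverse hV hd hi
  have := deriv_mul_inverse hV hd hi hg hl hz
  intro h
  rw [h, mul_zero] at this
  exact zero_ne_one this

theorem exists_log {f : ℂ → ℂ} {c : ℂ} {r : ℝ} (hd : DifferentiableOn ℂ f (ball c r))
    (h0 : ∀ z ∈ ball c r, f z ≠ 0) :
    ∃ L : ℂ → ℂ, (∀ z ∈ ball c r, HasDerivAt L (deriv f z / f z) z) ∧
      ∀ z ∈ ball c r, exp (L z) = f z := by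
  rcases le_or_gt r 0 with hr | hr
  · exact ⟨0, by simp [ball_eq_empty.2 hr], by simp [ball_eq_empty.2 hr]⟩
  have h1 : DifferentiableOn ℂ (fun z => deriv f z / f z) (ball c r) :=
    (hd.deriv isOpen_ball).div hd h0
  obtain ⟨L, hL0, hL⟩ := h1.isExactOn_ball.with_val_at c (log (f c))
  refine ⟨L, hL, fun z hz => ?_⟩
  have hq : ∀ w ∈ ball c r, HasDerivAt (fun w => f w * exp (-L w)) 0 w := by
    intro w hw
    have := (hd.differentiableAt (isOpen_ball.mem_nhds hw)).hasDerivAt.mul (hL w hw).neg.cexp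
    convert! this using 1
    have := h0 w hw
    simp only [Pi.neg_apply]
    field_simp
    ring
  have hcst : f z * exp (-L z) = f c * exp (-L c) :=
    IsOpen.is_const_of_deriv_eq_zero (f := fun w => f w * exp (-L w)) isOpen_ball
      (convex_ball c r).isPreconnected
      (fun w hw => (hq w hw).differentiableAt.differentiableWithinAt)
      (fun w hw => (hq w hw).deriv) hz (mem_ball_self hr)
  rw [hL0, exp_neg, exp_neg, exp_log (h0 c (mem_ball_self hr)),
    mul_inv_cancel₀ (h0 c (mem_ball_self hr)), mul_inv_eq_one₀ (exp_ne_zero _)] at hcst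
  exact hcst.symm

/-- Crude Koebe estimate on a ball. -/
theorem koebe_ball {ψ : ℂ → ℂ} {z : ℂ} {ρ : ℝ} (hρ : 0 < ρ)
    (hd : DifferentiableOn ℂ ψ (ball z ρ)) (hi : InjOn ψ (ball z ρ))
    (hb : ψ '' ball z ρ ≠ univ) :
    ‖deriv (deriv ψ) z‖ * ρ ≤ 166400 * ‖deriv ψ z‖ := by
  obtain ⟨g, hg, hl⟩ := exists_inverse isOpen_ball hd hi
  set W := ψ '' ball z ρ with hW
  have hO : IsOpen W := isOpen_image isOpen_ball hd hi isOpen_ball subset_rfl
  have hne : (Wᶜ).Nonempty := nonempty_compl.2 hb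
  have hzW : ψ z ∈ W := mem_image_of_mem ψ (mem_ball_self hρ)
  obtain ⟨c, hc, hcd⟩ := hO.isClosed_compl.exists_infDist_eq_dist hne (ψ z)
  set d := dist (ψ z) c with hd'
  have hd0 : 0 < d := dist_pos.2 fun h => hc (h ▸ hzW)
  have hball : ball (ψ z) d ⊆ W := by
    rw [← hcd]
    exact ball_infDist_compl_subset
  have hgm : ∀ y ∈ W, g y ∈ ball z ρ ∧ ψ (g y) = y := by
    rintro _ ⟨u, hu, rfl⟩
    rw [hl u hu]
    exact ⟨hu, rfl⟩
  -- lower bound for the derivative
  have hlow : d ≤ ρ * ‖deriv ψ z‖ := by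
    have h1 : ‖deriv g (ψ z)‖ ≤ ρ / d := by
      refine norm_deriv_le_div_of_mapsTo_ball (hg.mono hball) ?_ hd0
      intro y hy
      rw [hl z (mem_ball_self hρ)]
      exact ball_subset_closedBall (hgm y (hball hy)).1
    have h2 := deriv_mul_inverse isOpen_ball hd hi hg hl (mem_ball_self hρ)
    have h3 : ‖deriv g (ψ z)‖ * ‖deriv ψ z‖ = 1 := by rw [← norm_mul, h2, norm_one]
    have h4 : 1 ≤ ρ / d * ‖deriv ψ z‖ := by
      rw [← h3]
      gcongr
    rw [div_mul_eq_mul_div, le_div_iff₀ hd0] at h4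
    linarith
  -- the square root
  have hne0 : ∀ u ∈ ball z ρ, ψ u - c ≠ 0 := fun u hu h =>
    hc (sub_eq_zero.1 h ▸ mem_image_of_mem ψ hu)
  obtain ⟨L, hL, hLe⟩ := exists_log (f := fun u => ψ u - c) (hd.sub_const c) hne0
  set s : ℂ → ℂ := fun u => exp (L u / 2) with hs
  have hsd : DifferentiableOn ℂ s (ball z ρ) := fun u hu =>
    ((hL u hu).differentiableAt.div_const 2).cexp.differentiableWithinAt
  have hs2 : ∀ u ∈ ball z ρ, s u ^ 2 = ψ u - c := by
    intro u hu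
    rw [← hLe u hu, hs, ← exp_nat_mul]
    congr 1
    push_cast
    ring
  set s0 := s z with hs0
  have hs0n : ‖s0‖ ^ 2 = d := by
    rw [← norm_pow, hs2 z (mem_ball_self hρ), hd', dist_eq_norm]
  have hs0p : 0 < ‖s0‖ := norm_pos_iff.2 (exp_ne_zero _)
  have hmem : ∀ σ ∈ ball s0 (‖s0‖ / 4), σ ^ 2 + c ∈ W := by
    intro σ hσ
    apply hball
    rw [mem_ball, dist_eq_norm] at hσ ⊢
    have e : σ ^ 2 + c - ψ z = (σ - s0) * ((σ - s0) + 2 * s0) := by
      have := hs2 z (mem_ball_self hρ)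
      linear_combination this
    rw [e, norm_mul, ← hs0n]
    have : ‖(σ - s0) + 2 * s0‖ ≤ ‖σ - s0‖ + 2 * ‖s0‖ := by
      refine (norm_add_le _ _).trans ?_
      simp
    have h5 := norm_nonneg (σ - s0)
    nlinarith [mul_le_mul_of_nonneg_left this h5]
  have hσne : ∀ σ ∈ ball s0 (‖s0‖ / 4), σ ≠ 0 := by
    rintro σ hσ rfl
    rw [mem_ball, dist_zero_left] at hσ
    linarith
  have hbr : EqOn (fun σ => s (g (σ ^ 2 + c))) id (ball s0 (‖s0‖ / 4)) := by
    refine (convex_ball s0 _).isPreconnected.eq_of_sq_eq ?_ continuousOn_id ?_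
      (fun {x} hx => hσne x hx) (mem_ball_self (by positivity)) ?_
    · refine hsd.continuousOn.comp (hg.continuousOn.comp (by fun_prop) hmem) ?_
      exact fun σ hσ => (hgm _ (hmem σ hσ)).1
    · intro σ hσ
      simp only [Pi.pow_apply, id]
      rw [hs2 _ (hgm _ (hmem σ hσ)).1, (hgm _ (hmem σ hσ)).2]
      ring
    · simp only [id]
      rw [hs2 z (mem_ball_self hρ), sub_add_cancel, hl z (mem_ball_self hρ)]
  have hfar : ∀ u ∈ ball z ρ, ‖s0‖ / 4 ≤ ‖s u + s0‖ := by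
    intro u hu
    by_contra hlt
    push Not at hlt
    have h1 : -s u ∈ ball s0 (‖s0‖ / 4) := by
      rw [mem_ball, dist_eq_norm, ← norm_neg, show -(-s u - s0) = s u + s0 by ring]
      exact hlt
    have h2 := hbr h1
    simp only [id, even_two, Even.neg_pow] at h2
    rw [hs2 u hu, sub_add_cancel, hl u hu] at h2
    have h3 : s u = 0 := by linear_combination h2 / 2
    exact exp_ne_zero _ h3
  have hvne : ∀ u ∈ ball z ρ, s u + s0 ≠ 0 := fun u hu h => by
    have := hfar u hu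
    rw [h, norm_zero] at this
    linarith
  have hv0 : ‖(s z + s0)⁻¹‖ = 1 / (2 * ‖s0‖) := by
    rw [norm_inv, ← hs0, ← two_mul, norm_mul]
    simp
  have hnear : ∀ u ∈ ball z (ρ / 20), ‖ψ u - ψ z‖ ≤ 26 * d := by
    intro u hu
    have hu' : u ∈ ball z ρ := ball_subset_ball (by linarith) hu
    have h1 : dist ((s u + s0)⁻¹) ((s z + s0)⁻¹) ≤ (5 / ‖s0‖) / ρ * dist u z := by
      refine dist_le_div_mul_dist_of_mapsTo_ball (f := fun u => (s u + s0)⁻¹)
        ((hsd.add_const s0).inv hvne) ?_ hu'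
      intro w hw
      rw [mem_closedBall, dist_eq_norm]
      refine (norm_sub_le _ _).trans ?_
      rw [hv0, norm_inv]
      have h2 : ‖s w + s0‖⁻¹ ≤ 4 / ‖s0‖ := by
        rw [inv_le_comm₀ (norm_pos_iff.2 (hvne w hw)) (by positivity), inv_div]
        exact hfar w hw
      have h3 : 1 / (2 * ‖s0‖) ≤ 1 / ‖s0‖ := by
        gcongr
        linarith
      have h4 : 5 / ‖s0‖ = 4 / ‖s0‖ + 1 / ‖s0‖ := by ring
      linarith
    have h2 : (5 / ‖s0‖) / ρ * dist u z ≤ 1 / (4 * ‖s0‖) := by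
      calc (5 / ‖s0‖) / ρ * dist u z ≤ (5 / ‖s0‖) / ρ * (ρ / 20) := by
            gcongr
            exact (mem_ball.1 hu).le
        _ = 1 / (4 * ‖s0‖) := by
            field_simp
            norm_num
    have h3 : 1 / (4 * ‖s0‖) ≤ ‖(s u + s0)⁻¹‖ := by
      have h4 := norm_sub_norm_le ((s z + s0)⁻¹) ((s u + s0)⁻¹)
      rw [← dist_eq_norm, dist_comm, hv0] at h4
      have h5 : 1 / (2 * ‖s0‖) = 1 / (4 * ‖s0‖) + 1 / (4 * ‖s0‖) := by
        field_simp
        norm_num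
      linarith
    rw [norm_inv, one_div, inv_le_inv₀ (by positivity) (norm_pos_iff.2 (hvne u hu'))] at h3
    have h4 : ‖s u‖ ≤ 5 * ‖s0‖ := by
      have := norm_sub_le (s u + s0) s0
      rw [add_sub_cancel_right] at this
      linarith
    have h5 : ‖ψ u - c‖ ≤ 25 * d := by
      rw [← hs2 u hu', norm_pow, ← hs0n]
      nlinarith [norm_nonneg (s u)]
    have h6 : ‖ψ z - c‖ = d := by rw [hd', dist_eq_norm]
    have := norm_sub_le (ψ u - c) (ψ z - c)
    rw [sub_sub_sub_cancel_right] at this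
    linarith
  have hd1 : ∀ u ∈ ball z (ρ / 40), ‖deriv ψ u‖ ≤ 52 * d / (ρ / 40) := by
    intro u hu
    have hsub : ball u (ρ / 40) ⊆ ball z (ρ / 20) :=
      ball_subset_ball' (by have := mem_ball.1 hu; linarith)
    refine norm_deriv_le_div_of_mapsTo_ball
      (hd.mono (hsub.trans (ball_subset_ball (by linarith)))) ?_ (by positivity)
    intro w hw
    rw [mem_closedBall, dist_eq_norm]
    have h1 := hnear w (hsub hw)
    have h2 := hnear u (ball_subset_ball (by linarith) hu)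
    have := norm_sub_le (ψ w - ψ z) (ψ u - ψ z)
    rw [sub_sub_sub_cancel_right] at this
    linarith
  have hd2 : ‖deriv (deriv ψ) z‖ ≤ (2 * (52 * d / (ρ / 40))) / (ρ / 40) := by
    refine norm_deriv_le_div_of_mapsTo_ball
      ((hd.deriv isOpen_ball).mono (ball_subset_ball (by linarith))) ?_ (by positivity)
    intro w hw
    rw [mem_closedBall, dist_eq_norm]
    have h1 := hd1 w hw
    have h2 := hd1 z (mem_ball_self (by positivity))
    have := norm_sub_le (deriv ψ w) (deriv ψ z)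
    linarith
  have e : (2 * (52 * d / (ρ / 40))) / (ρ / 40) * ρ = 166400 * (d / ρ) := by
    field_simp
    norm_num
  calc ‖deriv (deriv ψ) z‖ * ρ ≤ (2 * (52 * d / (ρ / 40))) / (ρ / 40) * ρ := by gcongr
    _ = 166400 * (d / ρ) := e
    _ ≤ 166400 * ‖deriv ψ z‖ := by
        gcongr
        rw [div_le_iff₀ hρ]
        linarith

/-- The logarithm of the derivative of a bounded univalent function is a Bloch function. -/
theorem exists_bloch {ψ : ℂ → ℂ} (hd : DifferentiableOn ℂ ψ (ball 0 1))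
    (hi : InjOn ψ (ball 0 1)) (hb : ψ '' ball 0 1 ≠ univ) :
    ∃ b : ℂ → ℂ, DifferentiableOn ℂ b (ball 0 1) ∧ (∀ z ∈ ball (0 : ℂ) 1, exp (b z) = deriv ψ z) ∧
      ∀ z ∈ ball (0 : ℂ) 1, ‖deriv b z‖ * (1 - ‖z‖) ≤ 166400 := by
  have h0 : ∀ z ∈ ball (0 : ℂ) 1, deriv ψ z ≠ 0 := fun z hz => deriv_ne_zero isOpen_ball hd hi hz
  obtain ⟨L, hL, hLe⟩ := exists_log (hd.deriv isOpen_ball) h0
  refine ⟨L, fun z hz => (hL z hz).differentiableAt.differentiableWithinAt, hLe, fun z hz => ?_⟩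
  have hz1 : ‖z‖ < 1 := by simpa using hz
  have hsub : ball z (1 - ‖z‖) ⊆ ball 0 1 := ball_subset_ball' (by simp)
  have := koebe_ball (by linarith) (hd.mono hsub) (hi.mono hsub)
    (fun h => hb (eq_univ_of_univ_subset (h ▸ image_mono hsub)))
  rw [(hL z hz).deriv, norm_div, div_mul_eq_mul_div, div_le_iff₀ (norm_pos_iff.2 (h0 z hz))]
  exact this

end Pool.Agent.P.MP_56bcbf_an
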