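import Pool.Agent.P.MP_56bcbf_an.Makarov
import Pool.Agent.P.MP_56bcbf_an.Koebe
import Pool.Agent.P.MP_56bcbf_an.Kernel

/-! A weighted Frostman estimate for harmonic measure on level curves. -/

namespace Pool.Agent.P.MP_56bcbf_an

open Set Metric Filter Topology Complex MeasureTheory Real
open scoped ENNReal

theorem radial_displacement {ψ : ℂ → ℂ} (hd : DifferentiableOn ℂ ψ (ball 0 1)) {θ T ε : ℝ}
    (hT : 0 ≤ T) (hε0 : 0 ≤ ε) (hε : ε < 1)
    (hup : ∀ t ∈ Ico (0 : ℝ) 1, ‖deriv ψ (circleMap 0 t θ)‖ ≤ T * (1 - t) ^ (-ε)) {t r : ℝ}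
    (ht : 0 ≤ t) (htr : t ≤ r) (hr : r < 1) :
    ‖ψ (circleMap 0 r θ) - ψ (circleMap 0 t θ)‖ ≤ T * (r - t) ^ (1 - ε) / (1 - ε) := by
  have h1ε : 0 < 1 - ε := by linarith
  have hder : ∀ u ∈ Icc t r, HasDerivAt (fun u : ℝ => ψ (circleMap 0 u θ) - ψ (circleMap 0 t θ))
      (deriv ψ (circleMap 0 u θ) * cexp (θ * I)) u := fun u hu =>
    (hasDerivAt_radial hd θ (ht.trans hu.1) (hu.2.trans_lt hr)).sub_const _
  have hB : ∀ u ∈ Icc t r, HasDerivAt
      (fun u : ℝ => T * ((1 - t) ^ (1 - ε) - (1 - u) ^ (1 - ε)) / (1 - ε)) (T * (1 - u) ^ (-ε)) u := by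
    intro u hu
    have h1 : 1 - u ≠ 0 := by linarith [hu.2]
    have := ((((hasDerivAt_id u).const_sub 1).rpow_const (p := 1 - ε)
      (Or.inl h1)).const_sub ((1 - t) ^ (1 - ε))).const_mul T |>.div_const (1 - ε)
    convert! this using 1
    simp only [id]
    rw [show 1 - ε - 1 = -ε by ring]
    field_simp
  have := image_norm_le_of_norm_deriv_right_le_deriv_boundary' (a := t) (b := r)
    (fun u hu => (hder u hu).continuousAt.continuousWithinAt)
    (fun u hu => (hder u (Ico_subset_Icc_self hu)).hasDerivWithinAt) (by simp)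
    (fun u hu => (hB u hu).continuousAt.continuousWithinAt)
    (fun u hu => (hB u (Ico_subset_Icc_self hu)).hasDerivWithinAt)
    (fun u hu => by
      rw [norm_mul, norm_exp_ofReal_mul_I, mul_one]
      exact hup u ⟨ht.trans hu.1, hu.2.trans hr⟩) (x := r) ⟨htr, le_rfl⟩
  refine this.trans ?_
  gcongr
  have := Real.rpow_add_le_add_rpow (p := 1 - ε) (a := r - t) (b := 1 - r) (by linarith)
    (by linarith) h1ε.le (by linarith)
  rw [show r - t + (1 - r) = 1 - t by ring] at this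
  linarith

theorem frostman_point {ψ : ℂ → ℂ} (hd : DifferentiableOn ℂ ψ (ball 0 1)) {θ lam ε β : ℝ}
    (hlam : 0 ≤ lam) (hε0 : 0 < ε) (hε : ε < 1) (hβ0 : 0 < β) (hβ : β < 1)
    (hup : ∀ t ∈ Ico (0 : ℝ) 1, ‖deriv ψ (circleMap 0 t θ)‖ ≤ Real.exp lam * (1 - t) ^ (-ε))
    (hlo : ∀ t ∈ Ico (0 : ℝ) 1, (1 - t) ^ ε / Real.exp lam ≤ ‖deriv ψ (circleMap 0 t θ)‖)
    {r : ℝ} (hr : r ∈ Ico (1 / 2 : ℝ) 1) {w : ℂ} (hw : w ∉ ψ '' ball 0 1) :
    ENNReal.ofReal (‖ψ (circleMap 0 r θ) - w‖ ^ (-β) *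
        Real.exp (-((2 + (1 + 2 * ε) / (1 - ε)) * lam))) ≤
      4 + ENNReal.ofReal (4 * 2 ^ (β + (1 + 2 * ε) / (1 - ε)) *
          (2 ^ (1 + 2 * ε) / (1 - ε) ^ ((1 + 2 * ε) / (1 - ε)))) *
        ∫⁻ t in Ioo 0 1, ENNReal.ofReal t * (ENNReal.ofReal (‖deriv ψ (circleMap 0 t θ)‖ ^ 2) *
          ENNReal.ofReal (‖ψ (circleMap 0 t θ) - w‖ ^ (-(β + (1 + 2 * ε) / (1 - ε))))) := by
  have h1ε : 0 < 1 - ε := by linarith
  set T := Real.exp lam with hT
  have hT1 : 1 ≤ T := Real.one_le_exp hlam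
  set g := (1 + 2 * ε) / (1 - ε) with hg
  have hg0 : 0 < g := by positivity
  have hpos : ∀ t ∈ Ico (0 : ℝ) 1, 0 < ‖ψ (circleMap 0 t θ) - w‖ := fun t ht =>
    norm_pos_iff.2 (sub_ne_zero.2 fun h => hw ⟨_, circleMap_mem ht.1 ht.2 θ, h⟩)
  set s := ‖ψ (circleMap 0 r θ) - w‖ with hs
  have hs0 : 0 < s := hpos r ⟨by linarith [hr.1], hr.2⟩
  set σ := ((1 - ε) * s / T) ^ (1 / (1 - ε)) / 2 with hσ
  have hσ0 : 0 < σ := by positivity
  have h2σ : (2 * σ) ^ (1 - ε) = (1 - ε) * s / T := by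
    rw [hσ, mul_div_cancel₀ _ two_ne_zero, ← rpow_mul (by positivity), one_div,
      inv_mul_cancel₀ h1ε.ne', rpow_one]
  have hexp : Real.exp (-((2 + g) * lam)) = (T ^ 2 * T ^ g)⁻¹ := by
    rw [Real.exp_neg, hT, ← Real.exp_nat_mul, ← Real.exp_mul, ← Real.exp_add]
    congr 2
    push_cast
    ring
  rcases le_or_gt (1 / 8) σ with hσ8 | hσ8
  · refine le_trans ?_ le_self_add
    have h1 : (1 / 4 : ℝ) ≤ s := by
      have h2 : (1 / 4 : ℝ) ^ (1 - ε) ≤ (2 * σ) ^ (1 - ε) := by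
        gcongr
        linarith
      have h3 : (1 / 4 : ℝ) ≤ (1 / 4 : ℝ) ^ (1 - ε) := by
        conv_lhs => rw [← rpow_one (1 / 4)]
        exact rpow_le_rpow_of_exponent_ge (by norm_num) (by norm_num) (by linarith)
      have h4 : (1 - ε) * s / T ≤ s := by
        rw [div_le_iff₀ (by linarith)]
        nlinarith
      linarith
    have h5 : s ^ (-β) ≤ 4 := by
      calc s ^ (-β) ≤ (1 / 4 : ℝ) ^ (-β) := rpow_le_rpow_of_nonpos (by norm_num) h1 (by linarith)
        _ ≤ (1 / 4 : ℝ) ^ (-1 : ℝ) :=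
          rpow_le_rpow_of_exponent_ge (by norm_num) (by norm_num) (by linarith)
        _ = 4 := by norm_num [rpow_neg_one]
    have h6 : Real.exp (-((2 + g) * lam)) ≤ 1 := Real.exp_le_one_iff.2 (by
      have : 0 ≤ (2 + g) * lam := by positivity
      linarith)
    have h7 : s ^ (-β) * Real.exp (-((2 + g) * lam)) ≤ 4 * 1 := by gcongr
    rw [show (4 : ℝ≥0∞) = ENNReal.ofReal (4 * 1) by simp]
    exact ENNReal.ofReal_le_ofReal h7
  · refine le_trans ?_ le_add_self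
    have hsub : Icc (r - 2 * σ) (r - σ) ⊆ Ioo 0 1 := fun t ht =>
      ⟨by linarith [ht.1, hr.1], by linarith [ht.2, hr.2]⟩
    have hlow : ∀ t ∈ Icc (r - 2 * σ) (r - σ),
        ENNReal.ofReal (1 / 4 * ((σ ^ ε / T) ^ 2 * (2 * s) ^ (-(β + g)))) ≤
        ENNReal.ofReal t * (ENNReal.ofReal (‖deriv ψ (circleMap 0 t θ)‖ ^ 2) *
          ENNReal.ofReal (‖ψ (circleMap 0 t θ) - w‖ ^ (-(β + g)))) := by
      intro t ht
      have ht' : t ∈ Ico (0 : ℝ) 1 := ⟨(hsub ht).1.le, (hsub ht).2⟩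
      rw [← ENNReal.ofReal_mul (by positivity), ← ENNReal.ofReal_mul ht'.1]
      refine ENNReal.ofReal_le_ofReal ?_
      have a1 : 1 / 4 ≤ t := by linarith [ht.1, hr.1]
      have a2 : σ ^ ε / T ≤ ‖deriv ψ (circleMap 0 t θ)‖ := by
        refine le_trans ?_ (hlo t ht')
        gcongr
        linarith [ht.2, hr.2]
      have a3 : ‖ψ (circleMap 0 t θ) - w‖ ≤ 2 * s := by
        have b1 := radial_displacement hd (by linarith) hε0.le hε hup ht'.1
          (show t ≤ r by linarith [ht.2]) hr.2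
        have b2 : T * (r - t) ^ (1 - ε) / (1 - ε) ≤ T * (2 * σ) ^ (1 - ε) / (1 - ε) := by
          gcongr
          · linarith [ht.2]
          · linarith [ht.1]
        rw [h2σ] at b2
        have b3 : T * ((1 - ε) * s / T) / (1 - ε) = s := by field_simp
        have b4 := norm_sub_le (ψ (circleMap 0 r θ) - w)
          (ψ (circleMap 0 r θ) - ψ (circleMap 0 t θ))
        rw [sub_sub_sub_cancel_left] at b4
        linarith
      have a4 := rpow_le_rpow_of_nonpos (hpos t ht') a3 (show -(β + g) ≤ 0 by linarith)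
      gcongr
    have hI : ENNReal.ofReal (1 / 4 * ((σ ^ ε / T) ^ 2 * (2 * s) ^ (-(β + g))) * σ) ≤
        ∫⁻ t in Ioo 0 1, ENNReal.ofReal t * (ENNReal.ofReal (‖deriv ψ (circleMap 0 t θ)‖ ^ 2) *
          ENNReal.ofReal (‖ψ (circleMap 0 t θ) - w‖ ^ (-(β + g)))) := by
      refine le_trans ?_ (lintegral_mono_set hsub)
      refine le_trans ?_ (setLIntegral_mono' measurableSet_Icc hlow)
      rw [setLIntegral_const, Real.volume_Icc, ← ENNReal.ofReal_mul (by positivity)]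
      apply le_of_eq
      congr 2
      ring
    refine le_trans ?_ (mul_le_mul_right hI _)
    rw [← ENNReal.ofReal_mul (by positivity)]
    apply le_of_eq
    congr 1
    have e1 : (σ ^ ε) ^ 2 * σ = (1 - ε) ^ g * s ^ g / T ^ g / 2 ^ (1 + 2 * ε) := by
      rw [← rpow_natCast, ← rpow_mul hσ0.le, ← rpow_add_one hσ0.ne', hσ,
        div_rpow (by positivity) (by positivity), ← rpow_mul (by positivity),
        show 1 / (1 - ε) * (ε * (2 : ℕ) + 1) = g by rw [hg]; push_cast; ring,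
        div_rpow (by positivity) (by positivity), mul_rpow (by positivity) (by positivity),
        show ε * (2 : ℕ) + 1 = 1 + 2 * ε by push_cast; ring]
    have e2 : (2 * s) ^ (-(β + g)) = (2 ^ (β + g))⁻¹ * (s ^ (-β) * (s ^ g)⁻¹) := by
      rw [mul_rpow (by positivity) hs0.le, rpow_neg (by positivity), neg_add, rpow_add hs0,
        rpow_neg hs0.le g]
    rw [hexp, div_pow, e2]
    have e3 : 1 / 4 * ((σ ^ ε) ^ 2 / T ^ 2 * ((2 ^ (β + g))⁻¹ * (s ^ (-β) * (s ^ g)⁻¹))) * σ =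
        1 / 4 * (((σ ^ ε) ^ 2 * σ) / T ^ 2 * ((2 ^ (β + g))⁻¹ * (s ^ (-β) * (s ^ g)⁻¹))) := by ring
    rw [e3, e1]
    field_simp

theorem frostman {ψ : ℂ → ℂ} (hm : Measurable ψ) (hd : DifferentiableOn ℂ ψ (ball 0 1))
    (hi : InjOn ψ (ball 0 1)) {R : ℝ} (hR : ψ '' ball 0 1 ⊆ ball 0 R) {β : ℝ} (hβ0 : 0 < β)
    (hβ : β < 1) :
    ∃ (Λ : ℝ → ℝ) (C : ℝ≥0∞), C ≠ ∞ ∧ Measurable Λ ∧ (∀ θ, 0 ≤ Λ θ) ∧
      IntegrableOn Λ (Ioo (-π) π) ∧ ∀ r ∈ Ico (1 / 2 : ℝ) 1, ∀ w ∈ ball (0 : ℂ) R,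
        w ∉ ψ '' ball 0 1 → ∫⁻ θ in Ioo (-π) π,
          ENNReal.ofReal (‖ψ (circleMap 0 r θ) - w‖ ^ (-β) * Real.exp (-Λ θ)) ≤ C := by
  have hR0 : 0 < R := by
    have := hR (mem_image_of_mem ψ (mem_ball_self one_pos))
    exact (norm_nonneg _).trans_lt (mem_ball_zero_iff.1 this)
  have hne : ψ '' ball 0 1 ≠ univ := fun h => by
    have := hR (h ▸ mem_univ (R : ℂ))
    simp [abs_of_pos hR0] at this
  obtain ⟨b, hb, hbe, hB⟩ := exists_bloch hd hi hne
  set ε := (1 - β) / 8 with hε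
  have hε0 : 0 < ε := by simp only [hε]; linarith
  have hε1 : ε < 1 := by simp only [hε]; linarith
  obtain ⟨Λ, hΛm, hΛ0, hΛi, hΛ⟩ := exists_majorant (by norm_num) hb hB hε0
  set g := (1 + 2 * ε) / (1 - ε) with hg
  have hg0 : 0 < g := by have : 0 < 1 - ε := by linarith
                         positivity
  have hg2 : β + g < 2 := by
    have : g < 2 - β := by
      rw [hg, div_lt_iff₀ (by linarith)]
      have : β = 1 - 8 * ε := by simp only [hε]; ring
      rw [this]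
      have : ε < 1 / 8 := by simp only [hε]; linarith
      nlinarith
    linarith
  set c := ENNReal.ofReal (4 * 2 ^ (β + g) * (2 ^ (1 + 2 * ε) / (1 - ε) ^ g)) with hc
  refine ⟨fun θ => (2 + g) * Λ θ, 4 * ENNReal.ofReal (2 * π) +
    c * ENNReal.ofReal (2 * π / (2 - (β + g)) * (2 * R) ^ (2 - (β + g))), ?_, by fun_prop,
    fun θ => by have := hΛ0 θ; positivity, hΛi.const_mul _, fun r hr w hwR hw => ?_⟩
  · simp only [hc]
    finiteness
  set F : ℂ → ℝ≥0∞ := (ball (0 : ℂ) 1).indicator fun z => ENNReal.ofReal (‖deriv ψ z‖ ^ 2) *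
    ENNReal.ofReal (‖ψ z - w‖ ^ (-(β + g))) with hF
  have hFm : Measurable F := by
    refine Measurable.indicator ?_ measurableSet_ball
    have := measurable_deriv ψ
    fun_prop
  have hA : ∫⁻ θ in Ioo (-π) π, ∫⁻ t in Ioi 0, ENNReal.ofReal t * F (circleMap 0 t θ) ≤
      ENNReal.ofReal (2 * π / (2 - (β + g)) * (2 * R) ^ (2 - (β + g))) := by
    rw [← lintegral_polar hFm, hF, lintegral_indicator measurableSet_ball,
      ← lintegral_image_holo isOpen_ball hd hi (fun x => ENNReal.ofReal (‖x - w‖ ^ (-(β + g)))),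
      ← lintegral_pow_kernel hg2 (by positivity) w]
    refine lintegral_mono_set (hR.trans (ball_subset_ball' ?_))
    rw [dist_comm]
    linarith [mem_ball.1 hwR]
  calc _ ≤ ∫⁻ θ in Ioo (-π) π,
        (4 + c * ∫⁻ t in Ioi 0, ENNReal.ofReal t * F (circleMap 0 t θ)) := by
        refine lintegral_mono_ae ?_
        filter_upwards [hΛ] with θ hθ
        have hn : ∀ t ∈ Ico (0 : ℝ) 1,
            ‖deriv ψ (circleMap 0 t θ)‖ = Real.exp (b (circleMap 0 t θ)).re := fun t ht => by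
          rw [← hbe _ (circleMap_mem ht.1 ht.2 θ), Complex.norm_exp]
        refine (frostman_point hd (hΛ0 θ) hε0 hε1 hβ0 hβ (fun t ht => ?_) (fun t ht => ?_)
          hr hw).trans ?_
        · rw [hn t ht, rpow_def_of_pos (by linarith [ht.2]), ← Real.exp_add, Real.exp_le_exp]
          linarith [(abs_le.1 (hθ t ht)).2]
        · rw [hn t ht, rpow_def_of_pos (by linarith [ht.2]), ← Real.exp_sub, Real.exp_le_exp]
          linarith [(abs_le.1 (hθ t ht)).1]
        · gcongr 4 + c * ?_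
          refine le_trans (le_of_eq ?_) (lintegral_mono_set (show Ioo (0 : ℝ) 1 ⊆ Ioi 0 from Ioo_subset_Ioi_self))
          refine setLIntegral_congr_fun measurableSet_Ioo fun t ht => ?_
          rw [hF, indicator_of_mem (circleMap_mem ht.1.le ht.2 θ)]
    _ = 4 * ENNReal.ofReal (2 * π) +
        c * ∫⁻ θ in Ioo (-π) π, ∫⁻ t in Ioi 0, ENNReal.ofReal t * F (circleMap 0 t θ) := by
        rw [lintegral_add_left measurable_const, lintegral_const_mul' _ _ ENNReal.ofReal_ne_top,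
          setLIntegral_const, Real.volume_Ioo]
        congr 3
        ring
    _ ≤ _ := by gcongr

end Pool.Agent.P.MP_56bcbf_an
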