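import Mathlib

/-! Integral means of small powers of the exponential of a Bloch function. -/

namespace Pool.Agent.P.MP_56bcbf_an

open Set Metric Filter Topology Complex MeasureTheory Real
open scoped Nat

theorem parseval_poly (c : ℕ → ℂ) (N : ℕ) (r : ℝ) (hr : 0 < r) :
    circleAverage (fun z => ‖∑ j ∈ Finset.range N, c j * z ^ j‖ ^ 2) 0 r
      = ∑ j ∈ Finset.range N, ‖c j‖ ^ 2 * r ^ (2 * j) := by
  rw [circleAverage_eq_circleAverage_zero_one]
  set p : Polynomial ℂ := ∑ j ∈ Finset.range N, Polynomial.monomial j (c j * (r : ℂ) ^ j) with hp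
  have hc : ∀ j, p.coeff j = if j < N then c j * (r : ℂ) ^ j else 0 := by
    intro j
    rw [hp, Polynomial.finsetSum_coeff]
    simp only [Polynomial.coeff_monomial]
    rw [Finset.sum_ite_eq']
    simp
  have h := p.sum_sq_norm_coeff_eq_circleAverage
  have e1 : (fun z : ℂ => ‖∑ j ∈ Finset.range N, c j * ((r : ℂ) * z + 0) ^ j‖ ^ 2)
      = fun θ => ‖p.eval θ‖ ^ 2 := by
    funext z
    rw [hp, Polynomial.eval_finsetSum]
    congr 2
    apply Finset.sum_congr rfl
    intro j _
    rw [Polynomial.eval_monomial, add_zero, mul_pow]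
    ring
  rw [e1, ← h]
  rw [Finset.sum_subset (s₁ := p.support) (s₂ := Finset.range N)]
  · apply Finset.sum_congr rfl
    intro j hj
    rw [hc, if_pos (Finset.mem_range.1 hj), norm_mul, norm_pow, Complex.norm_real,
      Real.norm_of_nonneg hr.le]
    ring
  · intro j hj
    rw [Polynomial.mem_support_iff, hc] at hj
    by_contra h'
    exact hj (if_neg (by simpa using h'))
  · intro j _ hj
    rw [Polynomial.notMem_support_iff.1 hj]
    simp

theorem parseval {g : ℂ → ℂ} (hg : DifferentiableOn ℂ g (ball 0 1)) {r : ℝ} (hr : 0 < r)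
    (hr1 : r < 1) :
    HasSum (fun n : ℕ => ‖(n ! : ℂ)⁻¹ * iteratedDeriv n g 0‖ ^ 2 * r ^ (2 * n))
      (circleAverage (fun z => ‖g z‖ ^ 2) 0 r) := by
  set c : ℕ → ℂ := fun n => (n ! : ℂ)⁻¹ * iteratedDeriv n g 0 with hc
  have hs : ∀ z ∈ ball (0 : ℂ) 1, HasSum (fun n => c n * z ^ n) (g z) := by
    intro z hz
    have e : (fun n => c n * z ^ n) =
        fun n : ℕ => (n ! : ℂ)⁻¹ • (z - 0) ^ n • iteratedDeriv n g 0 := by
      funext n
      simp only [hc, smul_eq_mul, sub_zero]
      ring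
    rw [e]
    exact hasSum_taylorSeries_on_ball hg hz
  have hsum : Summable (fun n => ‖c n‖ * r ^ n) := by
    have := (hs (r : ℂ) (by simpa [abs_of_pos hr] using hr1)).summable.norm
    simpa [abs_of_pos hr] using this
  have hb : ∀ N θ, ‖∑ j ∈ Finset.range N, c j * (circleMap 0 r θ) ^ j‖ ≤ ∑' n, ‖c n‖ * r ^ n := by
    intro N θ
    refine (norm_sum_le _ _).trans ?_
    have : ∀ j, ‖c j * (circleMap 0 r θ) ^ j‖ = ‖c j‖ * r ^ j := by
      intro j
      simp [abs_of_pos hr]
    simp_rw [this]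
    exact hsum.sum_le_tsum _ (fun _ _ => by positivity)
  rw [hasSum_iff_tendsto_nat_of_nonneg (fun _ => by positivity)]
  change Tendsto (fun N => ∑ j ∈ Finset.range N, ‖c j‖ ^ 2 * r ^ (2 * j)) _ _
  simp_rw [← parseval_poly c _ r hr, circleAverage_def]
  refine Tendsto.const_smul ?_ _
  refine intervalIntegral.tendsto_integral_filter_of_dominated_convergence
    (fun _ => (∑' n, ‖c n‖ * r ^ n) ^ 2) (.of_forall fun N => ?_) (.of_forall fun N => ?_)
    intervalIntegrable_const (.of_forall fun θ _ => ?_)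
  · exact Continuous.aestronglyMeasurable (by fun_prop)
  · refine .of_forall fun θ _ => ?_
    rw [Real.norm_of_nonneg (by positivity)]
    gcongr
    exact hb N θ
  · refine Tendsto.pow (Tendsto.norm ?_) 2
    exact (hs _ (by simpa [abs_of_pos hr] using hr1)).tendsto_sum_nat

theorem series_growth {a : ℕ → ℝ} (ha : ∀ n, 0 ≤ a n) {I J : ℝ → ℝ} {κ : ℝ} (hκ : 0 < κ)
    (hI : ∀ s ∈ Ioo (0 : ℝ) 1, HasSum (fun n => a n * s ^ (2 * n)) (I s))
    (hJ : ∀ s ∈ Ioo (0 : ℝ) 1, HasSum (fun n : ℕ => ((n : ℝ) + 1) ^ 2 * a (n + 1) * s ^ (2 * n)) (J s))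
    (hIJ : ∀ s ∈ Ioo (0 : ℝ) 1, J s ≤ κ / (1 - s) ^ 2 * I s) :
    ∀ r ∈ Ioo (0 : ℝ) 1, I r ≤ 2 * a 0 * (1 - r) ^ (-(8 * κ)) := by
  intro R hR
  set β := 8 * κ with hβ
  have hβ0 : 0 < β := by positivity
  have hI0 : ∀ s ∈ Ioo (0 : ℝ) 1, 0 ≤ I s := fun s hs =>
    (hI s hs).nonneg fun n => mul_nonneg (ha n) (by have := hs.1; positivity)
  set S : Set ℝ := (fun s => (1 - s) ^ β * I s) '' Ioc 0 R with hS
  have hSb : BddAbove S := by
    refine ⟨I R, ?_⟩
    rintro _ ⟨s, hs, rfl⟩
    have hs' : s ∈ Ioo (0 : ℝ) 1 := ⟨hs.1, hs.2.trans_lt hR.2⟩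
    have h1 : I s ≤ I R := hasSum_le (fun n => by
      have := hs.1
      have := ha n
      gcongr
      exact hs.2) (hI s hs') (hI R hR)
    have h2 : (1 - s) ^ β ≤ 1 := rpow_le_one (by linarith [hs'.2]) (by linarith [hs.1]) hβ0.le
    have := hI0 s hs'
    calc (1 - s) ^ β * I s ≤ 1 * I s := by gcongr
      _ ≤ I R := by linarith
  set M := sSup S with hM
  have hle : ∀ s ∈ Ioc 0 R, (1 - s) ^ β * I s ≤ M := fun s hs => le_csSup hSb ⟨s, hs, rfl⟩
  have hle' : ∀ s ∈ Ioc 0 R, I s ≤ M * (1 - s) ^ (-β) := by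
    intro s hs
    have h1 : 0 < 1 - s := by linarith [hs.2, hR.2]
    rw [rpow_neg h1.le, ← div_eq_mul_inv, le_div_iff₀ (rpow_pos_of_pos h1 _), mul_comm]
    exact hle s hs
  have hM0 : 0 ≤ M := by
    refine le_trans ?_ (hle R ⟨hR.1, le_rfl⟩)
    exact mul_nonneg (rpow_nonneg (by linarith [hR.2]) _) (hI0 R hR)
  have key : ∀ r ∈ Ioc 0 R, I r ≤ a 0 + M / 2 * (1 - r) ^ (-β) := by
    intro r hr
    have hr' : r ∈ Ioo (0 : ℝ) 1 := ⟨hr.1, hr.2.trans_lt hR.2⟩
    have h1 : HasSum (fun n => a (n + 1) * r ^ (2 * (n + 1))) (I r - a 0) := by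
      have := (hasSum_nat_add_iff' 1).2 (hI r hr')
      simpa using this
    suffices I r - a 0 ≤ M / 2 * (1 - r) ^ (-β) by linarith
    refine le_of_tendsto' h1.tendsto_sum_nat fun N => ?_
    have hint : ∀ n : ℕ, a (n + 1) * r ^ (2 * (n + 1)) ≤
        ∫ s in (0 : ℝ)..r, 4 * ((r - s) * (((n : ℝ) + 1) ^ 2 * a (n + 1) * s ^ (2 * n))) := by
      intro n
      have e : ∀ s : ℝ, 4 * ((r - s) * (((n : ℝ) + 1) ^ 2 * a (n + 1) * s ^ (2 * n))) =
          (4 * r * ((n : ℝ) + 1) ^ 2 * a (n + 1)) * s ^ (2 * n) -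
            (4 * ((n : ℝ) + 1) ^ 2 * a (n + 1)) * s ^ (2 * n + 1) := fun s => by ring
      simp_rw [e]
      rw [intervalIntegral.integral_sub (by apply Continuous.intervalIntegrable; fun_prop)
        (by apply Continuous.intervalIntegrable; fun_prop), intervalIntegral.integral_const_mul,
        intervalIntegral.integral_const_mul, integral_pow, integral_pow]
      have hr0 := hr.1
      have han := ha (n + 1)
      have hn : (0 : ℝ) ≤ n := n.cast_nonneg
      have e2 : 4 * r * ((n : ℝ) + 1) ^ 2 * a (n + 1) *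
            ((r ^ (2 * n + 1) - 0 ^ (2 * n + 1)) / (((2 * n : ℕ) : ℝ) + 1)) -
          4 * ((n : ℝ) + 1) ^ 2 * a (n + 1) *
            ((r ^ (2 * n + 1 + 1) - 0 ^ (2 * n + 1 + 1)) / (((2 * n + 1 : ℕ) : ℝ) + 1)) =
          a (n + 1) * r ^ (2 * (n + 1)) * ((2 * n + 2) / (2 * n + 1)) := by
        simp only [ne_eq, Nat.add_eq_zero_iff, mul_eq_zero, one_ne_zero, and_false,
          not_false_eq_true, zero_pow, sub_zero]
        push_cast
        field_simp
        ring
      rw [e2]
      refine le_mul_of_one_le_right (by positivity) ?_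
      rw [one_le_div (by positivity)]
      linarith
    have hcont : ContinuousOn (fun s : ℝ => (1 - s) ^ (-1 - β)) (uIcc 0 r) := by
      refine ContinuousOn.rpow_const (by fun_prop) fun s hs => Or.inl ?_
      rw [uIcc_of_le hr.1.le] at hs
      linarith [hs.2, hr'.2]
    calc ∑ n ∈ Finset.range N, a (n + 1) * r ^ (2 * (n + 1))
        ≤ ∑ n ∈ Finset.range N, ∫ s in (0 : ℝ)..r,
            4 * ((r - s) * (((n : ℝ) + 1) ^ 2 * a (n + 1) * s ^ (2 * n))) :=
          Finset.sum_le_sum fun n _ => hint n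
      _ = ∫ s in (0 : ℝ)..r, ∑ n ∈ Finset.range N,
            4 * ((r - s) * (((n : ℝ) + 1) ^ 2 * a (n + 1) * s ^ (2 * n))) := by
          rw [intervalIntegral.integral_finsetSum]
          intro n _
          apply Continuous.intervalIntegrable
          fun_prop
      _ ≤ ∫ s in (0 : ℝ)..r, 4 * κ * M * (1 - s) ^ (-1 - β) := by
          refine intervalIntegral.integral_mono_on_of_le_Ioo hr.1.le
            (by apply Continuous.intervalIntegrable; fun_prop)
            ((hcont.const_mul _).intervalIntegrable) fun s hs => ?_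
          have hs' : s ∈ Ioo (0 : ℝ) 1 := ⟨hs.1, hs.2.trans hr'.2⟩
          have h1s : 0 < 1 - s := by linarith [hs'.2]
          rw [← Finset.mul_sum, ← Finset.mul_sum]
          have h2 : ∑ n ∈ Finset.range N, ((n : ℝ) + 1) ^ 2 * a (n + 1) * s ^ (2 * n) ≤ J s :=
            sum_le_hasSum _ (fun n _ => by have := ha (n + 1); have := hs.1; positivity) (hJ s hs')
          have h3 := hIJ s hs'
          have h4 := hle' s ⟨hs.1, hs.2.le.trans hr.2⟩
          have h5 : 0 ≤ r - s := by linarith [hs.2]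
          have h6 : (1 - s) ^ (-1 - β) = (1 - s) * (1 / (1 - s) ^ 2 * (1 - s) ^ (-β)) := by
            rw [show -1 - β = -β - 1 by ring, rpow_sub_one h1s.ne']
            field_simp
          calc 4 * ((r - s) * ∑ n ∈ Finset.range N, ((n : ℝ) + 1) ^ 2 * a (n + 1) * s ^ (2 * n))
              ≤ 4 * ((r - s) * (κ / (1 - s) ^ 2 * (M * (1 - s) ^ (-β)))) := by
                gcongr
                refine h2.trans (h3.trans ?_)
                gcongr
            _ ≤ 4 * ((1 - s) * (κ / (1 - s) ^ 2 * (M * (1 - s) ^ (-β)))) := by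
                gcongr
                exact hr'.2.le
            _ = _ := by
                rw [h6]
                ring
      _ = 4 * κ * M * (((1 - r) ^ (-β) - 1) / β) := by
          rw [intervalIntegral.integral_const_mul]
          congr 1
          rw [intervalIntegral.integral_eq_sub_of_hasDerivAt (f := fun s => (1 - s) ^ (-β) / β)
            (fun s hs => ?_) hcont.intervalIntegrable]
          · simp only [sub_zero, one_rpow]
            ring
          · rw [uIcc_of_le hr.1.le] at hs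
            have h1s : 1 - s ≠ 0 := by linarith [hs.2, hr'.2]
            have := (((hasDerivAt_id s).const_sub 1).rpow_const (p := -β) (Or.inl h1s)).div_const β
            convert! this using 1
            simp only [id]
            rw [show -1 - β = -β - 1 by ring]
            field_simp
      _ ≤ M / 2 * (1 - r) ^ (-β) := by
          have e : 4 * κ * M * (((1 - r) ^ (-β) - 1) / β) = M / 2 * ((1 - r) ^ (-β) - 1) := by
            rw [hβ]
            field_simp
            ring
          rw [e]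
          gcongr
          linarith
  have hMle : M ≤ a 0 + M / 2 := by
    refine csSup_le ⟨_, R, ⟨hR.1, le_rfl⟩, rfl⟩ ?_
    rintro _ ⟨s, hs, rfl⟩
    have h1 : 0 < 1 - s := by linarith [hs.2, hR.2]
    have h2 : (1 - s) ^ β ≤ 1 := rpow_le_one h1.le (by linarith [hs.1]) hβ0.le
    have h3 : (1 - s) ^ β * (1 - s) ^ (-β) = 1 := by
      rw [← rpow_add h1]
      simp
    have h4 := rpow_pos_of_pos h1 β
    calc (1 - s) ^ β * I s ≤ (1 - s) ^ β * (a 0 + M / 2 * (1 - s) ^ (-β)) := by
          gcongr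
          exact key s hs
      _ = (1 - s) ^ β * a 0 + M / 2 * ((1 - s) ^ β * (1 - s) ^ (-β)) := by ring
      _ ≤ 1 * a 0 + M / 2 * 1 := by
          rw [h3]
          have := ha 0
          gcongr
      _ = _ := by ring
  refine (hle' R ⟨hR.1, le_rfl⟩).trans ?_
  have := rpow_pos_of_pos (show 0 < 1 - R by linarith [hR.2]) (-β)
  gcongr
  linarith

/-- Small integral means of the exponential of a Bloch function. -/
theorem means_le {b : ℂ → ℂ} {K : ℝ} (hK : 0 < K) (hb : DifferentiableOn ℂ b (ball 0 1))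
    (hB : ∀ z ∈ ball (0 : ℂ) 1, ‖deriv b z‖ * (1 - ‖z‖) ≤ K) {t : ℝ} (ht : t ≠ 0) {r : ℝ}
    (hr : r ∈ Ioo (0 : ℝ) 1) :
    circleAverage (fun z => Real.exp (t * (b z).re)) 0 r ≤
      2 * Real.exp (t * (b 0).re) * (1 - r) ^ (-(2 * t ^ 2 * K ^ 2)) := by
  set G : ℂ → ℂ := fun z => cexp ((t / 2 : ℝ) * b z) with hG
  have hGd : ∀ z ∈ ball (0 : ℂ) 1, HasDerivAt G (G z * ((t / 2 : ℝ) * deriv b z)) z := fun z hz =>
    ((hb.differentiableAt (isOpen_ball.mem_nhds hz)).hasDerivAt.const_mul _).cexp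
  have hGd' : DifferentiableOn ℂ G (ball 0 1) := fun z hz =>
    (hGd z hz).differentiableAt.differentiableWithinAt
  have hGn : ∀ z, ‖G z‖ ^ 2 = Real.exp (t * (b z).re) := by
    intro z
    rw [hG]
    simp only [Complex.norm_exp, re_ofReal_mul]
    rw [← Real.exp_nat_mul]
    congr 1
    push_cast
    ring
  have := series_growth (a := fun n => ‖(n ! : ℂ)⁻¹ * iteratedDeriv n G 0‖ ^ 2)
    (I := fun s => circleAverage (fun z => ‖G z‖ ^ 2) 0 s)
    (J := fun s => circleAverage (fun z => ‖deriv G z‖ ^ 2) 0 s) (κ := t ^ 2 * K ^ 2 / 4)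
    (fun _ => by positivity) (by positivity) (fun s hs => parseval hGd' hs.1 hs.2)
    (fun s hs => ?_) (fun s hs => ?_) r hr
  · simp only [hGn, Nat.factorial_zero, Nat.cast_one, inv_one, iteratedDeriv_zero, one_mul] at this
    convert this using 3
    ring
  · convert parseval (hGd'.deriv isOpen_ball) hs.1 hs.2 using 3 with n
    rw [← iteratedDeriv_succ', Nat.factorial_succ]
    have : ((n : ℝ) + 1) = ‖((n : ℂ) + 1)‖ := by
      rw [show ((n : ℂ) + 1) = ((n + 1 : ℕ) : ℂ) by push_cast; ring, Complex.norm_natCast]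
      push_cast
      ring
    rw [this, ← mul_pow, ← norm_mul]
    congr 2
    have h1 : ((n : ℂ) + 1) ≠ 0 := by exact_mod_cast n.succ_ne_zero
    have h2 : ((n ! : ℕ) : ℂ) ≠ 0 := by exact_mod_cast n.factorial_ne_zero
    push_cast
    field_simp
  · have hsub : sphere (0 : ℂ) |s| ⊆ ball 0 1 := by
      rw [abs_of_pos hs.1]
      exact sphere_subset_ball hs.2
    rw [← smul_eq_mul, ← circleAverage_fun_smul]
    refine circleAverage_mono ?_ ?_ fun z hz => ?_
    · exact (((hGd'.deriv isOpen_ball).continuousOn.mono hsub).norm.pow 2).circleIntegrable'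
    · exact (((hGd'.continuousOn.mono hsub).norm.pow 2).const_smul
        (t ^ 2 * K ^ 2 / 4 / (1 - s) ^ 2)).circleIntegrable'
    · have hz1 : ‖z‖ = s := by simpa [abs_of_pos hs.1] using hz
      have h1 := hB z (hsub hz)
      have h1s : 0 < 1 - s := by linarith [hs.2]
      rw [hz1, ← le_div_iff₀ h1s] at h1
      simp only [smul_eq_mul]
      rw [(hGd z (hsub hz)).deriv, norm_mul, norm_mul, Complex.norm_real, mul_pow, mul_pow,
        Real.norm_eq_abs, sq_abs]
      calc ‖G z‖ ^ 2 * ((t / 2) ^ 2 * ‖deriv b z‖ ^ 2)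
          ≤ ‖G z‖ ^ 2 * ((t / 2) ^ 2 * (K / (1 - s)) ^ 2) := by gcongr
        _ = _ := by
          field_simp
          ring

end Pool.Agent.P.MP_56bcbf_an
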