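import Pool.Agent.P.MP_56bcbf_an.Cauchy
import Pool.Agent.P.MP_56bcbf_an.Frostman

/-! The Cauchy transform vanishes in the inner domain of a thin pair. -/

namespace Pool.Agent.P.MP_56bcbf_an

open Set Metric Filter Topology Complex MeasureTheory Real
open scoped ENNReal

theorem kernel_theta {a b c θ : ℝ} (ha : 0 < a) (hb : 0 < b) (hc : 0 ≤ c) (hcab : c ≤ a + b)
    (hθ0 : 0 ≤ θ) (hθ : θ ≤ 1) :
    c / (a * b) ≤ 2 * c ^ θ * (a ^ (-(1 + θ)) + b ^ (-(1 + θ))) := by
  wlog hab : a ≤ b generalizing a b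
  · rw [mul_comm a b, add_comm (a ^ _)]
    exact this hb ha (by linarith) (by linarith)
  have h1 : c = c ^ θ * c ^ (1 - θ) := by
    rw [← rpow_add_of_nonneg hc hθ0 (by linarith)]
    simp
  have h2 : c ^ (1 - θ) ≤ 2 * (b * b ^ (-θ)) := by
    calc c ^ (1 - θ) ≤ (2 * b) ^ (1 - θ) := by
          gcongr
          linarith
      _ = 2 ^ (1 - θ) * (b * b ^ (-θ)) := by
          rw [mul_rpow (by norm_num) hb.le, sub_eq_add_neg 1 θ, rpow_add hb, rpow_one]
      _ ≤ _ := by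
          gcongr
          conv_rhs => rw [← rpow_one 2]
          exact rpow_le_rpow_of_exponent_le (by norm_num) (by linarith)
  have h3 : b ^ (-θ) ≤ a ^ (-θ) := rpow_le_rpow_of_nonpos ha hab (by linarith)
  have h4 : a ^ (-(1 + θ)) = a⁻¹ * a ^ (-θ) := by
    rw [neg_add, rpow_add ha, rpow_neg_one]
  calc c / (a * b) = c ^ θ * c ^ (1 - θ) / (a * b) := by rw [← h1]
    _ ≤ c ^ θ * (2 * (b * a ^ (-θ))) / (a * b) := by
        gcongr
        refine h2.trans ?_
        gcongr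
    _ = 2 * c ^ θ * (a ^ (-(1 + θ)) + 0) := by
        rw [h4]
        field_simp
        ring
    _ ≤ _ := by
        gcongr
        positivity

variable {k : ℂ → ℂ} {Ω : Set ℂ}

theorem setLIntegral_eq_of_support (hΩ : MeasurableSet Ω) (h0 : ∀ w ∉ Ω, k w = 0)
    (K : ℂ → ℝ≥0∞) : ∫⁻ w, ‖k w‖ₑ * K w = ∫⁻ w in Ω, ‖k w‖ₑ * K w := by
  rw [← lintegral_indicator hΩ]
  congr 1
  funext w
  by_cases hw : w ∈ Ω
  · rw [indicator_of_mem hw]
  · simp [hw, h0 w hw]

theorem cauchy_small (hΩ : MeasurableSet Ω) (hm : Measurable k) (hk : Integrable k)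
    (h0 : ∀ w ∉ Ω, k w = 0) {R : ℝ} (hR : Ω ⊆ ball 0 R) (hR0 : 0 < R) {p q β : ℝ}
    (hpq : q.HolderConjugate p) (hβq : 2 - q < β) (hβ0 : 0 < β) (hβ : β < 1) {E : Set ℂ}
    (hE : IsPreconnected E) (hEΩ : E ⊆ (closure Ω)ᶜ) (hE0 : ∀ e ∈ E, cauchy k e = 0)
    (hEu : ∀ r : ℝ, ∃ e ∈ E, r ≤ ‖e‖) :
    ∃ θ > (0 : ℝ), ∃ C > (0 : ℝ), ∀ z ∈ ball (0 : ℂ) R, ∀ d : ℝ, 0 < d → d ≤ 2 * R → (∃ e ∈ E, ‖e - z‖ ≤ 2 * d) →
      ‖cauchy k z‖ₑ ≤ ENNReal.ofReal (C * d ^ θ) *
        (∫⁻ w in Ω, ‖k w‖ₑ ^ q * ENNReal.ofReal (‖w - z‖ ^ (-β))) ^ (1 / q) := by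
  have hq1 := hpq.lt
  have hp0 := hpq.symm.pos
  have hq0 := hpq.pos
  have h1β : 0 < 1 - β := by linarith
  set θ := min 1 ((q - 2 + β) / (2 * q)) with hθ
  have hθ0 : 0 < θ := lt_min one_pos (by have : 0 < q - 2 + β := by linarith
                                         positivity)
  have hθ1 : θ ≤ 1 := min_le_left _ _
  set s := (1 + θ - β / q) * p with hs
  have hs2 : s < 2 := by
    have h1 : θ < (q - 2 + β) / q := by
      refine (min_le_right _ _).trans_lt ?_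
      have : 0 < q - 2 + β := by linarith
      gcongr
      linarith
    have h2 : 2 = (2 - 2 / q) * p := by
      have := hpq.inv_add_inv_eq_one
      field_simp at this ⊢
      linarith
    rw [h2, hs]
    refine mul_lt_mul_of_pos_right ?_ hp0
    rw [lt_div_iff₀ hq0] at h1
    have : 1 + θ - β / q - (2 - 2 / q) = (θ * q - (q - 2 + β)) / q := by
      field_simp
      ring
    have h3 : (θ * q - (q - 2 + β)) / q < 0 := div_neg_of_neg_of_pos (by linarith) hq0
    linarith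
  set A := (2 * π / (2 - s) * (8 * R) ^ (2 - s)) ^ (1 / p) with hA
  have hA0 : 0 < A := by
    have : 0 < 2 - s := by linarith
    positivity
  have hQ : ∀ x : ℂ, ‖x‖ ≤ 7 * R → ∫⁻ w in Ω, ‖k w‖ₑ * ENNReal.ofReal (‖w - x‖ ^ (-(1 + θ))) ≤
      (∫⁻ w in Ω, ‖k w‖ₑ ^ q * ENNReal.ofReal (‖w - x‖ ^ (-β))) ^ (1 / q) * ENNReal.ofReal A := by
    intro x hx
    refine (holder_kernel hpq (volume.restrict Ω) hm.enorm x (1 + θ) β).trans ?_
    gcongr
    rw [hA, ← ENNReal.ofReal_rpow_of_nonneg (by have : 0 < 2 - s := by linarith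
                                                positivity) (by positivity),
      ← lintegral_pow_kernel hs2 (by positivity) x]
    gcongr
    refine hR.trans (ball_subset_ball' ?_)
    rw [dist_zero_left]
    linarith
  refine ⟨θ, hθ0, 2 * 3 ^ θ * ((1 + (12 / (1 - β)) ^ (1 / q)) * A), by positivity,
    fun z hz d hd hdR ⟨e0, he0, he0d⟩ => ?_⟩
  have hzR := mem_ball_zero_iff.1 hz
  obtain ⟨e1, he1, he1n⟩ := hEu (7 * R)
  have he1d : 3 * d ≤ ‖e1 - z‖ := by linarith [norm_sub_norm_le e1 z]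
  obtain ⟨e, he, -, he3, hP⟩ := exists_good_point hE hβ0 hβ hd he0 he1 he0d he1d
    (volume.restrict Ω) (m := fun w => ‖k w‖ₑ ^ q) (by fun_prop)
  set P := ∫⁻ w in Ω, ‖k w‖ₑ ^ q * ENNReal.ofReal (‖w - z‖ ^ (-β)) with hPd
  have hP' : ∫⁻ w in Ω, ‖k w‖ₑ ^ q * ENNReal.ofReal (‖w - e‖ ^ (-β)) ≤
      ENNReal.ofReal (12 / (1 - β)) * P := by
    refine hP.trans ?_
    gcongr ENNReal.ofReal _ * ?_
    refine lintegral_mono_ae (ae_restrict_of_ae ?_)
    filter_upwards [compl_mem_ae_iff.2 (measure_singleton z)] with w hw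
    gcongr ‖k w‖ₑ ^ q * ENNReal.ofReal ?_
    exact rpow_le_rpow_of_nonpos (norm_pos_iff.2 (sub_ne_zero.2 hw)) (le_max_left _ _)
      (by linarith)
  have h1 := enorm_cauchy_le (z := z) (integrable_div hm hk h0 (hEΩ he)) (hE0 e he)
    (K := fun w => ENNReal.ofReal (2 * (3 * d) ^ θ) * (ENNReal.ofReal (‖w - z‖ ^ (-(1 + θ))) +
      ENNReal.ofReal (‖w - e‖ ^ (-(1 + θ))))) (fun w hwz hwe => by
      rw [← ENNReal.ofReal_add (by positivity) (by positivity),
        ← ENNReal.ofReal_mul (by positivity)]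
      refine ENNReal.ofReal_le_ofReal ((kernel_theta (norm_pos_iff.2 (sub_ne_zero.2 hwz))
        (norm_pos_iff.2 (sub_ne_zero.2 hwe)) (norm_nonneg _) ?_ hθ0.le hθ1).trans ?_)
      · have := norm_sub_le (w - z) (w - e)
        rwa [sub_sub_sub_cancel_left] at this
      · gcongr)
  refine h1.trans ?_
  rw [setLIntegral_eq_of_support hΩ h0]
  simp_rw [mul_left_comm ‖k _‖ₑ, mul_add ‖k _‖ₑ]
  rw [lintegral_const_mul' _ _ ENNReal.ofReal_ne_top, lintegral_add_left (by fun_prop)]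
  have h2 := hQ z (by linarith)
  have h3 := hQ e (by linarith [norm_sub_norm_le e z])
  calc _ ≤ ENNReal.ofReal (2 * (3 * d) ^ θ) * (P ^ (1 / q) * ENNReal.ofReal A +
        (ENNReal.ofReal (12 / (1 - β)) * P) ^ (1 / q) * ENNReal.ofReal A) := by
        gcongr
        refine h3.trans ?_
        gcongr
    _ = _ := by
        rw [ENNReal.mul_rpow_of_nonneg _ _ (by positivity),
          ENNReal.ofReal_rpow_of_nonneg (by positivity) (by positivity),
          mul_rpow (by norm_num) hd.le,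
          show 2 * 3 ^ θ * ((1 + (12 / (1 - β)) ^ (1 / q)) * A) * d ^ θ =
            (2 * (3 ^ θ * d ^ θ)) * ((1 + (12 / (1 - β)) ^ (1 / q)) * A) by ring,
          ENNReal.ofReal_mul (p := 2 * (3 ^ θ * d ^ θ)) (by positivity),
          ENNReal.ofReal_mul (p := 1 + _) (by positivity),
          ENNReal.ofReal_add zero_le_one (by positivity), ENNReal.ofReal_one]
        ring

theorem jensen_lower {F : ℂ → ℂ} (hF : AnalyticOnNhd ℂ F (ball 0 1)) :
    ∃ B : ℝ, ∀ r ∈ Ico (1 / 2 : ℝ) 1, -B ≤ circleAverage (fun z => Real.log ‖F z‖) 0 r := by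
  refine ⟨|((meromorphicOrderAt F 0).untop₀ : ℝ)| * Real.log 2 -
    Real.log ‖meromorphicTrailingCoeffAt F 0‖, fun r hr => ?_⟩
  have hr0 : 0 < r := by linarith [hr.1]
  have ha : AnalyticOnNhd ℂ F (closedBall 0 |r|) := by
    rw [abs_of_pos hr0]
    exact hF.mono (closedBall_subset_ball hr.2)
  rw [ha.meromorphicOn.circleAverage_log_norm hr0.ne',
    MeromorphicOn.divisor_apply ha.meromorphicOn (mem_closedBall_self (abs_nonneg r))]
  have h1 : 0 ≤ ∑ᶠ u, (MeromorphicOn.divisor F (closedBall 0 |r|) u : ℝ) *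
      Real.log (r * ‖0 - u‖⁻¹) := by
    refine finsum_nonneg fun u => ?_
    by_cases hu : u ∈ closedBall (0 : ℂ) |r|
    · refine mul_nonneg (by exact_mod_cast MeromorphicOn.AnalyticOnNhd.divisor_nonneg ha u) ?_
      rcases eq_or_ne u 0 with rfl | hu0
      · simp
      · refine Real.log_nonneg ?_
        rw [zero_sub, norm_neg, ← div_eq_mul_inv, one_le_div (norm_pos_iff.2 hu0)]
        simpa [abs_of_pos hr0] using hu
    · simp [hu]
  have h2 : |Real.log r| ≤ Real.log 2 := by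
    rw [abs_of_nonpos (Real.log_nonpos hr0.le hr.2.le), ← Real.log_inv]
    refine Real.log_le_log (by positivity) ?_
    rw [inv_le_comm₀ hr0 (by norm_num)]
    linarith [hr.1]
  have h3 : |((meromorphicOrderAt F 0).untop₀ : ℝ) * Real.log r| ≤
      |((meromorphicOrderAt F 0).untop₀ : ℝ)| * Real.log 2 := by
    rw [abs_mul]
    gcongr
  linarith [neg_abs_le (((meromorphicOrderAt F 0).untop₀ : ℝ) * Real.log r)]

theorem countable_zeros {F : ℂ → ℂ} (hF : AnalyticOnNhd ℂ F (ball 0 1))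
    (h : ¬ EqOn F 0 (ball 0 1)) : {z ∈ ball (0 : ℂ) 1 | F z = 0}.Countable := by
  have : DiscreteTopology {z ∈ ball (0 : ℂ) 1 | F z = 0} := by
    rw [discreteTopology_subtype_iff]
    intro x hx
    rw [inf_principal_eq_bot]
    by_contra hc
    refine h (hF.eqOn_zero_of_preconnected_of_frequently_eq_zero
      (convex_ball 0 1).isPreconnected hx.1 fun hf => hc ?_)
    filter_upwards [hf] with z hz hz' using hz hz'.2
  exact countable_of_Lindelof_of_discrete (X := {z ∈ ball (0 : ℂ) 1 | F z = 0})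

theorem vanish_of_bound {ψ f : ℂ → ℂ} (hc : ContinuousOn ψ (ball 0 1))
    (hF : AnalyticOnNhd ℂ (fun u => f (ψ u)) (ball 0 1)) {δ : ℂ → ℝ} (hδ : Continuous δ)
    (hδ0 : ∀ u ∈ ball (0 : ℂ) 1, 0 < δ (ψ u)) {L : ℝ} (hδL : ∀ u ∈ ball (0 : ℂ) 1, δ (ψ u) ≤ L)
    {θ B : ℝ} (hθ : 0 < θ)
    (hb : ∀ r ∈ Ico (1 / 2 : ℝ) 1, ∃ X : ℝ → ℝ, IntegrableOn X (Ioo (-π) π) ∧
      ∫ t in Ioo (-π) π, X t ≤ B ∧ ∀ᵐ t ∂(volume.restrict (Ioo (-π) π)),
        f (ψ (circleMap 0 r t)) ≠ 0 → Real.log ‖f (ψ (circleMap 0 r t))‖ ≤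
          θ * Real.log (δ (ψ (circleMap 0 r t))) + X t)
    (hthin : ∀ M : ℝ, ∃ r ∈ Ico (1 / 2 : ℝ) 1, ENNReal.ofReal M < ∫⁻ t in Ioo (-π) π,
      (-ENNReal.log (ENNReal.ofReal (δ (ψ (circleMap 0 r t))))).toENNReal) :
    ∀ u ∈ ball (0 : ℂ) 1, f (ψ u) = 0 := by
  by_contra hne
  have hcount := countable_zeros hF hne
  obtain ⟨B', hB'⟩ := jensen_lower hF
  have hcr : ∀ r ∈ Ico (0 : ℝ) 1, Continuous fun t => δ (ψ (circleMap 0 r t)) := fun r hr =>
    hδ.comp (hc.comp_continuous (continuous_circleMap _ _) fun t => circleMap_mem hr.1 hr.2 t)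
  set φ : ℝ → ℝ≥0∞ := fun x => (-ENNReal.log (ENNReal.ofReal x)).toENNReal with hφ
  set M := (B + 2 * π * B') / θ + 2 * π * |Real.log L| with hM
  have key : ∀ r ∈ Ico (1 / 2 : ℝ) 1,
      ∫⁻ t in Ioo (-π) π, φ (δ (ψ (circleMap 0 r t))) ≤ ENNReal.ofReal M := by
    intro r hr
    have hr0 : 0 < r := by linarith [hr.1]
    have hmem := circleMap_mem hr0.le hr.2
    obtain ⟨X, hXi, hXB, hX⟩ := hb r hr
    have hlc : Continuous fun t => Real.log (δ (ψ (circleMap 0 r t))) :=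
      (hcr r ⟨hr0.le, hr.2⟩).log fun t => (hδ0 _ (hmem t)).ne'
    have hli : IntegrableOn (fun t => Real.log (δ (ψ (circleMap 0 r t)))) (Ioo (-π) π) :=
      hlc.integrableOn_Icc.mono_set Ioo_subset_Icc_self
    have hli' : IntegrableOn (fun t => -Real.log (δ (ψ (circleMap 0 r t)))) (Ioo (-π) π) :=
      hli.neg
    have hli'' : IntegrableOn (fun t => -Real.log (δ (ψ (circleMap 0 r t))) + |Real.log L|)
        (Ioo (-π) π) := hli'.add (integrable_const _)
    have hFi : IntegrableOn (fun t => Real.log ‖f (ψ (circleMap 0 r t))‖) (Ioo (-π) π) := by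
      have h1 : CircleIntegrable (fun z => Real.log ‖f (ψ z)‖) 0 r := by
        refine MeromorphicOn.circleIntegrable_log_norm (hF.mono ?_).meromorphicOn
        rw [abs_of_pos hr0]
        exact sphere_subset_ball hr.2
      have h2 : Function.Periodic (fun t => Real.log ‖f (ψ (circleMap 0 r t))‖) (2 * π) :=
        fun t => by simp [periodic_circleMap 0 r t]
      exact (intervalIntegrable_iff_integrableOn_Ioo_of_le (by linarith [pi_pos])).1
        (h2.intervalIntegrable₀ (by positivity) h1 (-π) π)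
    have h3 : ∫ t in Ioo (-π) π, Real.log ‖f (ψ (circleMap 0 r t))‖ ≤
        ∫ t in Ioo (-π) π, (θ * Real.log (δ (ψ (circleMap 0 r t))) + X t) := by
      refine integral_mono_ae hFi ((hli.const_mul θ).add hXi) ?_
      filter_upwards [hX, ae_restrict_of_ae (compl_mem_ae_iff.2
        ((hcount.preimage_circleMap 0 hr0.ne').measure_zero volume))] with t h1 h2
      exact h1 fun h => h2 ⟨hmem t, h⟩
    rw [integral_Ioo_eq (fun z => Real.log ‖f (ψ z)‖), integral_add (hli.const_mul θ) hXi,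
      integral_const_mul] at h3
    have h4 := hB' r hr
    have h5 : ∫ t in Ioo (-π) π, (-Real.log (δ (ψ (circleMap 0 r t))) + |Real.log L|) ≤ M := by
      rw [integral_add hli' (integrable_const _), integral_neg, setIntegral_const,
        Real.volume_real_Ioo_of_le (by linarith [pi_pos]), smul_eq_mul, hM]
      have : -∫ t in Ioo (-π) π, Real.log (δ (ψ (circleMap 0 r t))) ≤ (B + 2 * π * B') / θ := by
        rw [le_div_iff₀ hθ]
        nlinarith [pi_pos]
      linarith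
    refine le_trans ?_ (ENNReal.ofReal_le_ofReal h5)
    rw [ofReal_integral_eq_lintegral_ofReal hli''
      (.of_forall fun t => ?_)]
    · refine lintegral_mono fun t => ?_
      simp only [hφ]
      rw [ENNReal.log_ofReal_of_pos (hδ0 _ (hmem t)), ← EReal.coe_neg, EReal.real_coe_toENNReal]
      exact ENNReal.ofReal_le_ofReal (by linarith [abs_nonneg (Real.log L)])
    · have := Real.log_le_log (hδ0 _ (hmem t)) (hδL _ (hmem t))
      simp only [Pi.zero_apply]
      linarith [le_abs_self (Real.log L)]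
  obtain ⟨r, hr, hM'⟩ := hthin M
  exact absurd (key r hr) (not_le.2 hM')

theorem fatou_thin {ψ : ℂ → ℂ} (hc : ContinuousOn ψ (closedBall 0 1)) {δ : ℂ → ℝ}
    (hδ : Continuous δ) (hthin : ∫⁻ t in Ioo (-π) π,
      (-ENNReal.log (ENNReal.ofReal (δ (ψ (circleMap 0 1 t))))).toENNReal = ∞) (M : ℝ) :
    ∃ r ∈ Ico (1 / 2 : ℝ) 1, ENNReal.ofReal M < ∫⁻ t in Ioo (-π) π,
      (-ENNReal.log (ENNReal.ofReal (δ (ψ (circleMap 0 r t))))).toENNReal := by
  by_contra! key
  have hcr : ∀ r ∈ Icc (0 : ℝ) 1, Continuous fun t => δ (ψ (circleMap 0 r t)) := fun r hr =>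
    hδ.comp (hc.comp_continuous (continuous_circleMap _ _) fun t => by
      simpa [abs_of_nonneg hr.1] using hr.2)
  set φ : ℝ → ℝ≥0∞ := fun x => (-ENNReal.log (ENNReal.ofReal x)).toENNReal with hφ
  have hφc : Continuous φ :=
    EReal.continuous_toENNReal.comp (ENNReal.continuous_log.comp ENNReal.continuous_ofReal).neg
  set ρ : ℕ → ℝ := fun n => 1 - 1 / ((n : ℝ) + 2) with hρ
  have hρm : ∀ n, ρ n ∈ Ico (1 / 2 : ℝ) 1 := fun n => by
    have h1 : 1 / ((n : ℝ) + 2) ≤ 1 / 2 := by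
      gcongr
      linarith [n.cast_nonneg (α := ℝ)]
    have h2 : 0 < 1 / ((n : ℝ) + 2) := by positivity
    constructor <;> simp only [hρ] <;> linarith
  have hρt : Tendsto ρ atTop (𝓝 1) := by
    have := tendsto_const_nhds (x := (1 : ℝ)).sub ((tendsto_const_nhds (x := (1 : ℝ))).div_atTop
      (tendsto_atTop_add_const_right atTop 2 (tendsto_natCast_atTop_atTop (R := ℝ))))
    rwa [sub_zero] at this
  have hfat := lintegral_liminf_le (μ := volume.restrict (Ioo (-π) π)) (u := atTop)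
    (f := fun n t => φ (δ (ψ (circleMap 0 (ρ n) t))))
    (fun n => (hφc.comp (hcr _ ⟨by linarith [(hρm n).1], (hρm n).2.le⟩)).measurable)
  have hlim : ∀ t, liminf (fun n => φ (δ (ψ (circleMap 0 (ρ n) t)))) atTop =
      φ (δ (ψ (circleMap 0 1 t))) := by
    intro t
    refine Tendsto.liminf_eq ((hφc.comp hδ).continuousAt.tendsto.comp ?_)
    refine (hc _ (by simp)).tendsto.comp (tendsto_nhdsWithin_iff.2 ⟨?_, .of_forall fun n => ?_⟩)
    · have : Continuous fun r : ℝ => circleMap 0 r t := by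
        unfold circleMap
        fun_prop
      exact this.continuousAt.tendsto.comp hρt
    · exact ball_subset_closedBall (circleMap_mem (by linarith [(hρm n).1]) (hρm n).2 t)
  simp_rw [hlim] at hfat
  rw [hthin] at hfat
  have := hfat.trans (liminf_le_of_frequently_le' (.of_forall fun n => key _ (hρm n)))
  exact ENNReal.ofReal_ne_top (top_le_iff.1 this)

theorem vanish (hΩ : MeasurableSet Ω) (hm : Measurable k) (hk : Integrable k)
    (h0 : ∀ w ∉ Ω, k w = 0) {R : ℝ} (hR0 : 0 < R) {p q : ℝ}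
    (hpq : q.HolderConjugate p) (hkq : ∫⁻ w in Ω, ‖k w‖ₑ ^ q ≠ ∞) {E D : Set ℂ}
    (hE : IsPreconnected E) (hEΩ : E ⊆ (closure Ω)ᶜ) (hE0 : ∀ e ∈ E, cauchy k e = 0)
    (hEu : ∀ r : ℝ, ∃ e ∈ E, r ≤ ‖e‖) (hD : IsOpen D) (hDR : D ⊆ ball 0 R) (hΩD : Ω ⊆ D)
    (hED : ∀ z ∈ D, ∃ e ∈ E, ‖e - z‖ ≤ 2 * infDist z Dᶜ) {ψ : ℂ → ℂ} (hψm : Measurable ψ)
    (hd : DifferentiableOn ℂ ψ (ball 0 1))
    (hi : InjOn ψ (ball 0 1)) (hUD : ψ '' ball 0 1 ⊆ D) (hUΩ : ψ '' ball 0 1 ⊆ (closure Ω)ᶜ)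
    (hthin : ∀ M : ℝ, ∃ r ∈ Ico (1 / 2 : ℝ) 1, ENNReal.ofReal M < ∫⁻ t in Ioo (-π) π,
      (-ENNReal.log (ENNReal.ofReal (infDist (ψ (circleMap 0 r t)) Dᶜ))).toENNReal) :
    ∀ u ∈ ball (0 : ℂ) 1, cauchy k (ψ u) = 0 := by
  have hq1 := hpq.lt
  have hq0 := hpq.pos
  set β := max (1 / 2) ((3 - q) / 2) with hβ
  have hβ0 : 0 < β := lt_max_of_lt_left (by norm_num)
  have hβ1 : β < 1 := max_lt (by norm_num) (by linarith)
  obtain ⟨θ, hθ, C, hC, hsm⟩ := cauchy_small hΩ hm hk h0 (hΩD.trans hDR) hR0 hpq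
    (lt_max_of_lt_right (by linarith)) hβ0 hβ1 hE hEΩ hE0 hEu
  obtain ⟨Λ, C1, hC1, hΛm, hΛ0, hΛi, hfr⟩ := frostman hψm hd hi (hUD.trans hDR) hβ0 hβ1
  have hout : (R : ℂ) ∈ Dᶜ := fun h => by simpa [abs_of_pos hR0] using hDR h
  have hδ0 : ∀ z ∈ D, 0 < infDist z Dᶜ := fun z hz =>
    (hD.isClosed_compl.notMem_iff_infDist_pos ⟨_, hout⟩).1 (fun h => h hz)
  have hδL : ∀ z ∈ D, infDist z Dᶜ ≤ 2 * R := fun z hz => by
    refine (infDist_le_dist_of_mem hout).trans ?_
    have := norm_sub_le z (R : ℂ)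
    rw [Complex.norm_real, Real.norm_of_nonneg hR0.le] at this
    rw [dist_eq_norm]
    linarith [mem_ball_zero_iff.1 (hDR hz)]
  set N := ∫⁻ w in Ω, ‖k w‖ₑ ^ q with hN
  refine vanish_of_bound (f := cauchy k) (δ := fun z => infDist z Dᶜ) hd.continuousOn ?_
    (continuous_infDist_pt _) (fun u hu => hδ0 _ (hUD (mem_image_of_mem ψ hu)))
    (fun u hu => hδL _ (hUD (mem_image_of_mem ψ hu))) hθ
    (B := 2 * π * Real.log C + 1 / q * ((N * C1).toReal + ∫ t in Ioo (-π) π, Λ t))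
    (fun r hr => ?_) hthin
  · exact ((differentiableOn_cauchy hm hk h0).comp hd
      fun u hu => hUΩ (mem_image_of_mem ψ hu)).analyticOnNhd isOpen_ball
  have hr0 : 0 < r := by linarith [hr.1]
  have hmem := circleMap_mem hr0.le hr.2
  have hmeas : Measurable fun x : ℝ × ℂ => ‖k x.2‖ₑ ^ q *
      ENNReal.ofReal (‖ψ (circleMap 0 r x.1) - x.2‖ ^ (-β) * Real.exp (-Λ x.1)) := by
    have := (continuous_circleMap 0 r).measurable
    fun_prop
  set G : ℝ → ℝ≥0∞ := fun t => ∫⁻ w in Ω, ‖k w‖ₑ ^ q *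
    ENNReal.ofReal (‖ψ (circleMap 0 r t) - w‖ ^ (-β) * Real.exp (-Λ t)) with hG
  have hGm : Measurable G := hmeas.lintegral_prod_right'
  have hGi : ∫⁻ t in Ioo (-π) π, G t ≤ N * C1 := by
    rw [hG, lintegral_lintegral_swap hmeas.aemeasurable, hN,
      ← lintegral_mul_const' _ _ hC1]
    refine setLIntegral_mono' hΩ fun w hw => ?_
    rw [lintegral_const_mul _ (by
      have := (continuous_circleMap 0 r).measurable
      fun_prop)]
    gcongr
    exact hfr r hr w (hDR (hΩD hw)) fun h => hUΩ h (subset_closure hw)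
  have hfin : N * C1 ≠ ∞ := ENNReal.mul_ne_top hkq hC1
  have hGi' : ∫⁻ t in Ioo (-π) π, G t ≠ ∞ := ne_top_of_le_ne_top hfin hGi
  have hGint := integrable_toReal_of_lintegral_ne_top hGm.aemeasurable hGi'
  have hGint' : IntegrableOn (fun t => 1 / q * ((G t).toReal + Λ t)) (Ioo (-π) π) :=
    (hGint.add hΛi).const_mul _
  refine ⟨fun t => Real.log C + 1 / q * ((G t).toReal + Λ t),
    (integrable_const _).add hGint', ?_, ?_⟩
  · beta_reduce
    rw [integral_add (integrable_const _) hGint', integral_const_mul,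
      integral_add hGint hΛi, setIntegral_const, Real.volume_real_Ioo_of_le (by linarith [pi_pos]),
      smul_eq_mul, integral_toReal hGm.aemeasurable (ae_lt_top hGm hGi')]
    have := ENNReal.toReal_mono hfin hGi
    rw [show π - -π = 2 * π by ring]
    gcongr
  · filter_upwards [ae_lt_top hGm hGi'] with t ht hne
    set z := ψ (circleMap 0 r t) with hz
    have hzD : z ∈ D := hUD (mem_image_of_mem ψ (hmem t))
    have h1 := hsm z (hDR hzD) _ (hδ0 z hzD) (hδL z hzD) (hED z hzD)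
    have h2 : ∫⁻ w in Ω, ‖k w‖ₑ ^ q * ENNReal.ofReal (‖w - z‖ ^ (-β)) =
        ENNReal.ofReal ((G t).toReal * Real.exp (Λ t)) := by
      rw [ENNReal.ofReal_mul ENNReal.toReal_nonneg, ENNReal.ofReal_toReal ht.ne, hG,
        ← lintegral_mul_const' _ _ ENNReal.ofReal_ne_top]
      congr 1
      funext w
      rw [mul_assoc, ← ENNReal.ofReal_mul (by positivity), mul_assoc, ← Real.exp_add,
        norm_sub_rev]
      simp [hz]
    have hd0 := hδ0 z hzD
    rw [h2, ENNReal.ofReal_rpow_of_nonneg (by positivity) (by positivity),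
      ← ENNReal.ofReal_mul (by positivity), ← ofReal_norm,
      ENNReal.ofReal_le_ofReal_iff (by positivity)] at h1
    have h3 : 0 < (G t).toReal := by
      rcases (ENNReal.toReal_nonneg (a := G t)).eq_or_lt with h | h
      · rw [← h, zero_mul, zero_rpow (by positivity), mul_zero] at h1
        exact absurd (norm_le_zero_iff.1 h1) hne
      · exact h
    have h4 := Real.log_le_log (norm_pos_iff.2 hne) h1
    rw [Real.log_mul (by positivity) (by positivity), Real.log_mul hC.ne' (by positivity),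
      Real.log_rpow hd0, Real.log_rpow (by positivity), Real.log_mul h3.ne' (by positivity),
      Real.log_exp] at h4
    have h5 : Real.log (G t).toReal ≤ (G t).toReal := by
      linarith [Real.log_le_sub_one_of_pos h3]
    have h6 : 1 / q * (Real.log (G t).toReal + Λ t) ≤ 1 / q * ((G t).toReal + Λ t) := by gcongr
    linarith

end Pool.Agent.P.MP_56bcbf_an
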