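import Pool.Agent.P.MP_56bcbf_an.Cauchy

/-! Convolution type estimates and the boundary estimate for the Cauchy transform. -/

namespace Pool.Agent.P.MP_56bcbf_an

open Set Metric Filter Topology Complex MeasureTheory Real
open scoped ENNReal

theorem holder_enorm {p q : ℝ≥0∞} [p.HolderConjugate q] {μ : Measure ℂ} {g k : ℂ → ℂ}
    (hg : AEStronglyMeasurable g μ) (hk : AEStronglyMeasurable k μ) :
    ∫⁻ z, ‖g z‖ₑ * ‖k z‖ₑ ∂μ ≤ eLpNorm g p μ * eLpNorm k q μ := by
  have := eLpNorm_smul_le_mul_eLpNorm (p := p) (q := q) (r := 1) hk hg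
  rw [eLpNorm_one_eq_lintegral_enorm] at this
  simpa [enorm_mul] using this

theorem young_bilin {p q : ℝ≥0∞} [p.HolderConjugate q] {g k : ℂ → ℂ} (hg : Measurable g)
    (hk : Measurable k) {κ : ℂ → ℝ≥0∞} (hκ : Measurable κ) :
    ∫⁻ z, ‖g z‖ₑ * ∫⁻ w, ‖k w‖ₑ * κ (w - z) ≤
      eLpNorm g p volume * (eLpNorm k q volume * ∫⁻ y, κ y) := by
  have h1 : ∀ z, ‖g z‖ₑ * ∫⁻ w, ‖k w‖ₑ * κ (w - z) = ∫⁻ y, (‖g z‖ₑ * ‖k (y + z)‖ₑ) * κ y := by
    intro z
    rw [← lintegral_add_right_eq_self _ z, ← lintegral_const_mul _ (by fun_prop)]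
    simp [mul_assoc]
  simp_rw [h1]
  rw [lintegral_lintegral_swap (by fun_prop), ← mul_assoc, ← lintegral_const_mul _ hκ]
  refine lintegral_mono fun y => ?_
  rw [lintegral_mul_const _ (by fun_prop)]
  gcongr
  refine (holder_enorm (p := p) (q := q) hg.aestronglyMeasurable
    (Measurable.aestronglyMeasurable (by fun_prop))).trans (le_of_eq ?_)
  congr 1
  exact eLpNorm_comp_measurePreserving hk.aestronglyMeasurable
    (measurePreserving_add_left volume y)

theorem young_pow {p q : ℝ≥0∞} [p.HolderConjugate q] (hp : p ≠ ∞) {k : ℂ → ℂ} (hk : Measurable k)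
    (hkq : MemLp k q volume) {Ω : Set ℂ} (hΩ : volume Ω ≠ ∞) :
    ∃ p0 q0 : ℝ, q0.HolderConjugate p0 ∧ ∫⁻ w in Ω, ‖k w‖ₑ ^ q0 ≠ ∞ ∧
      ∀ g : ℂ → ℂ, Measurable g → ∀ κ : ℂ → ℝ≥0∞, Measurable κ →
        ∫⁻ z, ‖g z‖ₑ * (∫⁻ w, ‖k w‖ₑ ^ q0 * κ (w - z)) ^ (1 / q0) ≤
          eLpNorm g p volume * (eLpNorm k q volume * (∫⁻ y, κ y) ^ (1 / q0)) := by
  rcases eq_or_ne q ∞ with rfl | hq
  · have hp1 : p = 1 := (ENNReal.HolderConjugate.eq_top_iff_eq_one ∞ p).1 rfl
    subst hp1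
    have hb : ∀ᵐ w, ‖k w‖ₑ ≤ eLpNorm k ∞ volume := ae_le_eLpNormEssSup
    refine ⟨2, 2, Real.HolderConjugate.two_two, ?_, fun g hg κ hκ => ?_⟩
    · refine ne_top_of_le_ne_top (b := ∫⁻ _ in Ω, eLpNorm k ∞ volume ^ (2 : ℝ)) ?_
        (lintegral_mono_ae (ae_restrict_of_ae ?_))
      · rw [setLIntegral_const]
        exact ENNReal.mul_ne_top (ENNReal.rpow_ne_top_of_nonneg (by norm_num) hkq.2.ne) hΩ
      · filter_upwards [hb] with w hw
        gcongr
    · rw [eLpNorm_one_eq_lintegral_enorm, ← lintegral_mul_const _ (by fun_prop)]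
      refine lintegral_mono fun z => ?_
      gcongr
      calc (∫⁻ w, ‖k w‖ₑ ^ (2 : ℝ) * κ (w - z)) ^ (1 / 2 : ℝ)
          ≤ (∫⁻ w, eLpNorm k ∞ volume ^ (2 : ℝ) * κ (w - z)) ^ (1 / 2 : ℝ) := by
            gcongr ?_ ^ _
            refine lintegral_mono_ae ?_
            filter_upwards [hb] with w hw
            gcongr
        _ = _ := by
            rw [lintegral_const_mul _ (by fun_prop), lintegral_sub_right_eq_self κ z,
              ENNReal.mul_rpow_of_nonneg _ _ (by norm_num), ← ENNReal.rpow_mul]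
            norm_num
  · have hpq : p.toReal.HolderConjugate q.toReal := ENNReal.HolderConjugate.toReal_of_ne_top hp hq
    have hq0 : q ≠ 0 := ENNReal.HolderConjugate.ne_zero q p
    have hp0 : p ≠ 0 := ENNReal.HolderConjugate.ne_zero p q
    refine ⟨p.toReal, q.toReal, hpq.symm, ?_, fun g hg κ hκ => ?_⟩
    · exact ne_top_of_le_ne_top (lintegral_rpow_enorm_lt_top_of_eLpNorm_lt_top hq0 hq hkq.2).ne
        (setLIntegral_le_lintegral _ _)
    · have hm : Measurable fun z => ∫⁻ w, ‖k w‖ₑ ^ q.toReal * κ (w - z) :=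
        Measurable.lintegral_prod_right (by fun_prop)
      refine (ENNReal.lintegral_mul_le_Lp_mul_Lq volume hpq (f := fun z => ‖g z‖ₑ)
        (g := fun z => (∫⁻ w, ‖k w‖ₑ ^ q.toReal * κ (w - z)) ^ (1 / q.toReal)) (by fun_prop)
        (by fun_prop)).trans (le_of_eq ?_)
      rw [eLpNorm_eq_lintegral_rpow_enorm_toReal hp0 hp,
        eLpNorm_eq_lintegral_rpow_enorm_toReal hq0 hq,
        ← ENNReal.mul_rpow_of_nonneg _ _ hpq.symm.one_div_nonneg]
      congr 2
      simp_rw [← ENNReal.rpow_mul, one_div, inv_mul_cancel₀ hpq.symm.ne_zero, ENNReal.rpow_one]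
      rw [lintegral_lintegral_swap (by fun_prop), ← lintegral_mul_const _ (by fun_prop)]
      congr 1
      funext w
      rw [lintegral_const_mul _ (by fun_prop), lintegral_sub_left_eq_self κ w]

/-- The truncated logarithmic kernel. -/
noncomputable def logK (a R : ℝ) : ℂ → ℝ≥0∞ :=
  (ball (0 : ℂ) (2 * R)).indicator fun y => ENNReal.ofReal (1 / (‖y‖ * (a + ‖y‖)))

theorem measurable_logK (a R : ℝ) : Measurable (logK a R) :=
  Measurable.indicator (by fun_prop) measurableSet_ball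

theorem lintegral_logK {a R : ℝ} (ha : 0 < a) (hR : 0 < R) :
    ∫⁻ y, logK a R y = ENNReal.ofReal (2 * π * Real.log (1 + 2 * R / a)) := by
  rw [logK, lintegral_indicator measurableSet_ball, ← lintegral_log_kernel ha (by positivity) 0]
  simp

theorem cauchy_boundary {k : ℂ → ℂ} {Ω : Set ℂ} (hm : Measurable k) (hk : Integrable k)
    (h0 : ∀ w ∉ Ω, k w = 0) {R : ℝ} (hR : Ω ⊆ ball 0 R) {p q : ℝ} (hpq : q.HolderConjugate p) :
    ∃ C > (0 : ℝ), ∀ z ∈ Ω, ∀ a d : ℝ, 0 < a → 0 < d → a ≤ 2 * d → ∀ V : Set ℂ, IsPreconnected V →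
      V ⊆ (closure Ω)ᶜ → (∀ e ∈ V, cauchy k e = 0) → (∃ e ∈ V, ‖e - z‖ ≤ 2 * d) →
      (∃ e ∈ V, 3 * d ≤ ‖e - z‖) →
      ‖cauchy k z‖ₑ ≤ ENNReal.ofReal (C * d) * ((∫⁻ w, ‖k w‖ₑ * logK a R (w - z)) +
        (∫⁻ w, ‖k w‖ₑ ^ q * logK a R (w - z)) ^ (1 / q)) := by
  have hq1 := hpq.lt
  have hp0 := hpq.symm.pos
  have hq0 := hpq.pos
  set β := max (1 / 2) ((3 - q) / 2) with hβd
  have hβ0 : 0 < β := lt_max_of_lt_left (by norm_num)
  have hβ : β < 1 := max_lt (by norm_num) (by linarith)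
  have hβq : 2 - q < β := lt_max_of_lt_right (by linarith)
  have h1β : 0 < 1 - β := by linarith
  set s := (1 - β / q) * p with hs
  have hpq' : 1 / q + 1 / p = 1 := by simpa using hpq.inv_add_inv_eq_one
  have hs2 : s < 2 := by
    have h2 : 2 = (2 - 2 / q) * p := by
      field_simp at hpq' ⊢
      linarith
    rw [h2, hs]
    refine mul_lt_mul_of_pos_right ?_ hp0
    have : 1 - β / q - (2 - 2 / q) = (2 - q - β) / q := by
      field_simp
      ring
    have h3 : (2 - q - β) / q < 0 := div_neg_of_neg_of_pos (by linarith) hq0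
    linarith
  have h2s : 0 < 2 - s := by linarith
  set A := (12 / (1 - β) * (6 ^ (-β) * 48)) ^ (1 / q) * (2 * π / (2 - s) * 9 ^ (2 - s)) ^ (1 / p)
    with hA
  refine ⟨8 + A, by positivity, fun z hz a d ha hd had V hV hVΩ hV0 ⟨e0, he0, he0d⟩
    ⟨e1, he1, he1d⟩ => ?_⟩
  obtain ⟨e, he, he2, he3, hP⟩ := exists_good_point hV hβ0 hβ hd he0 he1 he0d he1d
    (volume.restrict (ball z (6 * d))) (m := fun w => ‖k w‖ₑ ^ q) (by fun_prop)
  have hlog : ∀ (w : ℂ) (m : ℝ≥0∞), (w ∉ Ω → m = 0) →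
      m * ENNReal.ofReal (1 / (‖w - z‖ * (a + ‖w - z‖))) = m * logK a R (w - z) := by
    intro w m hm
    by_cases hw : w ∈ Ω
    · rw [logK, indicator_of_mem]
      rw [mem_ball_zero_iff]
      linarith [norm_sub_le w z, mem_ball_zero_iff.1 (hR hw), mem_ball_zero_iff.1 (hR hz)]
    · simp [hm hw]
  have h1 := enorm_cauchy_le (z := z) (integrable_div hm hk h0 (hVΩ he)) (hV0 e he)
    (K := fun w => ENNReal.ofReal (8 * d) * ENNReal.ofReal (1 / (‖w - z‖ * (a + ‖w - z‖))) +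
      (ball z (6 * d)).indicator (fun w => ENNReal.ofReal (‖w - e‖ ^ (-1 : ℝ))) w)
    (fun w hwz hwe => by
      have ht : 0 < ‖w - z‖ := norm_pos_iff.2 (sub_ne_zero.2 hwz)
      have hu : 0 < ‖w - e‖ := norm_pos_iff.2 (sub_ne_zero.2 hwe)
      have htri := norm_sub_le (w - z) (w - e)
      rw [sub_sub_sub_cancel_left] at htri
      have htri2 := norm_sub_norm_le (w - z) (e - z)
      rw [sub_sub_sub_cancel_right] at htri2
      rw [← ENNReal.ofReal_mul (by positivity)]
      by_cases hw : w ∈ ball z (6 * d)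
      · rw [indicator_of_mem hw, ← ENNReal.ofReal_add (by positivity) (by positivity)]
        refine ENNReal.ofReal_le_ofReal ?_
        rw [mem_ball, dist_eq_norm] at hw
        calc ‖e - z‖ / (‖w - z‖ * ‖w - e‖) ≤ (‖w - z‖ + ‖w - e‖) / (‖w - z‖ * ‖w - e‖) := by
              gcongr
          _ = (a + ‖w - z‖) * (1 / (‖w - z‖ * (a + ‖w - z‖))) + ‖w - e‖ ^ (-1 : ℝ) := by
              rw [rpow_neg_one]
              field_simp
              ring
          _ ≤ _ := by
              gcongr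
              linarith
      · rw [indicator_of_notMem hw, add_zero]
        refine ENNReal.ofReal_le_ofReal ?_
        rw [mem_ball, dist_eq_norm, not_lt] at hw
        rw [mul_one_div, div_le_div_iff₀ (by positivity) (by positivity)]
        calc ‖e - z‖ * (‖w - z‖ * (a + ‖w - z‖)) ≤ 3 * d * (‖w - z‖ * (4 / 3 * ‖w - z‖)) := by
              gcongr
              linarith
          _ = 8 * d * (‖w - z‖ * (‖w - z‖ / 2)) := by ring
          _ ≤ _ := by
              gcongr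
              linarith)
  refine h1.trans ?_
  simp_rw [mul_add ‖k _‖ₑ, mul_left_comm ‖k _‖ₑ, ← indicator_mul_right (ball z (6 * d))
    (fun w => ‖k w‖ₑ)]
  rw [lintegral_add_left (by fun_prop), lintegral_const_mul' _ _ ENNReal.ofReal_ne_top,
    lintegral_indicator measurableSet_ball, mul_add]
  refine add_le_add ?_ ?_
  · refine mul_le_mul' (ENNReal.ofReal_le_ofReal ?_) (lintegral_mono fun w => ?_)
    · have : 0 ≤ A := by positivity
      gcongr
      linarith
    · exact (hlog w _ fun hw => by simp [h0 w hw]).le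
  refine (holder_kernel hpq _ hm.enorm e 1 β).trans ?_
  have h2 : ∫⁻ w in ball z (6 * d), ‖k w‖ₑ ^ q * ENNReal.ofReal (‖w - e‖ ^ (-β)) ≤
      ENNReal.ofReal (12 / (1 - β) * (6 ^ (-β) * 48) * d ^ (2 - β)) *
        ∫⁻ w, ‖k w‖ₑ ^ q * logK a R (w - z) := by
    refine hP.trans ?_
    rw [mul_assoc, ENNReal.ofReal_mul (by positivity), mul_assoc (ENNReal.ofReal _)]
    gcongr ENNReal.ofReal _ * ?_
    rw [← lintegral_const_mul' _ _ ENNReal.ofReal_ne_top]
    refine le_trans (lintegral_mono_ae ?_) (setLIntegral_le_lintegral (ball z (6 * d)) _)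
    filter_upwards [ae_restrict_mem measurableSet_ball,
      ae_restrict_of_ae (compl_mem_ae_iff.2 (measure_singleton z))] with w hw hwz
    have ht : 0 < ‖w - z‖ := norm_pos_iff.2 (sub_ne_zero.2 hwz)
    rw [mem_ball, dist_eq_norm] at hw
    rw [← hlog w _ (fun hw => by simp [h0 w hw, hq0]), mul_left_comm,
      ← ENNReal.ofReal_mul (by positivity), max_eq_right hw.le]
    gcongr ‖k w‖ₑ ^ q * ENNReal.ofReal ?_
    rw [mul_rpow (by norm_num) hd.le, sub_eq_add_neg 2 β, rpow_add hd, mul_one_div,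
      le_div_iff₀ (by positivity), rpow_two]
    calc 6 ^ (-β) * d ^ (-β) * (‖w - z‖ * (a + ‖w - z‖))
        ≤ 6 ^ (-β) * d ^ (-β) * (6 * d * (8 * d)) := by
          gcongr
          linarith
      _ = _ := by ring
  have h3 : ∫⁻ w in ball z (6 * d), ENNReal.ofReal (‖w - e‖ ^ (-s)) ≤
      ENNReal.ofReal (2 * π / (2 - s) * 9 ^ (2 - s) * d ^ (2 - s)) := by
    rw [mul_assoc, ← mul_rpow (by norm_num) hd.le, ← lintegral_pow_kernel hs2 (by positivity) e]
    refine lintegral_mono_set (ball_subset_ball' ?_)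
    rw [dist_comm, dist_eq_norm]
    linarith
  calc _ ≤ (ENNReal.ofReal (12 / (1 - β) * (6 ^ (-β) * 48) * d ^ (2 - β)) *
        ∫⁻ w, ‖k w‖ₑ ^ q * logK a R (w - z)) ^ (1 / q) *
        ENNReal.ofReal (2 * π / (2 - s) * 9 ^ (2 - s) * d ^ (2 - s)) ^ (1 / p) := by gcongr
    _ = ENNReal.ofReal (A * d) * (∫⁻ w, ‖k w‖ₑ ^ q * logK a R (w - z)) ^ (1 / q) := by
        rw [ENNReal.mul_rpow_of_nonneg _ _ (by positivity),
          ENNReal.ofReal_rpow_of_nonneg (by positivity) (by positivity),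
          ENNReal.ofReal_rpow_of_nonneg (by positivity) (by positivity), mul_right_comm,
          ← ENNReal.ofReal_mul (by positivity), mul_rpow (by positivity) (by positivity),
          mul_rpow (x := 2 * π / (2 - s) * 9 ^ (2 - s)) (by positivity) (by positivity),
          ← rpow_mul hd.le, ← rpow_mul hd.le]
        congr 2
        have e1 : d = d ^ ((2 - β) * (1 / q)) * d ^ ((2 - s) * (1 / p)) := by
          rw [← rpow_add hd, show (2 - β) * (1 / q) + (2 - s) * (1 / p) = 1 by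
            rw [hs]
            field_simp at hpq' ⊢
            linarith, rpow_one]
        rw [hA]
        conv_rhs => rw [e1]
        ring
    _ ≤ _ := by
        gcongr
        linarith

end Pool.Agent.P.MP_56bcbf_an
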